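import Mathlib

/-!
Traces of derivatives, and algebraic elements over subrings.
-/

set_option autoImplicit false

namespace Pool.Agent.R392.NW

/-- the trace commutes with derivations -/
theorem trace_der {F K : Type} [Field F] [Field K] [Algebra F K] [FiniteDimensional F K]
    (D : K →+ K) (hD : ∀ a b, D (a * b) = a * D b + b * D a) (δ : F → F)
    (hδ : ∀ g, D (algebraMap F K g) = algebraMap F K (δ g)) (h : K) :
    algebraMap F K (Algebra.trace F K (D h)) = D (algebraMap F K (Algebra.trace F K h)) := by
  classical
  set b := Module.finBasis F K with hb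
  set M : Fin (Module.finrank F K) → Fin (Module.finrank F K) → F := fun i j =>
    b.repr (h * b j) i with hM
  set C : Fin (Module.finrank F K) → Fin (Module.finrank F K) → F := fun i j =>
    b.repr (D (b j)) i with hC
  have e1 : ∀ j, h * b j = ∑ i, algebraMap F K (M i j) * b i := by
    intro j
    conv_lhs => rw [← b.sum_repr (h * b j)]
    exact Finset.sum_congr rfl fun i _ => Algebra.smul_def _ _
  have e2 : ∀ j, D (b j) = ∑ i, algebraMap F K (C i j) * b i := by
    intro j
    conv_lhs => rw [← b.sum_repr (D (b j))]
    exact Finset.sum_congr rfl fun i _ => Algebra.smul_def _ _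
  have tr : ∀ z : K, Algebra.trace F K z = ∑ j, b.repr (z * b j) j := by
    intro z
    rw [Algebra.trace_eq_matrix_trace b, Matrix.trace]
    exact Finset.sum_congr rfl fun j _ => by
      rw [Matrix.diag_apply, Algebra.leftMulMatrix_eq_repr_mul]
  have key : ∀ j, b.repr (D h * b j) j = δ (M j j) + (∑ i, M i j * C j i - ∑ l, C l j * M j l) := by
    intro j
    have h1 : D h * b j = D (h * b j) - h * D (b j) := by
      rw [hD]
      ring
    have h2 : D (h * b j) = ∑ i, (δ (M i j) • b i + M i j • D (b i)) := by
      rw [e1 j, map_sum]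
      refine Finset.sum_congr rfl fun i _ => ?_
      rw [hD, hδ, Algebra.smul_def, Algebra.smul_def]
      ring
    have h3 : h * D (b j) = ∑ l, C l j • (h * b l) := by
      rw [e2 j, Finset.mul_sum]
      refine Finset.sum_congr rfl fun l _ => ?_
      rw [Algebra.smul_def]
      ring
    rw [h1, h2, h3, map_sub, map_sum, map_sum, Finsupp.sub_apply, Finsupp.finsetSum_apply,
      Finsupp.finsetSum_apply, Finset.sum_congr rfl (fun i _ => by
        rw [map_add, map_smul, map_smul, Finsupp.add_apply, Finsupp.smul_apply,
          Finsupp.smul_apply, b.repr_self, smul_eq_mul, smul_eq_mul]), Finset.sum_add_distrib]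
    have h4 : ∑ i, δ (M i j) * (Finsupp.single i (1 : F)) j = δ (M j j) := by
      rw [Finset.sum_eq_single j]
      · rw [Finsupp.single_eq_same, mul_one]
      · intro i _ hi
        rw [Finsupp.single_eq_of_ne hi.symm, mul_zero]
      · intro h0
        exact absurd (Finset.mem_univ j) h0
    rw [h4, add_sub_assoc]
    congr 2
    exact Finset.sum_congr rfl fun l _ => by
      rw [map_smul, Finsupp.smul_apply, smul_eq_mul]
  rw [tr (D h), tr h, map_sum, map_sum, map_sum]
  have h5 : ∀ j, D (algebraMap F K (M j j)) = algebraMap F K (δ (M j j)) := fun j => hδ _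
  calc ∑ j, algebraMap F K (b.repr (D h * b j) j)
      = algebraMap F K (∑ j, δ (M j j) +
          (∑ j, ∑ i, M i j * C j i - ∑ j, ∑ l, C l j * M j l)) := by
        rw [← map_sum, Finset.sum_congr rfl fun j _ => key j, Finset.sum_add_distrib,
          Finset.sum_sub_distrib]
    _ = algebraMap F K (∑ j, δ (M j j)) := by
        congr 1
        rw [Finset.sum_comm (f := fun j l => C l j * M j l)]
        have h6 : ∑ j, ∑ i, M i j * C j i = ∑ y, ∑ x, C y x * M x y := by
          refine Finset.sum_congr rfl fun j _ => Finset.sum_congr rfl fun i _ => mul_comm _ _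
        rw [h6, sub_self, add_zero]
    _ = ∑ j, D (algebraMap F K (M j j)) := by
        rw [map_sum]
        exact Finset.sum_congr rfl fun j _ => (h5 j).symm

theorem alg_map_sub {K L : Type} [Field K] [Field L] (ι : K →+* L) (S : Subring K) (T : Subring L)
    (h : ∀ a ∈ S, ι a ∈ T) {z : K} (hz : IsAlgebraic S z) : IsAlgebraic T (ι z) := by
  obtain ⟨p, hp, hz⟩ := hz
  let φ : S →+* T := (ι.comp S.subtype).codRestrict T (fun a => h a.1 a.2)
  have hφ : Function.Injective φ := fun a b hab => Subtype.ext (ι.injective (congrArg Subtype.val hab))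
  refine ⟨p.map φ, (Polynomial.map_ne_zero_iff hφ).2 hp, ?_⟩
  rw [Polynomial.aeval_def, Polynomial.eval₂_map]
  have h1 : (algebraMap T L).comp φ = ι.comp (algebraMap S K) := rfl
  rw [h1, ← Polynomial.hom_eval₂, ← Polynomial.aeval_def, hz, map_zero]

/-- An element of a simple extension which lies in a field over which the degree does not drop. -/
theorem mem_of_degree {k L : Type} [Field k] [Field L] [Algebra k L]
    (F F1 : IntermediateField k L) (hle : F ≤ F1) (w : L) (hw : IsIntegral F w)
    (hn : (minpoly F w).natDegree ≤ (minpoly F1 w).natDegree) (v : L)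
    (hv : v ∈ IntermediateField.adjoin F {w}) (hv1 : v ∈ F1) : v ∈ F := by
  have h1 : v ∈ Algebra.adjoin F {w} := by
    have h2 : (IntermediateField.adjoin F {w}).toSubalgebra = Algebra.adjoin F {w} :=
      IntermediateField.adjoin_simple_toSubalgebra_of_isAlgebraic hw.isAlgebraic
    rw [← h2]
    exact hv
  rw [Algebra.adjoin_singleton_eq_range_aeval] at h1
  obtain ⟨p, hp⟩ := h1
  have hm := minpoly.monic hw
  set g := p %ₘ minpoly F w with hg
  have hgv : Polynomial.aeval w g = v := by
    rw [hg, Polynomial.aeval_modByMonic_eq_self_of_root (minpoly.aeval F w)]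
    exact hp
  have hdeg : g.degree < (minpoly F w).degree := Polynomial.degree_modByMonic_lt _ hm
  let θ : F →+* F1 := (IntermediateField.inclusion hle : F →+* F1)
  set g1 : Polynomial F1 := g.map θ - Polynomial.C ⟨v, hv1⟩ with hg1
  have hg1v : Polynomial.aeval w g1 = 0 := by
    rw [hg1, map_sub, Polynomial.aeval_C, Polynomial.aeval_def, Polynomial.eval₂_map]
    have h3 : (algebraMap F1 L).comp θ = algebraMap F L := rfl
    rw [h3, ← Polynomial.aeval_def, hgv]
    exact sub_self v
  have hw1 : IsIntegral F1 w := by
    refine ⟨(minpoly F w).map θ, hm.map θ, ?_⟩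
    rw [Polynomial.eval₂_map]
    exact minpoly.aeval F w
  have hpos : 0 < (minpoly F w).natDegree := minpoly.natDegree_pos hw
  have hz : g1 = 0 := by
    by_contra hne
    have h3 := minpoly.degree_le_of_ne_zero F1 w hne hg1v
    have h4 : g1.degree < (minpoly F w).degree := by
      refine (Polynomial.degree_sub_le _ _).trans_lt (max_lt ?_ ?_)
      · exact (Polynomial.degree_map_le).trans_lt hdeg
      · refine Polynomial.degree_C_le.trans_lt ?_
        rw [Polynomial.degree_eq_natDegree hm.ne_zero]
        exact_mod_cast hpos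
    rw [Polynomial.degree_eq_natDegree hm.ne_zero] at h4
    rw [Polynomial.degree_eq_natDegree (minpoly.ne_zero hw1)] at h3
    have h5 := h3.trans_lt h4
    have h6 : (minpoly F1 w).natDegree < (minpoly F w).natDegree := by exact_mod_cast h5
    omega
  have h3 := congrArg (fun q => Polynomial.coeff q 0) hz
  simp only [hg1, Polynomial.coeff_sub, Polynomial.coeff_map, Polynomial.coeff_C_zero,
    Polynomial.coeff_zero] at h3
  have h4 : ((θ (g.coeff 0) : F1) : L) = v := by
    have := sub_eq_zero.1 h3
    rw [this]
  rw [← h4]
  exact (g.coeff 0).2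

end Pool.Agent.R392.NW
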