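import Pool.Agent.R392.NW.Stp
import Pool.Agent.R392.NW.Trd
import Pool.Agent.W602.GT.Der

/-!
Meromorphic functions which are algebraic over the field generated by independent exponentials
of entire functions are rational in roots of these exponentials.
-/

set_option autoImplicit false
set_option linter.unusedSectionVars false

open Pool.Agent.Y192.OG

namespace Pool.Agent.R392.NW

section abs

variable {L : Type} [Field L] [Algebra ℂ L]

theorem alg_le (F F1 : IntermediateField ℂ L) (h : F ≤ F1) (y : L) (hy : IsAlgebraic F y) :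
    IsAlgebraic F1 y :=
  alg_sub F.toSubalgebra.toSubring F1.toSubalgebra.toSubring h y hy

theorem drop (E : ℕ → IntermediateField ℂ L)
    (hE : ∀ m m', 1 ≤ m → 1 ≤ m' → E m ≤ E (m * m')) (y : L) (hy : IsAlgebraic (E 1) y) :
    ∃ m0, 1 ≤ m0 ∧ IsIntegral (E m0) y ∧ ∀ m, 1 ≤ m →
      ∀ v ∈ IntermediateField.adjoin (E m0) {y}, v ∈ E (m0 * m) → v ∈ E m0 := by
  classical
  have hex : ∃ d, ∃ m, 1 ≤ m ∧ (minpoly (E m) y).natDegree = d := ⟨_, 1, le_rfl, rfl⟩
  obtain ⟨m0, hm0, hd⟩ := Nat.find_spec hex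
  have hint : ∀ m, 1 ≤ m → IsIntegral (E m) y := by
    intro m hm
    have h1 := hE 1 m le_rfl hm
    rw [one_mul] at h1
    exact (alg_le _ _ h1 y hy).isIntegral
  refine ⟨m0, hm0, hint m0 hm0, fun m hm v hv hv1 => ?_⟩
  refine mem_of_degree (E m0) (E (m0 * m)) (hE m0 m hm0 hm) y (hint m0 hm0) ?_ v hv hv1
  rw [hd]
  exact Nat.find_min' hex ⟨m0 * m, Nat.mul_pos hm0 hm, rfl⟩

theorem alg_trans (F E1 : IntermediateField ℂ L) (S : Set L)
    (hE : E1 = IntermediateField.adjoin ℂ S) (hS : ∀ a ∈ S, IsAlgebraic F a) (y : L)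
    (hy : IsAlgebraic E1 y) : IsAlgebraic F y := by
  have h1 : E1 ≤ (algebraicClosure F L).restrictScalars ℂ := by
    rw [hE, IntermediateField.adjoin_le_iff]
    intro a ha
    exact mem_algebraicClosure_iff.2 (hS a ha)
  have h2 : IsAlgebraic (algebraicClosure F L) y :=
    alg_sub E1.toSubalgebra.toSubring (algebraicClosure F L).toSubalgebra.toSubring h1 y hy
  exact h2.restrictScalars F

theorem const_bot (F : IntermediateField ℂ L) (hF : F = ⊥) (y : L) (hy : IsAlgebraic F y) :
    y ∈ F := by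
  have h1 : IsAlgebraic ℂ y := by
    have h2 : Algebra.IsAlgebraic ℂ F := by
      rw [hF]
      infer_instance
    exact hy.restrictScalars ℂ
  obtain ⟨c, hc⟩ := Pool.Agent.W602.GT.const_of_algebraic h1
  rw [hc]
  exact F.algebraMap_mem c

end abs

theorem fin_step {N : ℕ} (hN : 0 < N) (IH : ∀ s < N, Clm s) (u : Fin N → Hol)
    (hind : AlgebraicIndependent ℂ (fun i => ex (u i))) (F : IntermediateField ℂ Mer)
    (hF : F = IntermediateField.adjoin ℂ (Set.range fun i => ex (u i))) (hFG : F.FG)
    (y : Mer) (hy : IsIntegral F y)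
    (hdrop : ∀ m, 1 ≤ m → ∀ v ∈ IntermediateField.adjoin F {y}, v ∈ EF (sc m u) → v ∈ F)
    (hyF : y ∉ F) : False := by
  obtain ⟨K, i1, i2, i3, i4, i5, i6, ι, hι, ⟨t, ht⟩, hv⟩ := exists_K F hFG y hy
  exact step hN IH u hind F hF K ι hι (fun m hm v hvm => hdrop m hm (ι v) (hv v) hvm) t
    (by rw [ht]; exact hyF)

theorem clm_pos {N : ℕ} (hN : 0 < N) (IH : ∀ s < N, Clm s) : Clm N := by
  intro u hind y hy
  by_contra hcon
  push Not at hcon
  obtain ⟨m0, hm0, hint, hdrop⟩ := drop (fun m => EF (sc m u)) (fun m m' hm hm' => by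
    have h1 := EF_le m' hm' (sc m u)
    rw [sc_sc] at h1
    exact h1) y (by
      have h1 : IsAlgebraic (EF (sc 1 u)) y := by
        rw [sc_one]
        exact hy
      exact h1)
  refine fin_step hN IH (sc m0 u) (ind_sc u hind m0 hm0) (EF (sc m0 u)) rfl
    (IntermediateField.fg_adjoin_of_finite (Set.finite_range _)) y hint
    (fun m hm v hv hv1 => hdrop m hm v hv ?_) (hcon m0 hm0)
  rw [sc_sc] at hv1
  exact hv1

theorem clm_zero : Clm 0 := by
  intro u _ y hy
  refine ⟨1, le_rfl, ?_⟩
  rw [sc_one]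
  refine const_bot (EF u) ?_ y hy
  unfold EF
  rw [Set.range_eq_empty, IntermediateField.adjoin_empty]

/-- Meromorphic functions which are algebraic over the field generated by independent
exponentials of entire functions are rational in roots of these exponentials. -/
theorem clm (N : ℕ) : Clm N := by
  induction N using Nat.strong_induction_on with
  | _ N IH =>
    rcases Nat.eq_zero_or_pos N with h | h
    · rw [h]
      exact clm_zero
    · exact clm_pos h IH

end Pool.Agent.R392.NW
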