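import Pool.Agent.Y192.OG.D8

/-!
The data attached to functions with bounded poles (variants of the theorems of library
Pool.Agent.Y192.OG, where the functions are given by logarithmic forms).
-/

set_option autoImplicit false
set_option linter.unusedSectionVars false

open FF MvPolynomial Pool.Agent.W603.LV Pool.Agent.W602.GT Pool.Agent.TH122.AB Pool.Agent.Y192.OG

namespace Pool.Agent.R392.NW

variable {N : ℕ} {K : Type} [Field K] [Algebra ℂ K]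
  {x : Fin N → Kˣ} {Γ : Submodule ℤ (Fin N → ℤ)} {b : ℕ} {bt : Fin b → Fin N → ℤ}
  {co : (Fin N → ℤ) →+ (Fin b → ℤ)} {F : IntermediateField (F0 x Γ) K} {X : Fin b → F}

theorem data2 (h : Cx x Γ bt co F X) (h_lift : St_lift)
    (h_coef : St_coef) (h_den : St_den) (h_val : St_val) (h_sqp : St_sqp)
    (d : ℕ) (gQ : AddMonoidAlgebra ℂ (Fin N → ℤ)) (hgQ : ep x gQ ≠ 0)
    (κ : ℕ) (ψ : Fin (d + 1) → K) (f0 : MvPolynomial (Fin b) (F0 x Γ))
    (hf0 : f0 ≠ 0) (hsq : Squarefree f0) (hX : ∀ i, ¬ (MvPolynomial.X i ∣ f0))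
    (hr1 : ∀ f1 : MvPolynomial (Fin b) (F0 x Γ), f0 ∣ f1 →
        ∀ p : MvPolynomial (Fin b) (F0 x Γ), Irreducible p → (∀ i, ¬ (MvPolynomial.X i ∣ p)) →
        ∀ q : Place (F0 x Γ) F, IsAdic X p q → ∀ (P : Place (F0 x Γ) K) (e : ℕ), Over P q e →
          ∀ i, P.Reg (ψ i * algebraMap F K (aeval X f1) ^ κ))
    (hr2 : ∀ p : MvPolynomial (Fin b) (F0 x Γ), Irreducible p → (∀ i, ¬ (MvPolynomial.X i ∣ p)) →
        ∀ q : Place (F0 x Γ) F, IsAdic X p q → ∀ (P : Place (F0 x Γ) K) (e : ℕ), Over P q e →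
          e = 1 → P.ord (ep x gQ) ≠ 1 → ∀ i, P.Reg (ψ i))
    (hr3 : ∀ w : Fin b → ℤ, Prim w → ∀ q : Place (F0 x Γ) F, IsTor X w q →
        ∀ (P : Place (F0 x Γ) K) (e : ℕ), Over P q e → ∀ i, P.Reg (ψ i)) :
    ∃ (f s : MvPolynomial (Fin b) (F0 x Γ))
      (A1 A2 g : AddMonoidAlgebra ℂ (Fin N → ℤ)) (M1 : ℕ) (Z : Finset K),
      f * s ≠ 0 ∧ Squarefree (f * s) ∧
      ep x A1 = aeval (fun j => (xm x (bt j) : K)) f ∧
      ep x A2 = aeval (fun j => (xm x (bt j) : K)) s ∧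
      (∀ m ∈ g.coeff.support, m ∈ Γ) ∧ ep x g ≠ 0 ∧
      (∀ i, ∃ D M c a A, Eqn x Γ bt co F X g (f * s) κ (ψ i) D M c a A) ∧
      (∀ i, (ep x : AddMonoidAlgebra ℂ (Fin N → ℤ) →+* K).IsIntegralElem
        (ep x A1 ^ κ * ep x g * ψ i)) ∧
      (∀ z ∈ Z, (ep x : AddMonoidAlgebra ℂ (Fin N → ℤ) →+* K).IsIntegralElem
        (ep x g * ep x A2 ^ M1 * z)) ∧
      ∀ (R : Subring K) (v : R → WithTop ℤ), IsV v → ∀ (W fr Gr g1 : R) (h : Fin (d + 1) → R),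
        (∀ z ∈ Z, (W : K) * z ∈ R) → (fr : K) = ep x A1 → (Gr : K) = ep x gQ →
        (∀ i, (h i : K) = (fr : K) ^ κ * (g1 : K) * ψ i) → v W = 0 → v fr = 1 → v Gr ≠ 1 →
        ∀ i, ((κ : ℤ) : WithTop ℤ) ≤ v (h i) := by
  classical
  haveI := h.fin
  haveI : CharZero (F0 x Γ) := charZero_of_injective_algebraMap (algebraMap ℂ (F0 x Γ)).injective
  obtain ⟨f, A1, hff0, hf0f, hA1⟩ := h.scale h_lift f0
  have hf : f ≠ 0 := by
    rintro rfl
    exact hf0 (zero_dvd_iff.mp hff0)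
  have hfsq : Squarefree f := hsq.squarefree_of_dvd hff0
  have hfX : ∀ p : MvPolynomial (Fin b) (F0 x Γ), Irreducible p → p ∣ f →
      ∀ i, ¬ (MvPolynomial.X i ∣ p) := fun p _ hpf i hi => hX i ((hi.trans hpf).trans hff0)
  -- the auxiliary functions
  obtain ⟨Z, hZ1, hZ2⟩ := h_val (F0 x Γ) F K b X h.gens f hf hfsq (ep x gQ) hgQ
    (fun p hp hpf q hq P e hP => h.reg_ep (Cx.over0 hp (hfX p hp hpf) hq hP) gQ)
    κ (d + 1) ψ (fun p hp hpf q hq P e hP he hG => hr2 p hp (hfX p hp hpf) q hq P e hP he hG)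
  have hden := fun z (hz : z ∈ Z) => h_den (F0 x Γ) F K b X h.gens f hf z (hZ1 z hz)
  choose! sz hsz0 hszf Dz az hz using hden
  set s1 : MvPolynomial (Fin b) (F0 x Γ) := ∏ z ∈ Z, sz z with hs1
  have hs10 : s1 ≠ 0 := Finset.prod_ne_zero_iff.2 fun z hz => hsz0 z hz
  have hs1f : IsRelPrime s1 f := IsRelPrime.prod_left fun z hz => hszf z hz
  obtain ⟨s0, M1, hs00, hs0sq, -, hs0s1, hs1s0⟩ := h_sqp (F0 x Γ) b s1 hs10
  obtain ⟨s, A2, hss0, hs0s, hA2⟩ := h.scale h_lift s0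
  have hs : s ≠ 0 := by
    rintro rfl
    exact hs00 (zero_dvd_iff.mp hss0)
  have hssq : Squarefree s := hs0sq.squarefree_of_dvd hss0
  have hfs : IsRelPrime f s := (hs1f.of_dvd_left (hss0.trans hs0s1)).symm
  have hfssq : Squarefree (f * s) := squarefree_mul_iff.2 ⟨hfs, hfsq, hssq⟩
  have hfs0 : f * s ≠ 0 := mul_ne_zero hf hs
  -- the equations
  have hc1 := fun i => h_coef (F0 x Γ) F K b X h.gens (f * s) κ (ψ i) hfs0
    (fun p hp hpX q hq P e hP => hr1 (f * s) (hf0f.trans (Dvd.intro _ rfl)) p hp hpX q hq P e hP i)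
    (fun w hw q hq P e hP => hr3 w hw q hq P e hP i)
  have hc2 := fun i => h_coef (F0 x Γ) F K b X h.gens f κ (ψ i) hf
    (fun p hp hpX q hq P e hP => hr1 f hf0f p hp hpX q hq P e hP i)
    (fun w hw q hq P e hP => hr3 w hw q hq P e hP i)
  choose D1 N1 c1 a1 h11 h12 using hc1
  choose D2 N2 c2 a2 h21 h22 using hc2
  -- the denominators
  have hu : ∀ z ∈ Z, ∃ u, (s * ∏ i, MvPolynomial.X i) ^ M1 = sz z * u := by
    intro z hz
    have e1 : sz z ∣ s1 := Finset.dvd_prod_of_mem _ hz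
    have e2 : (s0 * ∏ i, MvPolynomial.X i) ^ M1 ∣ (s * ∏ i, MvPolynomial.X i) ^ M1 :=
      pow_dvd_pow_of_dvd (mul_dvd_mul_right hs0s _) M1
    exact (e1.trans hs1s0).trans e2
  choose! uz huz using hu
  -- common denominators
  set S : Finset (MvPolynomial (Fin b) (F0 x Γ)) :=
    (Finset.univ.biUnion fun i => (Finset.Icc 1 (D1 i)).image (a1 i)) ∪
    ((Finset.univ.biUnion fun i => (Finset.Icc 1 (D2 i)).image (a2 i)) ∪
      Z.biUnion fun z => (Finset.Icc 1 (Dz z)).image fun l => uz z ^ l * az z l) with hS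
  obtain ⟨g, hg1, hg2, hg3⟩ := h_lift N K x Γ b bt co h.splt S
  have hS1 : ∀ i, ∀ l ∈ Finset.Icc 1 (D1 i), a1 i l ∈ S := fun i l hl =>
    Finset.mem_union_left _ (Finset.mem_biUnion.2 ⟨i, Finset.mem_univ i,
      Finset.mem_image_of_mem _ hl⟩)
  have hS2 : ∀ i, ∀ l ∈ Finset.Icc 1 (D2 i), a2 i l ∈ S := fun i l hl =>
    Finset.mem_union_right _ (Finset.mem_union_left _ (Finset.mem_biUnion.2 ⟨i, Finset.mem_univ i,
      Finset.mem_image_of_mem _ hl⟩))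
  have hS3 : ∀ z ∈ Z, ∀ l ∈ Finset.Icc 1 (Dz z), uz z ^ l * az z l ∈ S := fun z hz l hl =>
    Finset.mem_union_right _ (Finset.mem_union_right _ (Finset.mem_biUnion.2 ⟨z, hz,
      Finset.mem_image_of_mem (fun l => uz z ^ l * az z l) hl⟩))
  choose! Al hAl1 hAl2 using hg3
  refine ⟨f, s, A1, A2, g, M1, Z, hfs0, hfssq, hA1, hA2, hg1, hg2, ?_, ?_, ?_, ?_⟩
  · intro i
    refine ⟨D1 i, N1 i, c1 i, a1 i, fun l => Al (a1 i l), h11 i, fun l hl => (h12 i l hl).1,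
      fun l hl => (h12 i l hl).2, fun l hl => hAl1 _ (hS1 i l hl),
      fun l hl => hAl2 _ (hS1 i l hl)⟩
  · intro i
    rw [hA1]
    exact h.int7 (h21 i) (fun l hl => (h22 i l hl).1) (fun l hl => hAl1 _ (hS2 i l hl))
  · intro z hzZ
    rw [hA2]
    exact h.int8 (huz z hzZ) (hz z hzZ) (fun l hl => hAl1 _ (hS3 z hzZ l hl))
  · intro R v hv W fr Gr g1 hh e1 e2 e3 e4 e5 e6 e7
    exact hZ2 R v hv W fr Gr g1 hh e1 (by rw [e2, hA1, h.aev]) e3 e4 e5 e6 e7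

theorem alg2 (h : Cx x Γ bt co F X) (hom : ∀ g ∈ RingHom.ker (ep x), ∀ q, comp Γ q g ∈ RingHom.ker (ep x))
    (hleast : ∀ Γ' : Submodule ℤ (Fin N → ℤ), Sat Γ' →
        (∀ g ∈ RingHom.ker (ep x), ∀ q, comp Γ' q g ∈ RingHom.ker (ep x)) → Γ ≤ Γ')
    (h_lift : St_lift) (h_comp : St_comp)
    (h_gr : St_gr) (h_conv : St_conv) (h_coef : St_coef) (h_den : St_den)
    (h_val : St_val) (h_sqp : St_sqp)
    (d : ℕ) (gQ : AddMonoidAlgebra ℂ (Fin N → ℤ)) (hgQ : ep x gQ ≠ 0)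
    (κ : ℕ) (ψ : Fin (d + 1) → K) (f0 : MvPolynomial (Fin b) (F0 x Γ)) (hκ : 1 ≤ κ)
    (hψ : ∀ z : K, IsAlgebraic (IntermediateField.adjoin ℂ (Set.range ψ)) z)
    (hf0 : f0 ≠ 0) (hsq : Squarefree f0) (hX : ∀ i, ¬ (MvPolynomial.X i ∣ f0))
    (hr1 : ∀ f1 : MvPolynomial (Fin b) (F0 x Γ), f0 ∣ f1 →
        ∀ p : MvPolynomial (Fin b) (F0 x Γ), Irreducible p → (∀ i, ¬ (MvPolynomial.X i ∣ p)) →
        ∀ q : Place (F0 x Γ) F, IsAdic X p q → ∀ (P : Place (F0 x Γ) K) (e : ℕ), Over P q e →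
          ∀ i, P.Reg (ψ i * algebraMap F K (aeval X f1) ^ κ))
    (hr2 : ∀ p : MvPolynomial (Fin b) (F0 x Γ), Irreducible p → (∀ i, ¬ (MvPolynomial.X i ∣ p)) →
        ∀ q : Place (F0 x Γ) F, IsAdic X p q → ∀ (P : Place (F0 x Γ) K) (e : ℕ), Over P q e →
          e = 1 → P.ord (ep x gQ) ≠ 1 → ∀ i, P.Reg (ψ i))
    (hr3 : ∀ w : Fin b → ℤ, Prim w → ∀ q : Place (F0 x Γ) F, IsTor X w q →
        ∀ (P : Place (F0 x Γ) K) (e : ℕ), Over P q e → ∀ i, P.Reg (ψ i)) :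
    ∃ (R : Subalgebra ℂ K) (j : Lau N →ₐ[ℂ] R) (f : Lau N) (s : ℕ) (h : Fin s → R),
      R.FG ∧ (∀ g, (j g : K) = ep x g) ∧ (j : Lau N →+* R).IsIntegral ∧ j f ≠ 0 ∧
      GR (RingHom.ker j) f Γ ∧
      (∀ Γ' : Submodule ℤ (Fin N → ℤ), Sat Γ' →
        (∀ g ∈ RingHom.ker j, ∀ q, comp Γ' q g ∈ RingHom.ker j) → Γ ≤ Γ') ∧
      (∀ g ∈ RingHom.ker j, ∀ q, comp Γ q g ∈ RingHom.ker j) ∧
      (∀ i, ∃ (d : ℕ) (a : ℕ → Lau N),
        h i ^ d + ∑ l ∈ Finset.Icc 1 d, j (a l) * h i ^ (d - l) = 0 ∧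
        ∀ l ∈ Finset.Icc 1 d, ∀ m ∈ (a l).coeff.support, InPol (RingHom.ker j) f Γ (l * κ) m) ∧
      (∀ i : Fin N, IsAlgebraic (Algebra.adjoin ℂ (E.Gn K j f κ h Γ)) (x i : K)) ∧
      ∀ v : R → WithTop ℤ, IsV v → v (j f) = 1 → v (j gQ) ≠ 1 →
        ∀ i, ((κ : ℤ) : WithTop ℤ) ≤ v (h i) := by
  classical
  have hS : Splt Γ bt co := h.splt
  obtain ⟨f, s, A1, A2, g, M1, Z, hfs0, hfssq, hA1, hA2, hg1, hg0, he, hi1, hi2, hv⟩ :=
    data2 h h_lift h_coef h_den h_val h_sqp d gQ hgQ κ ψ f0 hf0 hsq hX hr1 hr2 hr3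
  obtain ⟨R, j, hR1, hR2, hR3, hR4⟩ := mkR x
    ((Finset.univ.image fun i => ep x A1 ^ κ * ep x g * ψ i) ∪
      Z.image fun z => ep x g * ep x A2 ^ M1 * z) (by
    intro z hz
    rcases Finset.mem_union.mp hz with hz | hz
    · obtain ⟨i, -, rfl⟩ := Finset.mem_image.mp hz
      exact hi1 i
    · obtain ⟨y, hy, rfl⟩ := Finset.mem_image.mp hz
      exact hi2 y hy)
  have hker : RingHom.ker j = RingHom.ker (ep x) := by
    ext g
    rw [RingHom.mem_ker, RingHom.mem_ker, ← hR3]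
    constructor
    · intro h
      rw [h]
      rfl
    · intro h
      exact Subtype.ext h
  set c : F0 x Γ := ⟨ep x g, ep_mem hg1⟩ with hc
  have hc0 : c ≠ 0 := fun h0 => hg0 (congrArg Subtype.val h0)
  -- the function
  set ft : Lau N := A1 * A2 * g with hft
  have hfte : ep x ft = (c : K) * aeval (fun j => (xm x (bt j) : K)) (f * s) := by
    rw [hft, map_mul, map_mul, hA1, hA2, map_mul]
    change _ = ep x g * _
    ring
  have hft0 : ep x ft ≠ 0 := by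
    rw [hfte, ← h.aev]
    refine mul_ne_zero hg0 ?_
    rw [Ne, map_eq_zero]
    exact h.gens.ne hfs0
  let hp : Fin (d + 1) → R := fun i => ⟨ep x A1 ^ κ * ep x g * ψ i,
    hR2 _ (Finset.mem_union_left _ (Finset.mem_image_of_mem _ (Finset.mem_univ i)))⟩
  let hh : Fin (d + 1) → R := fun i => (j A2 * j g) ^ κ * hp i
  have hhv : ∀ i, (hh i : K) = ep x ft ^ κ * ep x g * ψ i := by
    intro i
    change ((j A2 : K) * (j g : K)) ^ κ * (ep x A1 ^ κ * ep x g * ψ i) = _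
    rw [hR3, hR3, hft, map_mul, map_mul]
    ring
  refine ⟨R, j, ft, d + 1, hh, hR1, hR3, hR4, ?_, ?_, ?_, ?_, ?_, ?_, ?_⟩
  · intro h0
    apply hft0
    rw [← hR3, h0]
    rfl
  · rw [hker]
    exact h_gr N K x Γ b bt co hS hom ft c (f * s) hc0 hfs0 hfssq hfte
  · rw [hker]
    exact hleast
  · rw [hker]
    exact hom
  · intro i
    obtain ⟨D, M, cc, a, A, hE⟩ := he i
    refine ⟨D, fun l => La bt g (A l) ((κ + 1) * l - 1) M, ?_, ?_⟩
    · have h1 := h.eqL hE.eq hE.ce hE.li (r := κ + 1) (by omega)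
        (u := ep x ft ^ κ * ep x g) (by
          rw [hfte]
          change (ep x g * _) ^ κ * ep x g = _
          ring)
      apply Subtype.ext
      rw [AddMemClass.coe_add, SubmonoidClass.coe_pow, AddSubmonoidClass.coe_finsetSum, hhv]
      change _ = (0 : K)
      rw [← h1]
      congr 1
      refine Finset.sum_congr rfl fun l _ => ?_
      rw [MulMemClass.coe_mul, SubmonoidClass.coe_pow, hhv, hR3]
    · intro l hl m hm
      rw [hker]
      obtain ⟨c', hc', hw⟩ := La_supp hS hg1 (hE.su l hl) _ _ m hm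
      have hl1 := (Finset.mem_Icc.mp hl).1
      refine h.inpol h_conv h_comp hc0 hfs0 hfte (Nat.mul_pos hl1 hκ) fun w => ?_
      obtain ⟨t, ht1, ht2⟩ := hE.wt l hl w c' hc'
      refine ⟨t, ht1, ?_⟩
      rw [hw w, mul_comm l κ]
      exact ht2
  · intro i
    exact alg_coord hR3 hft0 hg1 hg0 hhv (hψ (x i : K))
  · intro v hv1 hv2 hv3 i
    have h1 : v (j A1) + v (j A2) + v (j g) = 1 := by
      rw [← hv1.mul, ← hv1.mul, ← map_mul, ← map_mul]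
      exact hv2
    have h2 : v (hh i) = κ • (v (j A2) + v (j g)) + v (hp i) := by
      rw [hv1.mul, Pool.Agent.Y32.OG.pow_v hv1, hv1.mul]
    rw [h2]
    rcases three_one (hv1.nonneg _) (hv1.nonneg _) (hv1.nonneg _) h1 with ⟨e1, e2, e3⟩ | e
    · rw [e2, e3, add_zero, smul_zero, zero_add]
      refine hv R.toSubring (fun r => v ⟨r.1, r.2⟩) ?_ (⟨(j g * j A2 ^ M1 : R), Subtype.property _⟩)
        ⟨(j A1 : K), (j A1).2⟩ ⟨(j gQ : K), (j gQ).2⟩ ⟨(j g : K), (j g).2⟩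
        (fun i => ⟨(hp i : K), (hp i).2⟩) ?_ (hR3 A1) (hR3 gQ) ?_ ?_ ?_ ?_ i
      · exact ⟨hv1.one, fun a b => hv1.mul ⟨a.1, a.2⟩ ⟨b.1, b.2⟩,
          fun a b => hv1.add ⟨a.1, a.2⟩ ⟨b.1, b.2⟩, fun a => hv1.nonneg ⟨a.1, a.2⟩⟩
      · intro z hz
        have := hR2 _ (Finset.mem_union_right _ (Finset.mem_image_of_mem
          (fun z => ep x g * ep x A2 ^ M1 * z) hz))
        change ((j g : K) * (j A2 : K) ^ M1) * z ∈ R
        rw [hR3, hR3]
        exact this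
      · intro i
        change ep x A1 ^ κ * ep x g * ψ i = (j A1 : K) ^ κ * (j g : K) * ψ i
        rw [hR3, hR3]
      · change v (j g * j A2 ^ M1) = 0
        rw [hv1.mul, Pool.Agent.Y32.OG.pow_v hv1, e2, e3, smul_zero, add_zero]
      · exact e1
      · exact hv3
    · rw [e]
      have h3 : ∀ κ : ℕ, κ • (1 : WithTop ℤ) = ((κ : ℤ) : WithTop ℤ) := by
        intro κ
        induction κ with
        | zero =>
          rw [zero_smul]
          rfl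
        | succ κ ih =>
          rw [succ_nsmul, ih]
          rfl
      rw [h3]
      exact le_add_of_nonneg_right (hv1.nonneg _)

end Pool.Agent.R392.NW
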