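import Pool.Agent.R392.NW.Psi
import Pool.Agent.Y458.OG.Icl

/-!
The ring of entire functions, its field of fractions, and entire curves in finite covers of tori.
-/

set_option autoImplicit false
set_option linter.unusedSectionVars false

open Filter Topology Pool.Agent.Y192.OG Pool.Agent.W603.BP

namespace Pool.Agent.R392.NW

/-- the ring of entire functions -/
def Hol : Subalgebra ℂ (ℂ → ℂ) where
  carrier := {f | Differentiable ℂ f}
  mul_mem' := fun hf hg => hf.mul hg
  add_mem' := fun hf hg => hf.add hg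
  algebraMap_mem' := fun c => differentiable_const c

theorem diffH (f : Hol) : Differentiable ℂ (f : ℂ → ℂ) := f.2

theorem anH (f : Hol) (s : Set ℂ) : AnalyticOnNhd ℂ (f : ℂ → ℂ) s := fun z _ =>
  f.2.analyticAt z

theorem eq_of_open {f g : Hol} {s : Set ℂ} (hs : IsOpen s) (hne : s.Nonempty)
    (h : ∀ z ∈ s, (f : ℂ → ℂ) z = (g : ℂ → ℂ) z) : f = g := by
  obtain ⟨z0, hz0⟩ := hne
  apply Subtype.ext
  refine AnalyticOnNhd.eq_of_eventuallyEq (anH f Set.univ) (anH g Set.univ) (z₀ := z0) ?_
  filter_upwards [hs.mem_nhds hz0] with z hz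
  exact h z hz

instance : IsDomain Hol := by
  have : NoZeroDivisors Hol := ⟨fun {f g} h => by
    have h1 : ∀ z ∈ Set.univ, (f : ℂ → ℂ) z * (g : ℂ → ℂ) z = 0 := fun z _ =>
      congrFun (congrArg Subtype.val h) z
    rcases AnalyticOnNhd.eq_zero_or_eq_zero_of_mul_eq_zero (anH f Set.univ) (anH g Set.univ) h1
      isPreconnected_univ with h2 | h2
    · exact Or.inl (Subtype.ext (funext fun z => h2 z (Set.mem_univ z)))
    · exact Or.inr (Subtype.ext (funext fun z => h2 z (Set.mem_univ z)))⟩
  have : Nontrivial Hol := ⟨⟨0, 1, fun h => by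
    have := congrFun (congrArg Subtype.val h) 0
    exact zero_ne_one this⟩⟩
  exact NoZeroDivisors.to_isDomain _

/-- the field of meromorphic functions -/
abbrev Mer : Type := FractionRing Hol

/-- the exponential of an entire function -/
noncomputable def exH (u : Hol) : Hol := ⟨fun z => Complex.exp ((u : ℂ → ℂ) z), u.2.cexp⟩

theorem exH_zero : exH 0 = 1 := by
  apply Subtype.ext
  funext z
  exact Complex.exp_zero

theorem exH_add (u v : Hol) : exH (u + v) = exH u * exH v := by
  apply Subtype.ext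
  funext z
  exact Complex.exp_add _ _

/-- the exponential of an entire function as a unit -/
noncomputable def exU (u : Hol) : Holˣ where
  val := exH u
  inv := exH (-u)
  val_inv := by rw [← exH_add, add_neg_cancel, exH_zero]
  inv_val := by rw [← exH_add, neg_add_cancel, exH_zero]

/-- the exponential of an entire function as a meromorphic function -/
noncomputable def ex (u : Hol) : Mer := algebraMap Hol Mer (exH u)

theorem ex_zero : ex 0 = 1 := by
  unfold ex
  rw [exH_zero, map_one]

theorem ex_add (u v : Hol) : ex (u + v) = ex u * ex v := by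
  unfold ex
  rw [exH_add, map_mul]

theorem ex_ne (u : Hol) : ex u ≠ 0 := by
  intro h
  have h1 := ex_add u (-u)
  rw [add_neg_cancel, ex_zero, h, zero_mul] at h1
  exact one_ne_zero h1

/-- an exponential which is meromorphic at infinity is constant -/
theorem const_of_mero (u : Hol) (Q : ℂ → ℂ) (hQ : MeromorphicAt (fun w => Q w⁻¹) 0) (R0 : ℝ)
    (h : ∀ z : ℂ, R0 < ‖z‖ → (exH u : ℂ → ℂ) z = Q z) : ∃ c : ℂ, exH u = algebraMap ℂ Hol c := by
  have hev : ∀ᶠ z : ℂ in cocompact ℂ, (fun w => Q w⁻¹) z⁻¹ = (exH u : ℂ → ℂ) z := by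
    rw [← Metric.cobounded_eq_cocompact]
    have h1 : ∀ᶠ z : ℂ in Bornology.cobounded ℂ, R0 < ‖z‖ :=
      (tendsto_norm_cobounded_atTop).eventually (eventually_gt_atTop R0)
    filter_upwards [h1] with z hz
    rw [inv_inv, h z hz]
  have hinv : Tendsto (fun z : ℂ => z⁻¹) (cocompact ℂ) (𝓝[≠] 0) := by
    rw [← Metric.cobounded_eq_cocompact]
    exact tendsto_inv₀_cobounded'
  rcases lt_or_ge (meromorphicOrderAt (fun w => Q w⁻¹) 0) 0 with ho | ho
  · have h1 := (tendsto_cobounded_of_meromorphicOrderAt_neg ho).comp hinv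
    have h2 : Tendsto (exH u : ℂ → ℂ) (cocompact ℂ) (Bornology.cobounded ℂ) :=
      h1.congr' hev
    have h3 : Tendsto (exH (-u) : ℂ → ℂ) (cocompact ℂ) (𝓝 0) := by
      have h4 := tendsto_inv₀_cobounded.comp h2
      refine h4.congr fun z => ?_
      exact (Complex.exp_neg _).symm
    have h5 := Differentiable.eq_const_of_tendsto_cocompact (exH (-u)).2 h3
    have h6 := congrFun h5 0
    exact absurd h6 (Complex.exp_ne_zero _)
  · obtain ⟨c, hc⟩ := tendsto_nhds_of_meromorphicOrderAt_nonneg hQ ho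
    have h1 := hc.comp hinv
    have h2 : Tendsto (exH u : ℂ → ℂ) (cocompact ℂ) (𝓝 c) := h1.congr' hev
    have h5 := Differentiable.eq_const_of_tendsto_cocompact (exH u).2 h2
    exact ⟨c, Subtype.ext h5⟩

section curve

variable {N : ℕ}

/-- the curve given by exponentials -/
noncomputable def crv (u : Fin N → Hol) : Curve N where
  r0 := 1
  X := Fin.cons (fun _ => 1) (fun i => (exH (u i) : ℂ → ℂ))
  hr0 := le_rfl
  an := fun i => by
    refine Fin.cases ?_ (fun i => ?_) i
    · exact analyticOnNhd_const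
    · exact anH (exH (u i)) _
  ncz := fun z _ => ⟨0, one_ne_zero⟩
  nz := fun i => by
    refine ⟨2, by change (1 : ℝ) < ‖(2 : ℂ)‖; norm_num, ?_⟩
    refine Fin.cases ?_ (fun i => ?_) i
    · exact one_ne_zero
    · exact Complex.exp_ne_zero _

theorem crv_ne (u : Fin N → Hol) (i : Fin (N + 1)) (z : ℂ) : (crv u).X i z ≠ 0 := by
  refine Fin.cases ?_ (fun i => ?_) i
  · exact one_ne_zero
  · exact Complex.exp_ne_zero _

/-- restriction of entire functions -/
noncomputable def rho (c : Curve N) : Hol →ₐ[ℂ] c.Mr where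
  toFun f := c.mr (f : ℂ → ℂ) (fun z hz => (anH f _ z hz).meromorphicAt) (anH f _)
  map_one' := rfl
  map_mul' _ _ := rfl
  map_zero' := rfl
  map_add' _ _ := rfl
  commutes' _ := rfl

theorem rho_val (c : Curve N) (f : Hol) {z : ℂ} (hz : z ∈ c.U) :
    c.val (rho c f) z = (f : ℂ → ℂ) z :=
  c.val_mr (f : ℂ → ℂ) (fun z hz => (anH f _ z hz).meromorphicAt) (anH f _) hz

theorem rho_inj (u : Fin N → Hol) : Function.Injective (rho (crv u)) := by
  rw [injective_iff_map_eq_zero]
  intro f hf
  refine eq_of_open (s := Ext 1) (Ext_open 1) ⟨2, by change (1 : ℝ) < ‖(2 : ℂ)‖; norm_num⟩ ?_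
  intro z hz
  have hU : z ∈ (crv u).U := ⟨hz, fun i => crv_ne u i z⟩
  rw [← rho_val (crv u) f hU, hf]
  unfold Curve.val
  rw [(crv u).ext_of_mem _ hU]
  rfl

/-- the lift of a curve to the ring `R` -/
theorem exists_eta' {K : Type} [Field K] [Algebra ℂ K] {x : Fin N → Kˣ}
    {R : Subalgebra ℂ K} {j : Lau N →ₐ[ℂ] R} (hj : ∀ g, (j g : K) = ep x g)
    (hint : (j : Lau N →+* R).IsIntegral) (c : Curve N) [IsDomain c.Mr]
    (φ : K →ₐ[ℂ] FractionRing c.Mr)
    (key : ∀ g, φ (ep x g) = algebraMap c.Mr (FractionRing c.Mr) (c.ev g)) :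
    ∃ η : R →ₐ[ℂ] c.Mr, (∀ g, η (j g) = c.ev g) ∧ ∀ r : R, algebraMap c.Mr (FractionRing c.Mr)
      (η r) = φ r := by
  classical
  let M := FractionRing c.Mr
  have hinj : Function.Injective (algebraMap c.Mr M) := IsFractionRing.injective c.Mr M
  have hrange : ∀ r : R, ∃ z : c.Mr, algebraMap c.Mr M z = φ (r : K) := by
    intro r
    apply Pool.Agent.Y458.OG.t_icl N c
    obtain ⟨p, hp1, hp2⟩ := hint r
    refine ⟨p.map (c.ev : Lau N →+* c.Mr), hp1.map _, ?_⟩
    rw [Polynomial.eval₂_map]
    have h6 : (algebraMap c.Mr M).comp (c.ev : Lau N →+* c.Mr)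
        = ((φ.comp R.val : R →ₐ[ℂ] M) : R →+* M).comp (j : Lau N →+* R) := by
      refine RingHom.ext fun g => ?_
      change algebraMap c.Mr M (c.ev g) = φ (j g : K)
      rw [hj, key]
    rw [h6]
    have h7 := congrArg ((φ.comp R.val : R →ₐ[ℂ] M) : R →+* M) hp2
    rw [Polynomial.hom_eval₂, map_zero] at h7
    exact h7
  choose η0 hη0 using hrange
  refine ⟨{ toFun := η0
            map_one' := hinj (by rw [hη0, map_one, OneMemClass.coe_one, map_one])
            map_mul' := fun r s => hinj (by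
              rw [map_mul, hη0, hη0, hη0, MulMemClass.coe_mul, map_mul])
            map_zero' := hinj (by rw [hη0, map_zero, ZeroMemClass.coe_zero, map_zero])
            map_add' := fun r s => hinj (by
              rw [map_add, hη0, hη0, hη0, AddMemClass.coe_add, map_add])
            commutes' := fun r => hinj (by
              rw [hη0, ← IsScalarTower.algebraMap_apply]
              exact φ.commutes r) },
    fun g => ?_, fun r => hη0 r⟩
  apply hinj
  change algebraMap c.Mr M (η0 (j g)) = _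
  rw [hη0, hj, key]

theorem single_eq {S : Type} [CommRing S] [Algebra ℂ S] (φ ψ : Lau N →ₐ[ℂ] S)
    (h : ∀ i, φ (AddMonoidAlgebra.single (Pi.single i 1) 1) =
      ψ (AddMonoidAlgebra.single (Pi.single i 1) 1)) : φ = ψ := by
  classical
  -- the two homomorphisms on units
  let υ : Multiplicative (Fin N → ℤ) →* (Lau N)ˣ :=
    { toFun := fun m => ⟨AddMonoidAlgebra.single m.toAdd 1, AddMonoidAlgebra.single (-m.toAdd) 1,
        by rw [AddMonoidAlgebra.single_mul_single, add_neg_cancel, one_mul]; rfl,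
        by rw [AddMonoidAlgebra.single_mul_single, neg_add_cancel, one_mul]; rfl⟩
      map_one' := rfl
      map_mul' := fun m m' => by
        apply Units.ext
        change AddMonoidAlgebra.single (m.toAdd + m'.toAdd) 1 =
          AddMonoidAlgebra.single m.toAdd 1 * AddMonoidAlgebra.single m'.toAdd 1
        rw [AddMonoidAlgebra.single_mul_single, one_mul] }
  let f1 : Multiplicative (Fin N → ℤ) →* Sˣ := (Units.map (φ : Lau N →* S)).comp υ
  let f2 : Multiplicative (Fin N → ℤ) →* Sˣ := (Units.map (ψ : Lau N →* S)).comp υ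
  have h1 : ∀ m : Fin N → ℤ, f1 (Multiplicative.ofAdd m) = f2 (Multiplicative.ofAdd m) := by
    intro m
    have hm : m = ∑ i, m i • Pi.single i (1 : ℤ) := by
      funext k
      rw [Finset.sum_apply, Finset.sum_eq_single k]
      · simp
      · intro i _ hi
        rw [Pi.smul_apply, Pi.single_eq_of_ne hi.symm, smul_zero]
      · intro h0
        exact absurd (Finset.mem_univ k) h0
    rw [hm, ofAdd_sum, map_prod, map_prod]
    refine Finset.prod_congr rfl fun i _ => ?_
    rw [ofAdd_zsmul, map_zpow, map_zpow]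
    congr 1
    apply Units.ext
    exact h i
  apply AddMonoidAlgebra.algHom_ext
  · intro m
    have := congrArg Units.val (h1 m)
    exact this
  · exact Subsingleton.elim _ _

/-- Entire curves in finite covers of tori: the key lemma. -/
theorem key (K : Type) [Field K] [Algebra ℂ K] [Algebra.EssFiniteType ℂ K] (hN : 0 < N)
    (ι : K →ₐ[ℂ] Mer) (u : Fin N → Hol) (x : Fin N → Kˣ) (hx : ∀ i, ι (x i : K) = ex (u i))
    (hind : AlgebraicIndependent ℂ (fun i => (x i : K)))
    (halg : ∀ z : K, IsAlgebraic (IntermediateField.adjoin ℂ (Set.range fun i => (x i : K))) z)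
    (w0 : K) (hw0 : (ep x : Lau N →+* K).IsIntegralElem w0) :
    ∃ (D : Fin N → Derivation ℂ K K) (S : List ((Fin N → ℤ) × ℤ)) (M : ℕ),
      (∀ i j, D j (x i : K) = if i = j then (x i : K) else 0) ∧ 1 ≤ M ∧ (∀ y ∈ S, Prim y.1) ∧
      app D M S w0 = 0 := by
  classical
  obtain ⟨D, S, M, h1, h2, h3, h4⟩ := torus K N x hind halg w0 hw0
  refine ⟨D, S, M, h1, h2, h3, ?_⟩
  by_contra hne
  obtain ⟨R, j, f, G, κ, s, μ, h, hj, hint, hG, hv, hc⟩ := h4 hne
  set c : Curve N := crv u with hcdef
  have hdom : IsDomain c.Mr := dom a_ring c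
  let L := FractionRing c.Mr
  have hLinj : Function.Injective (algebraMap c.Mr L) := IsFractionRing.injective c.Mr L
  let τ : Hol →ₐ[ℂ] L := (IsScalarTower.toAlgHom ℂ c.Mr L).comp (rho c)
  have hτ : Function.Injective τ := hLinj.comp (rho_inj u)
  let σ : Mer →ₐ[ℂ] L := IsFractionRing.liftAlgHom (K := Mer) hτ
  have hσ : ∀ a : Hol, σ (algebraMap Hol Mer a) = algebraMap c.Mr L (rho c a) := fun a =>
    IsFractionRing.lift_algebraMap (K := Mer) (g := (τ : Hol →+* L)) hτ a
  let φ : K →ₐ[ℂ] L := σ.comp ι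
  have hkey : ∀ g, φ (ep x g) = algebraMap c.Mr L (c.ev g) := by
    have h5 : φ.comp (ep x) = (IsScalarTower.toAlgHom ℂ c.Mr L).comp c.ev := by
      apply single_eq
      intro i
      change φ (ep x _) = algebraMap c.Mr L (c.ev _)
      rw [ep_single_one, xm_single]
      change σ (ι (x i : K)) = _
      rw [hx]
      unfold ex
      rw [hσ]
      congr 1
      apply c.val_inj
      intro z hz
      rw [rho_val c _ hz, c.ev_single, one_smul, c.val_mon _ hz]
      unfold Curve.monf
      rw [Finset.prod_eq_single i]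
      · rw [Pi.single_eq_same, zpow_one]
        change _ = (exH (u i) : ℂ → ℂ) z / 1
        rw [div_one]
      · intro k _ hk
        rw [Pi.single_eq_of_ne hk, zpow_zero]
      · intro h0
        exact absurd (Finset.mem_univ i) h0
    intro g
    exact congrArg (fun F => F g) h5
  obtain ⟨η, hη, hη'⟩ := exists_eta' hj hint c φ hkey
  have hηinj : ∀ r : R, η r = 0 → r = 0 := by
    intro r hr
    have h5 := hη' r
    rw [hr, map_zero] at h5
    have h6 : (r : K) = 0 := (map_eq_zero φ).1 h5.symm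
    exact Subtype.ext h6
  have hevG : c.ev G ≠ 0 := by
    rw [← hη]
    exact fun h0 => hG (hηinj _ h0)
  have hacl : E.ACl j f κ h μ c := by
    refine ⟨fun z hz h0 => ?_, η, ⟨hη, fun i z hz hf1 => ?_⟩⟩
    · obtain ⟨i, hi⟩ := h0
      exact absurd hi (crv_ne u i z)
    · obtain ⟨o1, o2, -, o4, -, o6⟩ := (a_ord N c).1 z hz.1
      have hv1 : c.ord z (η 1) = 0 := by
        rw [map_one, ← c.mon_zero, o6, (a_ord N c).2.1 z hz]
        rfl
      refine hv (fun r => c.ord z (η r)) ⟨?_, ?_, ?_, ?_⟩ ?_ ?_ i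
      · exact hv1
      · intro a b
        change c.ord z (η (a * b)) = c.ord z (η a) + c.ord z (η b)
        rw [map_mul]
        exact o1 _ _
      · intro a b
        change min (c.ord z (η a)) (c.ord z (η b)) ≤ c.ord z (η (a + b))
        rw [map_add]
        exact o2 _ _
      · intro a
        exact o4 hz _
      · rw [hη]
        exact hf1
      · rw [map_one j, hv1]
        exact zero_ne_one
  obtain ⟨Q, hQ, R0, hR0⟩ := hc c hacl hevG (Fin.succ ⟨0, hN⟩)
  obtain ⟨a, ha⟩ := const_of_mero (u ⟨0, hN⟩) Q hQ R0 (fun z hz => by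
    have h5 := hR0 z hz
    change (exH (u ⟨0, hN⟩) : ℂ → ℂ) z = Q z * 1 at h5
    rw [h5, mul_one])
  have h5 : (x ⟨0, hN⟩ : K) = algebraMap ℂ K a := by
    have h6 : ι (x ⟨0, hN⟩ : K) = ι (algebraMap ℂ K a) := by
      rw [hx, ι.commutes]
      unfold ex
      rw [ha, ← IsScalarTower.algebraMap_apply]
    exact (ι : K →+* Mer).injective h6
  have h6 := hind.transcendental ⟨0, hN⟩
  rw [h5] at h6
  exact h6 (isAlgebraic_algebraMap a)

end curve

end Pool.Agent.R392.NW
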