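import Pool.Agent.R392.NW.Ent
import Pool.Agent.R392.NW.Trd

/-!
Algebraic tools for the induction: exchange, integral multiples, derivations.
-/

set_option autoImplicit false
set_option linter.unusedSectionVars false

open Pool.Agent.Y192.OG

namespace Pool.Agent.R392.NW

theorem alg_map {A K L : Type} [CommRing A] [Field K] [Field L] [Algebra A K]
    (hinj : Function.Injective (algebraMap A K)) (ι : K →+* L) (T : Subring L)
    (h : ∀ a : A, ι (algebraMap A K a) ∈ T) {z : K} (hz : IsAlgebraic A z) :
    IsAlgebraic T (ι z) := by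
  obtain ⟨p, hp, hz⟩ := hz
  let φ : A →+* T := (ι.comp (algebraMap A K)).codRestrict T h
  have hφ : Function.Injective φ := fun a b hab =>
    hinj (ι.injective (congrArg Subtype.val hab))
  refine ⟨p.map φ, (Polynomial.map_ne_zero_iff hφ).2 hp, ?_⟩
  rw [Polynomial.aeval_def, Polynomial.eval₂_map]
  have h1 : (algebraMap T L).comp φ = ι.comp (algebraMap A K) := rfl
  rw [h1, ← Polynomial.hom_eval₂, ← Polynomial.aeval_def, hz, map_zero]

section

variable {K : Type} [Field K] [Algebra ℂ K] {N : ℕ}

/-- a derivation of logarithmic type on monomials -/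
theorem D_xm (D : Derivation ℂ K K) (x : Fin N → Kˣ) (ν : Fin N → ℤ)
    (hD : ∀ i, D (x i : K) = (ν i : K) * x i) (m : Fin N → ℤ) :
    D (xm x m : K) = ((∑ i, ν i * m i : ℤ) : K) * xm x m := by
  have h1 : (ld D (xm x m)).toAdd = ((∑ i, ν i * m i : ℤ) : K) := by
    unfold xm
    rw [map_prod, toAdd_prod]
    push_cast
    refine Finset.sum_congr rfl fun i _ => ?_
    rw [map_zpow, toAdd_zpow, ld_apply, hD, mul_div_assoc, div_self (Units.ne_zero _), mul_one,
      zsmul_eq_mul, mul_comm]
  rw [ld_apply, div_eq_iff (Units.ne_zero _)] at h1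
  exact h1

/-- The functions which are killed by the derivation of a primitive weight are algebraic over the
field generated by fewer monomials. -/
theorem exch (x : Fin N → Kˣ) (hbasis : IsTranscendenceBasis ℂ (fun i => (x i : K)))
    (halg : ∀ z : K, IsAlgebraic (IntermediateField.adjoin ℂ (Set.range fun i => (x i : K))) z)
    (D : Derivation ℂ K K) (ν : Fin N → ℤ) (hD : ∀ i, D (x i : K) = (ν i : K) * x i)
    (β : Fin N → ℤ) (hβ : ∑ i, ν i * β i = 1) (y : K) (hy : D y = 0) :
    ∃ (s : ℕ) (γ : Fin s → Fin N → ℤ), s < N ∧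
      AlgebraicIndependent ℂ (fun i => (xm x (γ i) : K)) ∧
      IsAlgebraic (Algebra.adjoin ℂ (Set.range fun i => (xm x (γ i) : K))) y := by
  classical
  set g : Fin N → Fin N → ℤ := fun j => Pi.single j 1 - ν j • β with hg
  set Y : Fin N → K := fun j => (xm x (g j) : K) with hY
  set t0 : K := (xm x β : K) with ht0
  have ht0ne : t0 ≠ 0 := Units.ne_zero _
  have hDY : ∀ j, D (Y j) = 0 := by
    intro j
    rw [hY]
    change D (xm x (g j) : K) = 0
    rw [D_xm D x ν hD]
    have h1 : ∑ i, ν i * g j i = 0 := by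
      have h2 : ∑ i, ν i * g j i = ν j - ν j * ∑ i, ν i * β i := by
        rw [hg, Finset.mul_sum]
        have h3 : ν j = ∑ i, ν i * (Pi.single j 1 : Fin N → ℤ) i := by
          rw [Finset.sum_eq_single j]
          · rw [Pi.single_eq_same, mul_one]
          · intro i _ hi
            rw [Pi.single_eq_of_ne hi, mul_zero]
          · intro h0
            exact absurd (Finset.mem_univ j) h0
        conv_rhs => rw [h3]
        rw [← Finset.sum_sub_distrib]
        refine Finset.sum_congr rfl fun i _ => ?_
        rw [← h3]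
        simp only [Pi.sub_apply, Pi.smul_apply, smul_eq_mul]
        ring
      rw [h2, hβ, mul_one, sub_self]
    rw [h1, Int.cast_zero, zero_mul]
  have hDt : D t0 = t0 := by
    rw [ht0, D_xm D x ν hD, hβ, Int.cast_one, one_mul]
  set A : Set K := insert t0 (Set.range Y) with hA
  have hAfin : A.Finite := (Set.finite_range Y).insert t0
  have hxA : ∀ j, (x j : K) ∈ IntermediateField.adjoin ℂ A := by
    intro j
    have h1 : (x j : K) = Y j * t0 ^ ν j := by
      have h2 : x j = xm x (g j) * xm x β ^ ν j := by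
        rw [← Pool.Agent.Y809.OG.xm_zsmul, ← xm_add, hg]
        change x j = xm x (Pi.single j 1 - ν j • β + ν j • β)
        rw [sub_add_cancel, xm_single]
      conv_lhs => rw [h2]
      rw [Units.val_mul, Units.val_zpow_eq_zpow_val]
    rw [h1]
    exact mul_mem (IntermediateField.subset_adjoin _ _ (Set.mem_insert_of_mem _ ⟨j, rfl⟩))
      (zpow_mem (IntermediateField.subset_adjoin _ _ (Set.mem_insert _ _)) _)
  have hAalg : Algebra.IsAlgebraic (Algebra.adjoin ℂ A) K := by
    refine ⟨fun z => alg_adj A z ?_⟩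
    have hle : IntermediateField.adjoin ℂ (Set.range fun i => (x i : K))
        ≤ IntermediateField.adjoin ℂ A := by
      rw [IntermediateField.adjoin_le_iff]
      rintro _ ⟨i, rfl⟩
      exact hxA i
    have h1 : IsAlgebraic (IntermediateField.adjoin ℂ
      (Set.range fun i => (x i : K))).toSubalgebra.toSubring z := halg z
    exact alg_sub _ (IntermediateField.adjoin ℂ A).toSubalgebra.toSubring hle z h1
  obtain ⟨B', hB'A, hB'⟩ := exists_isTranscendenceBasis_subset (R := ℂ) A
  -- a transcendence basis is not killed by the derivation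
  have hnot : ∀ C : Set K, IsTranscendenceBasis ℂ ((↑) : C → K) → ¬ ∀ c ∈ C, D c = 0 := by
    intro C hC hall
    have h1 := hC.isAlgebraic_field
    rw [Subtype.range_coe] at h1
    have h2 := Pool.Agent.W602.GT.der_eq_zero D C h1 hall
    rw [h2] at hDt
    exact ht0ne hDt.symm
  have ht0B : t0 ∈ B' := by
    by_contra hcon
    apply hnot B' hB'
    intro c hc
    rcases hB'A hc with h1 | ⟨j, rfl⟩
    · rw [h1] at hc
      exact absurd hc hcon
    · exact hDY j
  set B : Set K := B' \ {t0} with hB
  have hBY : B ⊆ Set.range Y := by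
    intro c hc
    rcases hB'A hc.1 with h1 | h1
    · exact absurd h1 hc.2
    · exact h1
  have hBfin : B.Finite := hAfin.subset (Set.sdiff_subset.trans hB'A)
  have hB'ind : AlgebraicIndepOn ℂ id B' := hB'.1
  have hBind : AlgebraicIndepOn ℂ id B := hB'ind.mono Set.sdiff_subset
  have hcard : Cardinal.mk B + 1 = Algebra.trdeg ℂ K := by
    rw [← hB'.cardinalMk_eq_trdeg]
    have h1 : insert t0 B = B' := by
      rw [hB, Set.insert_sdiff_singleton, Set.insert_eq_of_mem ht0B]
    have h2 : t0 ∉ B := fun h => h.2 rfl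
    rw [← Cardinal.mk_insert h2, h1]
  have htr : Algebra.trdeg ℂ K = N := by
    rw [← hbasis.cardinalMk_eq_trdeg, Cardinal.mk_fin]
  have hfB : Finite B := hBfin.to_subtype
  have hs : Nat.card B + 1 = N := by
    have h1 : ((Nat.card B : ℕ) : Cardinal) = Cardinal.mk B := Nat.cast_card
    rw [← h1, htr] at hcard
    exact_mod_cast hcard
  let e : B ≃ Fin (Nat.card B) := Finite.equivFin B
  have hex : ∀ i : Fin (Nat.card B), ∃ j, Y j = ((e.symm i : B) : K) := fun i => hBY (e.symm i).2
  choose jj hjj using hex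
  refine ⟨Nat.card B, fun i => g (jj i), by omega, ?_, ?_⟩
  · have h1 : (fun i => (xm x (g (jj i)) : K)) = (fun b : B => (b : K)) ∘ e.symm := by
      funext i
      exact hjj i
    rw [h1]
    exact hBind.comp e.symm e.symm.injective
  · have h1 : (Set.range fun i => (xm x (g (jj i)) : K)) = B := by
      ext z
      constructor
      · rintro ⟨i, rfl⟩
        change Y (jj i) ∈ B
        rw [hjj i]
        exact (e.symm i).2
      · intro hz
        refine ⟨e ⟨z, hz⟩, ?_⟩
        change Y (jj (e ⟨z, hz⟩)) = z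
        rw [hjj, Equiv.symm_apply_apply]
    rw [h1]
    by_contra htrans
    have hyB : y ∉ B := by
      intro hyB
      apply htrans
      exact isAlgebraic_algebraMap (⟨y, Algebra.subset_adjoin hyB⟩ : Algebra.adjoin ℂ B)
    have h2 : AlgebraicIndepOn ℂ id (insert y B) := by
      refine AlgebraicIndepOn.insert hBind ?_
      rw [Set.image_id]
      exact htrans
    have hfin : Finite ↥(insert y B) := (hBfin.insert y).to_subtype
    have h3 : IsTranscendenceBasis ℂ ((↑) : ↥(insert y B) → K) := by
      refine AlgebraicIndependent.isTranscendenceBasis_of_trdeg_le_of_finite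
        (x := ((↑) : ↥(insert y B) → K)) h2 ?_
      rw [Cardinal.mk_insert hyB, hcard]
    apply hnot _ h3
    intro c hc
    rcases hc with h4 | h4
    · rw [h4]
      exact hy
    · obtain ⟨j, hj⟩ := hBY h4
      rw [← hj]
      exact hDY j

/-- integral multiples -/
theorem int_mul (x : Fin N → Kˣ)
    (halg : ∀ z : K, IsAlgebraic (IntermediateField.adjoin ℂ (Set.range fun i => (x i : K))) z)
    (t0 : K) : ∃ g : Lau N, ep x g ≠ 0 ∧
      (ep x : Lau N →+* K).IsIntegralElem (ep x g * t0) := by
  have h1 := alg_adj _ t0 (halg t0)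
  have hle : Algebra.adjoin ℂ (Set.range fun i => (x i : K)) ≤ (ep x).range := by
    rw [Algebra.adjoin_le_iff]
    rintro _ ⟨i, rfl⟩
    exact ⟨AddMonoidAlgebra.single (Pi.single i 1) 1, by
      change ep x _ = _
      rw [ep_single_one, xm_single]⟩
  have h2 : IsAlgebraic (ep x).range.toSubring t0 :=
    alg_sub (Algebra.adjoin ℂ (Set.range fun i => (x i : K))).toSubring (ep x).range.toSubring
      hle t0 h1
  have h3 : IsAlgebraic (ep x).range t0 := h2
  obtain ⟨⟨y, g, hg⟩, hy0, p, hp, hpe⟩ := h3.exists_integral_multiple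
  have hg' : ep x g = y := hg
  refine ⟨g, ?_, ?_⟩
  · rw [hg']
    intro h0
    exact hy0 (Subtype.ext h0)
  · have hsurj : Function.Surjective ((ep x).rangeRestrict : Lau N →+* (ep x).range) :=
      (ep x).rangeRestrict_surjective
    obtain ⟨q, hq, -, hqm⟩ := Polynomial.lifts_and_natDegree_eq_and_monic
      (f := ((ep x).rangeRestrict : Lau N →+* (ep x).range)) (p := p)
      ((Polynomial.mem_lifts _).2 (Polynomial.map_surjective _ hsurj p)) hp
    refine ⟨q, hqm, ?_⟩
    have h4 : (ep x : Lau N →+* K) = (algebraMap (ep x).range K).comp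
      ((ep x).rangeRestrict : Lau N →+* (ep x).range) := rfl
    rw [h4, ← Polynomial.eval₂_map, hq]
    have h5 : ep x g * t0 = (⟨y, g, hg⟩ : (ep x).range) • t0 := by
      rw [hg']
      rfl
    rw [h5]
    exact hpe

/-- derivations preserve the field generated by the coordinates -/
theorem der_adj (x : Fin N → Kˣ) (D : Derivation ℂ K K)
    (hD : ∀ i, D (x i : K) ∈ IntermediateField.adjoin ℂ (Set.range fun i => (x i : K))) :
    ∀ z ∈ IntermediateField.adjoin ℂ (Set.range fun i => (x i : K)),
      D z ∈ IntermediateField.adjoin ℂ (Set.range fun i => (x i : K)) := by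
  intro z hz
  induction hz using IntermediateField.adjoin_induction with
  | mem z hz =>
    obtain ⟨i, rfl⟩ := hz
    exact hD i
  | algebraMap c =>
    rw [D.map_algebraMap]
    exact zero_mem _
  | add a b _ _ ha hb =>
    rw [map_add]
    exact add_mem ha hb
  | inv a ha' ha =>
    rw [D.leibniz_inv, smul_eq_mul]
    exact mul_mem (neg_mem (pow_mem (inv_mem ha') 2)) ha
  | mul a b ha' hb' ha hb =>
    rw [D.leibniz, smul_eq_mul, smul_eq_mul]
    exact add_mem (mul_mem ha' hb) (mul_mem hb' ha)

/-- the first function in a list which is killed -/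
theorem list_kill {b : ℕ} (D : Fin b → Derivation ℂ K K) (M : ℕ) (Pr : K → Prop)
    (hPr : ∀ x z, Pr z → Pr (Tp D M x z)) (S : List ((Fin b → ℤ) × ℤ)) :
    ∀ z, z ≠ 0 → Pr z → app D M S z = 0 → ∃ y ∈ S, ∃ v, v ≠ 0 ∧ Pr v ∧ Tp D M y v = 0 := by
  induction S with
  | nil =>
    intro z hz _ h0
    exact absurd h0 hz
  | cons x S ih =>
    intro z hz hp h0
    rw [app_cons] at h0
    by_cases h1 : Tp D M x z = 0
    · exact ⟨x, List.mem_cons_self, z, hz, hp, h1⟩
    · obtain ⟨y, hy, v, hv⟩ := ih _ h1 (hPr x z hp) h0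
      exact ⟨y, List.mem_cons_of_mem _ hy, v, hv⟩

end

end Pool.Agent.R392.NW
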