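import Pool.Agent.R392.NW.Clm

/-!
Entire functions which are algebraic over sums of exponentials.
-/

set_option autoImplicit false
set_option linter.unusedSectionVars false

namespace Pool.Agent.R392.NW

section abs

variable {L : Type} [Field L] [Algebra ℂ L]

/-- a maximal independent subfamily of a finite family -/
theorem exists_sub {T : Type} [Finite T] (v : T → L) :
    ∃ (N : ℕ) (b : Fin N → T), AlgebraicIndependent ℂ (fun k => v (b k)) ∧
      ∀ i, IsAlgebraic (IntermediateField.adjoin ℂ (Set.range fun k => v (b k))) (v i) := by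
  classical
  have h0 : AlgebraicIndepOn ℂ v (∅ : Set T) := by
    have : IsEmpty (∅ : Set T) := inferInstance
    exact algebraicIndependent_empty_type_iff.2 (algebraMap ℂ L).injective
  obtain ⟨s, -, hs⟩ := Set.Finite.exists_le_maximal
    (s := {s : Set T | AlgebraicIndepOn ℂ v s}) (Set.toFinite _) h0
  obtain ⟨N, ⟨e⟩⟩ := Finite.exists_equiv_fin s
  refine ⟨N, fun k => (e.symm k : T), ?_, ?_⟩
  · exact (hs.prop : AlgebraicIndependent ℂ (fun i : s => v i)).comp e.symm e.symm.injective
  · intro i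
    have hr : v '' s = Set.range fun k => v (e.symm k : T) := by
      ext a
      constructor
      · rintro ⟨t, ht, rfl⟩
        refine ⟨e ⟨t, ht⟩, ?_⟩
        change v ((e.symm (e ⟨t, ht⟩) : s) : T) = v t
        rw [e.symm_apply_apply]
      · rintro ⟨k, rfl⟩
        exact ⟨_, (e.symm k).2, rfl⟩
    have h1 : IsAlgebraic (Algebra.adjoin ℂ (v '' s)) (v i) := by
      by_contra hcon
      have h2 : AlgebraicIndepOn ℂ v (insert i s) := AlgebraicIndepOn.insert hs.prop hcon
      have h3 : insert i s ≤ s := hs.le_of_ge h2 (Set.subset_insert i s)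
      have h4 : i ∈ s := h3 (Set.mem_insert i s)
      exact hcon (isAlgebraic_algebraMap
        (⟨v i, Algebra.subset_adjoin ⟨i, h4, rfl⟩⟩ : Algebra.adjoin ℂ (v '' s)))
    have h5 : (Algebra.adjoin ℂ (v '' s)).toSubring ≤
        (IntermediateField.adjoin ℂ (Set.range fun k => v (e.symm k : T))).toSubalgebra.toSubring := by
      intro a ha
      rw [← hr]
      exact IntermediateField.algebra_adjoin_le_adjoin ℂ _ ha
    exact alg_sub _ _ h5 _ h1

end abs

/-- the sums of exponentials -/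
noncomputable def sm (l : List Hol) : Hol := (l.map exH).sum

theorem sm_append (l l' : List Hol) : sm (l ++ l') = sm l + sm l' := by
  unfold sm
  rw [List.map_append, List.sum_append]

theorem sm_shift (u : Hol) (l : List Hol) : sm (l.map fun v => u + v) = exH u * sm l := by
  induction l with
  | nil => simp [sm]
  | cons a l ih =>
    have h1 : sm ((a :: l).map fun v => u + v) = exH (u + a) + sm (l.map fun v => u + v) := by
      simp [sm]
    have h2 : sm (a :: l) = exH a + sm l := by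
      simp [sm]
    rw [h1, h2, ih, exH_add]
    ring

/-- the ring of sums of exponentials -/
noncomputable def Sm : Subalgebra ℂ Hol where
  carrier := {h | ∃ l : List Hol, sm l = h}
  add_mem' := by
    rintro _ _ ⟨l, rfl⟩ ⟨l', rfl⟩
    exact ⟨l ++ l', sm_append l l'⟩
  mul_mem' := by
    rintro _ _ ⟨l, rfl⟩ ⟨l', rfl⟩
    induction l with
    | nil => exact ⟨[], by simp [sm]⟩
    | cons a l ih =>
      obtain ⟨l'', hl''⟩ := ih
      refine ⟨(l'.map fun v => a + v) ++ l'', ?_⟩
      rw [sm_append, sm_shift, hl'']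
      have h2 : sm (a :: l) = exH a + sm l := by
        simp [sm]
      rw [h2, add_mul]
  algebraMap_mem' := by
    intro c
    by_cases hc : c = 0
    · exact ⟨[], by rw [hc, map_zero]; rfl⟩
    · refine ⟨[algebraMap ℂ Hol (Complex.log c)], ?_⟩
      have h1 : sm [algebraMap ℂ Hol (Complex.log c)] = exH (algebraMap ℂ Hol (Complex.log c)) := by
        simp [sm]
      rw [h1]
      apply Subtype.ext
      funext z
      exact Complex.exp_log hc

theorem exH_mem (u : Hol) : exH u ∈ Sm := ⟨[u], by simp [sm]⟩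

/-- the rational functions of exponentials are quotients of sums of exponentials -/
theorem quot {N : ℕ} (u : Fin N → Hol) (y : Mer) (hy : y ∈ EF u) :
    ∃ l l' : List Hol, y = algebraMap Hol Mer (sm l) / algebraMap Hol Mer (sm l') := by
  unfold EF at hy
  rw [IntermediateField.mem_adjoin_iff_div] at hy
  obtain ⟨r, hr, s, hs, hy⟩ := hy
  have h1 : Algebra.adjoin ℂ (Set.range fun i => ex (u i)) ≤
      Sm.map (IsScalarTower.toAlgHom ℂ Hol Mer) := by
    rw [Algebra.adjoin_le_iff]
    rintro _ ⟨i, rfl⟩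
    exact ⟨exH (u i), exH_mem _, rfl⟩
  obtain ⟨a, ⟨l, hl⟩, ha⟩ := h1 hr
  obtain ⟨b, ⟨l', hl'⟩, hb⟩ := h1 hs
  refine ⟨l, l', ?_⟩
  rw [hl, hl', hy, ← ha, ← hb]
  rfl

/-- the main theorem for entire functions -/
theorem main {T : Type} [Finite T] (U : T → Hol) (f : Hol) (E : IntermediateField ℂ Mer)
    (hE : E = IntermediateField.adjoin ℂ (Set.range fun i => ex (U i)))
    (hf : IsAlgebraic E (algebraMap Hol Mer f)) :
    ∃ l l' : List Hol, sm l' ≠ 0 ∧ f * sm l' = sm l := by
  have hinj : Function.Injective (algebraMap Hol Mer) := IsFractionRing.injective Hol Mer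
  obtain ⟨N, b, hb, halg⟩ := exists_sub (L := Mer) (fun t => ex (U t))
  obtain ⟨m, hm, hmem⟩ := clm N (fun k => U (b k)) hb (algebraMap Hol Mer f)
    (alg_trans (EF fun k => U (b k)) E (Set.range fun i => ex (U i)) hE
      (by
        rintro _ ⟨i, rfl⟩
        exact halg i) _ hf)
  obtain ⟨l, l', hy⟩ := quot _ _ hmem
  by_cases h0 : sm l' = 0
  · rw [h0, map_zero, div_zero] at hy
    have h1 : f = 0 := hinj (by rw [hy, map_zero])
    refine ⟨[], [0], ?_, ?_⟩
    · have h2 : sm [0] = 1 := by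
        simp [sm, exH_zero]
      rw [h2]
      exact one_ne_zero
    · rw [h1, zero_mul]
      rfl
  · refine ⟨l, l', h0, ?_⟩
    apply hinj
    have h1 : algebraMap Hol Mer (sm l') ≠ 0 := fun h => h0 (hinj (by rw [h, map_zero]))
    rw [map_mul, hy, div_mul_cancel₀ _ h1]

/-- a finite sum of exponentials as a sum over a list -/
theorem sm_ofFn {k : ℕ} (G : Fin k → Hol) (z : ℂ) :
    (sm (List.ofFn G) : ℂ → ℂ) z = ∑ b, Complex.exp ((G b : ℂ → ℂ) z) := by
  unfold sm
  rw [List.map_ofFn, List.sum_ofFn]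
  have h1 : ((∑ b, (exH ∘ G) b : Hol) : ℂ → ℂ) = ∑ b, ((exH ∘ G) b : ℂ → ℂ) :=
    map_sum Hol.val _ _
  rw [h1, Finset.sum_apply]
  rfl

/-- a sum over a list as a finite sum of exponentials -/
theorem sm_get (l : List Hol) (z : ℂ) :
    (sm l : ℂ → ℂ) z = ∑ b : Fin l.length, Complex.exp ((l.get b : ℂ → ℂ) z) := by
  have h := sm_ofFn l.get z
  rw [List.ofFn_get] at h
  exact h

/-- an entire function which satisfies a monic equation whose coefficients are quotients of
finite sums of exponentials of entire functions is itself a quotient of such sums -/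
theorem main_fun (n : ℕ) (hn : 1 ≤ n) (φ : Fin n → ℂ → ℂ)
    (hφ : ∀ i, Differentiable ℂ (φ i) ∧
        ∃ m k : ℕ, ∃ F : Fin m → ℂ → ℂ, ∃ G : Fin k → ℂ → ℂ,
          (∀ a, Differentiable ℂ (F a)) ∧ (∀ b, Differentiable ℂ (G b)) ∧
          (∃ z, ∑ b, Complex.exp (G b z) ≠ 0) ∧
          ∀ z, φ i z * ∑ b, Complex.exp (G b z) = ∑ a, Complex.exp (F a z))
    (f : ℂ → ℂ) (hf : Differentiable ℂ f)
    (heq : ∀ z, f z ^ n + ∑ i : Fin n, φ i z * f z ^ (n - 1 - (i : ℕ)) = 0) :
    ∃ m k : ℕ, ∃ F : Fin m → ℂ → ℂ, ∃ G : Fin k → ℂ → ℂ,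
          (∀ a, Differentiable ℂ (F a)) ∧ (∀ b, Differentiable ℂ (G b)) ∧
          (∃ z, ∑ b, Complex.exp (G b z) ≠ 0) ∧
          ∀ z, f z * ∑ b, Complex.exp (G b z) = ∑ a, Complex.exp (F a z) := by
  classical
  choose hφd m k F G hF hG hG0 hφFG using hφ
  let F' : ∀ i, Fin (m i) → Hol := fun i a => ⟨F i a, hF i a⟩
  let G' : ∀ i, Fin (k i) → Hol := fun i b => ⟨G i b, hG i b⟩
  let φ' : Fin n → Hol := fun i => ⟨φ i, hφd i⟩
  let f' : Hol := ⟨f, hf⟩
  let T : Type := Σ i : Fin n, Fin (m i) ⊕ Fin (k i)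
  let U : T → Hol := fun t => Sum.elim (F' t.1) (G' t.1) t.2
  obtain ⟨E, hE⟩ : ∃ E : IntermediateField ℂ Mer,
    E = IntermediateField.adjoin ℂ (Set.range fun i => ex (U i)) := ⟨_, rfl⟩
  have hmem : ∀ t, ex (U t) ∈ E := by
    intro t
    rw [hE]
    exact IntermediateField.subset_adjoin _ _ ⟨t, rfl⟩
  have hφeq : ∀ i, φ' i * sm (List.ofFn (G' i)) = sm (List.ofFn (F' i)) := by
    intro i
    apply Subtype.ext
    funext z
    change φ i z * (sm (List.ofFn (G' i)) : ℂ → ℂ) z = (sm (List.ofFn (F' i)) : ℂ → ℂ) z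
    rw [sm_ofFn, sm_ofFn]
    exact hφFG i z
  have hsG : ∀ i, sm (List.ofFn (G' i)) ≠ 0 := by
    intro i h0
    obtain ⟨z, hz⟩ := hG0 i
    apply hz
    have h1 := sm_ofFn (G' i) z
    rw [h0] at h1
    exact h1.symm
  have hinj : Function.Injective (algebraMap Hol Mer) := IsFractionRing.injective Hol Mer
  have hsm : ∀ {k : ℕ} (H : Fin k → Hol), (∀ b, ex (H b) ∈ E) →
      algebraMap Hol Mer (sm (List.ofFn H)) ∈ E := by
    intro k H hH
    unfold sm
    rw [List.map_ofFn, List.sum_ofFn, map_sum]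
    exact sum_mem fun b _ => hH b
  have hφmem : ∀ i, algebraMap Hol Mer (φ' i) ∈ E := by
    intro i
    have h1 : algebraMap Hol Mer (sm (List.ofFn (G' i))) ≠ 0 := fun h =>
      hsG i (hinj (by rw [h, map_zero]))
    have h2 : algebraMap Hol Mer (φ' i) = algebraMap Hol Mer (sm (List.ofFn (F' i))) /
        algebraMap Hol Mer (sm (List.ofFn (G' i))) := by
      rw [eq_div_iff h1, ← map_mul, hφeq]
    rw [h2]
    exact div_mem (hsm _ fun b => hmem ⟨i, Sum.inl b⟩) (hsm _ fun b => hmem ⟨i, Sum.inr b⟩)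
  have hint : IsIntegral E (algebraMap Hol Mer f') := by
    let p : Polynomial E := Polynomial.X ^ n + ∑ i : Fin n,
      Polynomial.C (⟨algebraMap Hol Mer (φ' i), hφmem i⟩ : E) * Polynomial.X ^ (n - 1 - (i : ℕ))
    refine ⟨p, ?_, ?_⟩
    · apply Polynomial.monic_X_pow_add
      refine (Polynomial.degree_sum_le _ _).trans_lt ?_
      rw [Finset.sup_lt_iff (by exact_mod_cast WithBot.bot_lt_coe n)]
      intro i _
      refine (Polynomial.degree_C_mul_X_pow_le _ _).trans_lt ?_
      exact_mod_cast (by omega : n - 1 - (i : ℕ) < n)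
    · change Polynomial.eval₂ (algebraMap E Mer) (algebraMap Hol Mer f') (Polynomial.X ^ n + ∑ i : Fin n,
        Polynomial.C (⟨algebraMap Hol Mer (φ' i), hφmem i⟩ : E) * Polynomial.X ^ (n - 1 - (i : ℕ))) = 0
      rw [Polynomial.eval₂_add, Polynomial.eval₂_pow, Polynomial.eval₂_X,
        Polynomial.eval₂_finsetSum]
      have h1 : ∀ i : Fin n, Polynomial.eval₂ (algebraMap E Mer) (algebraMap Hol Mer f')
          (Polynomial.C (⟨algebraMap Hol Mer (φ' i), hφmem i⟩ : E) *
            Polynomial.X ^ (n - 1 - (i : ℕ))) =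
          algebraMap Hol Mer (φ' i * f' ^ (n - 1 - (i : ℕ))) := by
        intro i
        rw [Polynomial.eval₂_mul, Polynomial.eval₂_C, Polynomial.eval₂_pow, Polynomial.eval₂_X,
          map_mul, map_pow]
        rfl
      rw [Finset.sum_congr rfl fun i _ => h1 i, ← map_sum, ← map_pow, ← map_add]
      have h2 : f' ^ n + ∑ i : Fin n, φ' i * f' ^ (n - 1 - (i : ℕ)) = 0 := by
        apply Subtype.ext
        funext z
        have h3 : Hol.val (f' ^ n + ∑ i : Fin n, φ' i * f' ^ (n - 1 - (i : ℕ))) =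
            Hol.val f' ^ n + ∑ i : Fin n, Hol.val (φ' i) * Hol.val f' ^ (n - 1 - (i : ℕ)) := by
          rw [map_add, map_pow, map_sum]
          simp only [map_mul, map_pow]
        have h4 := congrFun h3 z
        rw [Pi.add_apply, Finset.sum_apply] at h4
        exact h4.trans (heq z)
      rw [h2, map_zero]
  obtain ⟨l, l', h0, hl⟩ := main U f' E hE hint.isAlgebraic
  refine ⟨l.length, l'.length, fun a => (l.get a : ℂ → ℂ), fun b => (l'.get b : ℂ → ℂ),
    fun a => (l.get a).2, fun b => (l'.get b).2, ?_, ?_⟩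
  · by_contra hcon
    push Not at hcon
    apply h0
    apply Subtype.ext
    funext z
    rw [sm_get]
    exact hcon z
  · intro z
    have h1 := congrFun (congrArg Subtype.val hl) z
    change f z * (sm l' : ℂ → ℂ) z = (sm l : ℂ → ℂ) z at h1
    rw [sm_get, sm_get] at h1
    exact h1

end Pool.Agent.R392.NW
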