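import Pool.Agent.R392.NW.Exc

/-!
Finite extensions of fields generated by independent elements, inside a larger field.
-/

set_option autoImplicit false
set_option linter.unusedSectionVars false

open Pool.Agent.Y192.OG

namespace Pool.Agent.R392.NW

section

variable {L : Type} [Field L] [Algebra ℂ L]

theorem exists_K (F : IntermediateField ℂ L) (hFG : F.FG) (w : L) (hw : IsIntegral F w) :
    ∃ (K : Type) (_ : Field K) (_ : Algebra ℂ K) (_ : Algebra F K) (_ : IsScalarTower ℂ F K)
      (_ : FiniteDimensional F K) (_ : Algebra.EssFiniteType ℂ K) (ι : K →ₐ[ℂ] L),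
      (∀ a : F, ι (algebraMap F K a) = a) ∧ (∃ t : K, ι t = w) ∧
      ∀ v : K, ι v ∈ IntermediateField.adjoin F {w} := by
  have h0 : FiniteDimensional F (IntermediateField.adjoin F {w}) :=
    IntermediateField.adjoin.finiteDimensional hw
  have h1 : Algebra.EssFiniteType ℂ F := IntermediateField.essFiniteType_iff.2 hFG
  have h2 : IsScalarTower ℂ F (IntermediateField.adjoin F {w}) :=
    IsScalarTower.of_algebraMap_eq fun _ => rfl
  have h3 : Algebra.EssFiniteType ℂ (IntermediateField.adjoin F {w}) :=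
    Algebra.EssFiniteType.comp ℂ F (IntermediateField.adjoin F {w})
  exact ⟨IntermediateField.adjoin F {w}, inferInstance, inferInstance, inferInstance, h2, h0, h3,
    (IntermediateField.adjoin F {w}).val.restrictScalars ℂ, fun _ => rfl,
    ⟨⟨w, IntermediateField.mem_adjoin_simple_self F w⟩, rfl⟩, fun v => v.2⟩

end

section

variable {L K : Type} [Field L] [Algebra ℂ L] [Field K] [Algebra ℂ K] {N : ℕ}

theorem adj_map (ι : K →ₐ[ℂ] L) (x : Fin N → K) (ξ : Fin N → L) (hx : ∀ i, ι (x i) = ξ i) :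
    (IntermediateField.adjoin ℂ (Set.range x)).map ι = IntermediateField.adjoin ℂ (Set.range ξ) := by
  rw [IntermediateField.adjoin_map, ← Set.range_comp]
  congr 2
  funext i
  exact hx i

variable (F : IntermediateField ℂ L) [Algebra F K]

theorem alg_mem' (ι : K →ₐ[ℂ] L) (hι : ∀ a : F, ι (algebraMap F K a) = a) (x : Fin N → K)
    (ξ : Fin N → L) (hx : ∀ i, ι (x i) = ξ i)
    (hF : F = IntermediateField.adjoin ℂ (Set.range ξ)) (a : F) :
    algebraMap F K a ∈ IntermediateField.adjoin ℂ (Set.range x) := by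
  have h1 : (a : L) ∈ (IntermediateField.adjoin ℂ (Set.range x)).map ι := by
    rw [adj_map ι x ξ hx, ← hF]
    exact a.2
  obtain ⟨z, hz, hza⟩ := h1
  have h2 : z = algebraMap F K a := by
    apply (ι : K →+* L).injective
    change ι z = ι (algebraMap F K a)
    rw [hι]
    exact hza
  rw [← h2]
  exact hz

theorem mem_alg' (ι : K →ₐ[ℂ] L) (hι : ∀ a : F, ι (algebraMap F K a) = a) (x : Fin N → K)
    (ξ : Fin N → L) (hx : ∀ i, ι (x i) = ξ i)
    (hF : F = IntermediateField.adjoin ℂ (Set.range ξ)) (z : K)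
    (hz : z ∈ IntermediateField.adjoin ℂ (Set.range x)) : ∃ a : F, algebraMap F K a = z := by
  have h1 : ι z ∈ F := by
    rw [hF, ← adj_map ι x ξ hx]
    exact ⟨z, hz, rfl⟩
  refine ⟨⟨ι z, h1⟩, ?_⟩
  apply (ι : K →+* L).injective
  change ι (algebraMap F K ⟨ι z, h1⟩) = ι z
  rw [hι]

theorem halg' [FiniteDimensional F K] (ι : K →ₐ[ℂ] L) (hι : ∀ a : F, ι (algebraMap F K a) = a)
    (x : Fin N → K) (ξ : Fin N → L) (hx : ∀ i, ι (x i) = ξ i)
    (hF : F = IntermediateField.adjoin ℂ (Set.range ξ)) (z : K) :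
    IsAlgebraic (IntermediateField.adjoin ℂ (Set.range x)) z := by
  have h1 : IsAlgebraic F z := Algebra.IsAlgebraic.isAlgebraic z
  have h2 := alg_map (A := F) (K := K) (L := K) (algebraMap F K).injective
    (RingHom.id _) (IntermediateField.adjoin ℂ (Set.range x)).toSubalgebra.toSubring
    (fun a => alg_mem' F ι hι x ξ hx hF a) h1
  exact h2

omit [Algebra F K] in
theorem ep_mem_adj (x : Fin N → Kˣ) (g : Lau N) :
    ep x g ∈ IntermediateField.adjoin ℂ (Set.range fun i => (x i : K)) := by
  induction g using AddMonoidAlgebra.induction_linear with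
  | zero =>
    rw [map_zero]
    exact zero_mem _
  | add f g hf hg =>
    rw [map_add]
    exact add_mem hf hg
  | single m a =>
    rw [ep_single, Algebra.smul_def]
    refine mul_mem (IntermediateField.algebraMap_mem _ _) ?_
    unfold xm
    rw [Units.coe_prod]
    refine prod_mem fun i _ => ?_
    rw [Units.val_zpow_eq_zpow_val]
    have h : (x i : K) ∈ IntermediateField.adjoin ℂ (Set.range fun i => (x i : K)) :=
      IntermediateField.subset_adjoin _ _ ⟨i, rfl⟩
    exact zpow_mem h _

/-- an integral function with trace zero -/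
theorem exists_w0 [FiniteDimensional F K] (ι : K →ₐ[ℂ] L)
    (hι : ∀ a : F, ι (algebraMap F K a) = a)
    (x : Fin N → Kˣ) (ξ : Fin N → L) (hx : ∀ i, ι (x i : K) = ξ i)
    (hF : F = IntermediateField.adjoin ℂ (Set.range ξ)) (t : K) (ht : ι t ∉ F) :
    ∃ w0 : K, w0 ≠ 0 ∧ Algebra.trace F K w0 = 0 ∧ (ep x : Lau N →+* K).IsIntegralElem w0 := by
  have hchar : CharZero F := charZero_of_injective_algebraMap (algebraMap ℂ F).injective
  have halg := halg' F ι hι (fun i => (x i : K)) ξ hx hF
  set n : F := (Module.finrank F K : F) with hn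
  have hn0 : n ≠ 0 := by
    rw [hn]
    exact_mod_cast Module.finrank_pos.ne'
  set t0 : K := t - algebraMap F K (Algebra.trace F K t / n) with ht0
  have ht0ne : t0 ≠ 0 := by
    intro h0
    apply ht
    rw [ht0, sub_eq_zero] at h0
    rw [h0, hι]
    exact Subtype.property _
  have ht0tr : Algebra.trace F K t0 = 0 := by
    rw [ht0, map_sub, Algebra.trace_algebraMap, nsmul_eq_mul, ← hn, mul_div_cancel₀ _ hn0, sub_self]
  obtain ⟨g, hg0, hg⟩ := int_mul x halg t0
  refine ⟨ep x g * t0, mul_ne_zero hg0 ht0ne, ?_, hg⟩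
  have h1 : ep x g ∈ IntermediateField.adjoin ℂ (Set.range fun i => (x i : K)) := ep_mem_adj x g
  obtain ⟨a, ha⟩ := mem_alg' F ι hι (fun i => (x i : K)) ξ hx hF _ h1
  rw [← ha, ← Algebra.smul_def, map_smul, ht0tr, smul_zero]

end

end Pool.Agent.R392.NW
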