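import Mathlib

/-!
Finitely many primitive vectors generate the cones on which a given vertex of a polytope is
minimal (Gordan's lemma).
-/

set_option autoImplicit false

namespace Pool.Agent.R392.NW

/-- the pairing with an exponent -/
def pw {b : ℕ} (w : Fin b → ℤ) (c : Fin b →₀ ℕ) : ℤ := ∑ i, w i * c i

theorem pw_add {b : ℕ} (w w' : Fin b → ℤ) (c : Fin b →₀ ℕ) : pw (w + w') c = pw w c + pw w' c := by
  unfold pw
  rw [← Finset.sum_add_distrib]
  exact Finset.sum_congr rfl fun i _ => by rw [Pi.add_apply]; ring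

theorem pw_nsmul {b : ℕ} (n : ℕ) (w : Fin b → ℤ) (c : Fin b →₀ ℕ) : pw (n • w) c = n * pw w c := by
  unfold pw
  rw [Finset.mul_sum]
  exact Finset.sum_congr rfl fun i _ => by
    rw [Pi.smul_apply, nsmul_eq_mul]; ring

theorem pw_sum {b : ℕ} {ι : Type} (s : Finset ι) (n : ι → ℕ) (ν : ι → Fin b → ℤ) (c : Fin b →₀ ℕ) :
    pw (∑ j ∈ s, n j • ν j) c = ∑ j ∈ s, (n j : ℤ) * pw (ν j) c := by
  classical
  induction s using Finset.induction_on with
  | empty => simp [pw]
  | insert a s ha ih => rw [Finset.sum_insert ha, Finset.sum_insert ha, pw_add, pw_nsmul, ih]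

/-- the difference vector -/
def dv {b : ℕ} {T : Finset (Fin b →₀ ℕ)} (m : Fin b ⊕ Fin b ⊕ T → ℕ) : Fin b → ℤ :=
  fun i => (m (Sum.inl i) : ℤ) - m (Sum.inr (Sum.inl i))

theorem dv_add {b : ℕ} {T : Finset (Fin b →₀ ℕ)} (m m' : Fin b ⊕ Fin b ⊕ T → ℕ) :
    dv (m + m') = dv m + dv m' := by
  funext i
  simp only [dv, Pi.add_apply]
  push_cast
  ring

theorem rays {b : ℕ} (T : Finset (Fin b →₀ ℕ)) (hT : T.Nonempty)
    (hprim : ∀ w : Fin b → ℤ, w ≠ 0 → ∃ (g : ℤ) (w' : Fin b → ℤ), 0 < g ∧
      (∃ c : Fin b → ℤ, ∑ i, w' i * c i = 1) ∧ ∀ i, w i = g * w' i) :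
    ∃ S : Finset (Fin b → ℤ), (∀ ν ∈ S, ∃ c : Fin b → ℤ, ∑ i, ν i * c i = 1) ∧
      ∀ w : Fin b → ℤ, ∃ v ∈ T, ∃ n : (Fin b → ℤ) → ℕ, w = ∑ ν ∈ S, n ν • ν ∧
        ∀ ν ∈ S, n ν ≠ 0 → ∀ t ∈ T, pw ν v ≤ pw ν t := by
  classical
  choose! g w' hg hw' hgw using hprim
  -- the homomorphisms
  let φ : (v : Fin b →₀ ℕ) → ((Fin b ⊕ Fin b ⊕ T → ℕ) →+ (T → ℤ)) := fun v =>
    { toFun := fun m t => pw (dv m) t - pw (dv m) v
      map_zero' := by
        funext t
        simp [pw, dv]
      map_add' := fun m m' => by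
        funext t
        simp only [dv_add, pw_add, Pi.add_apply]
        ring }
  let ψ : (Fin b ⊕ Fin b ⊕ T → ℕ) →+ (T → ℤ) :=
    { toFun := fun m t => (m (Sum.inr (Sum.inr t)) : ℤ)
      map_zero' := by
        funext t
        simp
      map_add' := fun m m' => by
        funext t
        simp }
  have hfg := fun v => AddSubmonoid.fg_eqLocusM (φ v) ψ
  choose G hG using hfg
  -- the rays
  set S : Finset (Fin b → ℤ) := T.biUnion fun v => ((G v).filter fun m => dv m ≠ 0).image
    fun m => w' (dv m) with hS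
  refine ⟨S, ?_, ?_⟩
  · intro ν hν
    obtain ⟨v, hv, hν⟩ := Finset.mem_biUnion.1 hν
    obtain ⟨m, hm, rfl⟩ := Finset.mem_image.1 hν
    exact hw' _ (Finset.mem_filter.1 hm).2
  · intro w
    obtain ⟨v, hv, hmin⟩ := Finset.exists_min_image T (fun t => pw w t) hT
    refine ⟨v, hv, ?_⟩
    set m : Fin b ⊕ Fin b ⊕ T → ℕ := Sum.elim (fun i => (w i).toNat)
      (Sum.elim (fun i => (-w i).toNat) fun t => (pw w t - pw w v).toNat) with hm
    have hdv : dv m = w := by
      funext i
      simp only [dv, hm, Sum.elim_inl, Sum.elim_inr]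
      omega
    have hmem : m ∈ AddMonoidHom.eqLocusM (φ v) ψ := by
      change φ v m = ψ m
      funext t
      change pw (dv m) t - pw (dv m) v = ((m (Sum.inr (Sum.inr t)) : ℕ) : ℤ)
      rw [hdv]
      simp only [hm, Sum.elim_inr]
      have := hmin t.1 t.2
      omega
    rw [← hG v] at hmem
    rw [← hdv]
    clear_value m
    clear hdv hm
    induction hmem using AddSubmonoid.closure_induction with
    | mem m hm =>
      have hloc : m ∈ AddMonoidHom.eqLocusM (φ v) ψ := by
        rw [← hG v]
        exact AddSubmonoid.subset_closure hm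
      by_cases h0 : dv m = 0
      · exact ⟨fun _ => 0, by rw [h0]; simp, fun ν _ h => absurd rfl h⟩
      · have hin : w' (dv m) ∈ S := Finset.mem_biUnion.2 ⟨v, hv, Finset.mem_image.2
          ⟨m, Finset.mem_filter.2 ⟨hm, h0⟩, rfl⟩⟩
        have hgp := hg _ h0
        refine ⟨fun ν => if ν = w' (dv m) then (g (dv m)).toNat else 0, ?_, ?_⟩
        · rw [Finset.sum_eq_single (w' (dv m))]
          · beta_reduce
            rw [if_pos rfl]
            funext i
            rw [Pi.smul_apply, nsmul_eq_mul, hgw _ h0 i]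
            congr 1
            exact (Int.toNat_of_nonneg hgp.le).symm
          · intro ν _ hne
            beta_reduce
            rw [if_neg hne, zero_smul]
          · intro h
            exact absurd hin h
        · intro ν _ hne t ht
          have hν : ν = w' (dv m) := by
            by_contra hc
            beta_reduce at hne
            rw [if_neg hc] at hne
            exact hne rfl
          subst hν
          have h1 : pw (dv m) t - pw (dv m) v = ((m (Sum.inr (Sum.inr ⟨t, ht⟩)) : ℕ) : ℤ) :=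
            congrFun hloc ⟨t, ht⟩
          have h2 : ∀ c, pw (dv m) c = g (dv m) * pw (w' (dv m)) c := by
            intro c
            unfold pw
            rw [Finset.mul_sum]
            exact Finset.sum_congr rfl fun i _ => by rw [hgw _ h0 i]; ring
          rw [h2, h2, ← mul_sub] at h1
          by_contra hcon
          push Not at hcon
          have h3 : g (dv m) * (pw (w' (dv m)) t - pw (w' (dv m)) v) < 0 :=
            mul_neg_of_pos_of_neg hgp (by linarith)
          rw [h1] at h3
          omega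
    | zero =>
      exact ⟨fun _ => 0, by funext i; simp [dv], fun ν _ h => absurd rfl h⟩
    | add x y _ _ hx hy =>
      obtain ⟨n, h1, h2⟩ := hx
      obtain ⟨n', h1', h2'⟩ := hy
      refine ⟨fun ν => n ν + n' ν, ?_, ?_⟩
      · rw [dv_add, h1, h1', ← Finset.sum_add_distrib]
        exact Finset.sum_congr rfl fun ν _ => (add_smul _ _ _).symm
      · intro ν hν hne t ht
        beta_reduce at hne
        rcases Nat.eq_zero_or_pos (n ν) with h | h
        · exact h2' ν hν (by omega) t ht
        · exact h2 ν hν (by omega) t ht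

end Pool.Agent.R392.NW
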