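import Pool.Agent.R392.NW.Exc

/-!
Meromorphic functions which are algebraic over fields generated by exponentials of entire
functions.
-/

set_option autoImplicit false
set_option linter.unusedSectionVars false

open Pool.Agent.Y192.OG

namespace Pool.Agent.R392.NW

section basics

variable {N : ℕ}

/-- the exponentials as units of the field of meromorphic functions -/
noncomputable def exs (u : Hol) : Merˣ := Units.mk0 (ex u) (ex_ne u)

theorem exs_val (u : Hol) : (exs u : Mer) = ex u := rfl

/-- the exponentials as a homomorphism -/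
noncomputable def exM : Multiplicative Hol →* Merˣ where
  toFun u := exs u.toAdd
  map_one' := Units.ext ex_zero
  map_mul' u v := Units.ext (ex_add u.toAdd v.toAdd)

theorem ex_comb (u : Fin N → Hol) (n : Fin N → ℤ) :
    ex (∑ i, n i • u i) = (xm (fun i => exs (u i)) n : Mer) := by
  have h1 : exM (Multiplicative.ofAdd (∑ i, n i • u i)) = xm (fun i => exs (u i)) n := by
    rw [ofAdd_sum, map_prod]
    unfold xm
    refine Finset.prod_congr rfl fun i _ => ?_
    rw [ofAdd_zsmul, map_zpow]
    rfl
  rw [← h1]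
  rfl

theorem ex_nsmul (m : ℕ) (u : Hol) : ex (m • u) = ex u ^ m := by
  induction m with
  | zero => rw [zero_smul, ex_zero, pow_zero]
  | succ m ih => rw [succ_nsmul, ex_add, ih, pow_succ]

/-- the field generated by exponentials -/
noncomputable def EF (u : Fin N → Hol) : IntermediateField ℂ Mer :=
  IntermediateField.adjoin ℂ (Set.range fun i => ex (u i))

theorem mem_EF (u : Fin N → Hol) (i : Fin N) : ex (u i) ∈ EF u :=
  IntermediateField.subset_adjoin _ _ ⟨i, rfl⟩

theorem comb_mem_EF (u : Fin N → Hol) (n : Fin N → ℤ) : ex (∑ i, n i • u i) ∈ EF u := by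
  rw [ex_comb]
  unfold xm
  rw [Units.coe_prod]
  refine prod_mem fun i _ => ?_
  rw [Units.val_zpow_eq_zpow_val]
  exact zpow_mem (mem_EF u i) _

/-- scaling the exponents -/
noncomputable def sc (m : ℕ) (u : Fin N → Hol) : Fin N → Hol := fun i => (m : ℂ)⁻¹ • u i

theorem sc_sc (m m' : ℕ) (u : Fin N → Hol) : sc m' (sc m u) = sc (m * m') u := by
  funext i
  unfold sc
  rw [smul_smul]
  congr 1
  push_cast
  rw [mul_inv]
  ring

theorem nsmul_sc (m : ℕ) (hm : 1 ≤ m) (u : Fin N → Hol) (i : Fin N) : m • sc m u i = u i := by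
  unfold sc
  have h1 : (m : ℂ) ≠ 0 := by exact_mod_cast (by omega : m ≠ 0)
  rw [← Nat.cast_smul_eq_nsmul ℂ, smul_smul, mul_inv_cancel₀ h1, one_smul]

theorem EF_le (m : ℕ) (hm : 1 ≤ m) (u : Fin N → Hol) : EF u ≤ EF (sc m u) := by
  unfold EF
  rw [IntermediateField.adjoin_le_iff]
  rintro _ ⟨i, rfl⟩
  change ex (u i) ∈ EF (sc m u)
  rw [← nsmul_sc m hm u i, ex_nsmul]
  exact pow_mem (mem_EF _ i) _

theorem sc_one (u : Fin N → Hol) : sc 1 u = u := by
  funext i
  unfold sc
  rw [Nat.cast_one, inv_one, one_smul]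

/-- roots of independent exponentials are independent -/
theorem ind_sc (u : Fin N → Hol) (hind : AlgebraicIndependent ℂ (fun i => ex (u i))) (m : ℕ)
    (hm : 1 ≤ m) : AlgebraicIndependent ℂ (fun i => ex (sc m u i)) := by
  set F := EF (sc m u) with hF
  let X : Fin N → F := fun i => ⟨ex (sc m u i), mem_EF _ i⟩
  let Z : Fin N → F := fun i => ⟨ex (u i), EF_le m hm u (mem_EF u i)⟩
  have hZ : AlgebraicIndependent ℂ Z := by
    have h1 : AlgebraicIndependent ℂ (F.val ∘ Z) := hind
    exact (AlgHom.algebraicIndependent_iff F.val F.val.injective).1 h1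
  have hcard : Cardinal.mk (Fin N) ≤ Algebra.trdeg ℂ F := hZ.cardinalMk_le_trdeg
  have halg : Algebra.IsAlgebraic (Algebra.adjoin ℂ (Set.range X)) F := by
    refine ⟨fun z => alg_adj _ z ?_⟩
    have h1 : z ∈ IntermediateField.adjoin ℂ (Set.range X) := by
      obtain ⟨z, hz⟩ := z
      have hz' : z ∈ IntermediateField.adjoin ℂ (Set.range fun i => ex (sc m u i)) := hz
      induction hz' using IntermediateField.adjoin_induction with
      | mem a ha =>
        obtain ⟨i, rfl⟩ := ha
        exact IntermediateField.subset_adjoin _ _ ⟨i, rfl⟩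
      | algebraMap c => exact (IntermediateField.adjoin ℂ (Set.range X)).algebraMap_mem c
      | add a b ha' hb' ha hb => exact add_mem (ha ha') (hb hb')
      | inv a ha' ha => exact inv_mem (ha ha')
      | mul a b ha' hb' ha hb => exact mul_mem (ha ha') (hb hb')
    exact isAlgebraic_algebraMap (⟨z, h1⟩ : IntermediateField.adjoin ℂ (Set.range X))
  have hbas := Algebra.IsAlgebraic.isTranscendenceBasis_of_le_trdeg_of_finite ℂ X hcard
  have h2 : AlgebraicIndependent ℂ (F.val ∘ X) :=
    (AlgHom.algebraicIndependent_iff F.val F.val.injective).2 hbas.1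
  exact h2

end basics

end Pool.Agent.R392.NW
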