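import Pool.Agent.R392.NW.Plc

/-!
The action of the derivation attached to a weight at the places over the place of the weight.
-/

set_option autoImplicit false
set_option linter.unusedSectionVars false

open FF MvPolynomial Pool.Agent.W603.LV Pool.Agent.TH122.AB Pool.Agent.Y192.OG

namespace Pool.Agent.R392.NW

section

variable {k F K : Type} [Field k] [CharZero k] [Field F] [Field K] [Algebra k F] [Algebra k K]
  [Algebra F K] [IsScalarTower k F K] [FiniteDimensional F K] {b : ℕ} {X : Fin b → F}

/-- the part of weight `α` of a polynomial -/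
noncomputable def hp (w : Fin b → ℤ) (α : ℤ) (A : MvPolynomial (Fin b) k) :
    MvPolynomial (Fin b) k := by
  classical
  exact ∑ c ∈ A.support.filter (fun c => tw w c = α), monomial c (coeff c A)

theorem hp_coeff (w : Fin b → ℤ) (α : ℤ) (A : MvPolynomial (Fin b) k) (c : Fin b →₀ ℕ)
    [Decidable (tw w c = α)] :
    coeff c (hp w α A) = if tw w c = α then coeff c A else 0 := by
  classical
  unfold hp
  rw [coeff_sum]
  simp only [coeff_monomial]
  rw [Finset.sum_ite_eq']
  split_ifs with h1 h2 h2
  · rfl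
  · exact absurd (Finset.mem_filter.1 h1).2 h2
  · by_contra h3
    exact h1 (Finset.mem_filter.2 ⟨mem_support_iff.2 (Ne.symm h3), h2⟩)
  · rfl

theorem D_hp (D : Derivation k K K) {w : Fin b → ℤ}
    (hD : ∀ i, D (algebraMap F K (X i)) = (w i : K) * algebraMap F K (X i)) (α : ℤ)
    (A : MvPolynomial (Fin b) k) :
    D (algebraMap F K (aeval X (hp w α A))) = (α : K) * algebraMap F K (aeval X (hp w α A)) := by
  classical
  unfold hp
  rw [map_sum, map_sum, map_sum, Finset.mul_sum]
  refine Finset.sum_congr rfl fun c hc => ?_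
  have hc' := (Finset.mem_filter.1 hc).2
  have hmono : algebraMap F K (aeval X (monomial c (coeff c A))) =
      algebraMap k K (coeff c A) * ∏ i, algebraMap F K (X i) ^ c i := by
    rw [aeval_monomial, map_mul, ← IsScalarTower.algebraMap_apply, Finsupp.prod_fintype _ _
      (fun i => pow_zero _), map_prod]
    congr 1
    exact Finset.prod_congr rfl fun i _ => map_pow _ _ _
  rw [hmono, D.leibniz, D.map_algebraMap, smul_zero, add_zero, smul_eq_mul]
  have h1 := Pool.Agent.Y46.OG.der_mono (D.restrictScalars ℤ) (x := fun i => algebraMap F K (X i))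
    (ε := fun i => (w i : K)) hD (fun i => c i) Finset.univ
  have h2 : D (∏ i, algebraMap F K (X i) ^ c i) = (∑ i, (c i : K) * (w i : K)) *
      ∏ i, algebraMap F K (X i) ^ c i := h1
  have h3 : (∑ i, (c i : K) * (w i : K)) = (α : K) := by
    rw [← hc']
    unfold tw
    push_cast
    exact Finset.sum_congr rfl fun i _ => mul_comm _ _
  rw [h2, h3]
  ring

/-- polynomials whose coefficients are homogeneous -/
def Hm (D : Derivation k K K) (q : Place k F) (α : ℤ) (Q : Polynomial F) : Prop :=
  ∀ n, D (algebraMap F K (Q.coeff n)) = (α : K) * algebraMap F K (Q.coeff n) ∧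
    (Q.coeff n = 0 ∨ q.ord (Q.coeff n) = α)

theorem Hm.der {D : Derivation k K K} {q : Place k F} {α : ℤ} {Q : Polynomial F}
    (h : Hm D q α Q) : Hm D q α (Polynomial.derivative Q) := by
  intro n
  rw [Polynomial.coeff_derivative]
  have h1 := h (n + 1)
  have h2 : algebraMap F K (Q.coeff (n + 1) * ((n : F) + 1)) =
      algebraMap k K ((n : k) + 1) * algebraMap F K (Q.coeff (n + 1)) := by
    rw [map_mul, map_add, map_natCast, map_one, map_add, map_natCast, map_one, mul_comm]
  refine ⟨?_, ?_⟩
  · rw [h2, D.leibniz, D.map_algebraMap, h1.1, smul_zero, add_zero, smul_eq_mul]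
    ring
  · rcases h1.2 with h3 | h3
    · left
      rw [h3, zero_mul]
    · by_cases h4 : Q.coeff (n + 1) = 0
      · left
        rw [h4, zero_mul]
      right
      have h5 : ((n : F) + 1) = algebraMap k F ((n : k) + 1) := by
        rw [map_add, map_natCast, map_one]
      have h6 : ((n : k) + 1) ≠ 0 := by exact_mod_cast Nat.succ_ne_zero n
      rw [q.ord_mul h4 (by rw [h5]; exact (map_ne_zero _).2 h6), h3, h5, q.ord_const h6, add_zero]

theorem Hm.D_aeval {D : Derivation k K K} {q : Place k F} {α : ℤ} {Q : Polynomial F}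
    (h : Hm D q α Q) (y : K) : D (Polynomial.aeval y Q) =
      (α : K) * Polynomial.aeval y Q + Polynomial.aeval y (Polynomial.derivative Q) * D y := by
  have h1 : Polynomial.aeval y (Polynomial.derivative Q) =
      ∑ i ∈ Finset.range (Q.natDegree + 1), algebraMap F K (Q.coeff i) * ((i : K) * y ^ (i - 1)) := by
    conv_lhs => rw [Q.as_sum_range]
    rw [map_sum, map_sum]
    refine Finset.sum_congr rfl fun i _ => ?_
    rw [Polynomial.derivative_monomial, Polynomial.aeval_monomial, map_mul, map_natCast, mul_assoc]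
  rw [h1, Polynomial.aeval_eq_sum_range, map_sum, Finset.mul_sum, Finset.sum_mul,
    ← Finset.sum_add_distrib]
  refine Finset.sum_congr rfl fun i _ => ?_
  rw [Algebra.smul_def, D.leibniz, D.leibniz_pow, (h i).1]
  simp only [smul_eq_mul, nsmul_eq_mul]
  ring

theorem Hm.ord {D : Derivation k K K} {q : Place k F} {α : ℤ} {Q : Polynomial F}
    (h : Hm D q α Q) {P : Place k K} {e : ℕ} (hO : Over P q e) {y : K} (hy : Ge P 0 y) :
    Ge P (e * α) (Polynomial.aeval y Q) := by
  rw [Polynomial.aeval_eq_sum_range]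
  refine Ge.sum _ _ fun i _ => ?_
  rw [Algebra.smul_def]
  have h1 : Ge q α (Q.coeff i) := (h i).2.imp id fun h => h.ge
  have h2 := (ge_over hO h1).mul (hy.pow i)
  rwa [mul_zero, add_zero] at h2

/-- the residue of a function of order zero satisfies an equation with homogeneous coefficients -/
theorem exists_hm (hG : Gens (k := k) X) (D : Derivation k K K) {w : Fin b → ℤ}
    (hD : ∀ i, D (algebraMap F K (X i)) = (w i : K) * algebraMap F K (X i))
    {q : Place k F} (hq : IsTor X w q) {P : Place k K} {e : ℕ} (hO : Over P q e) {y : K}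
    (hy : Ge P 0 y) : ∃ (α : ℤ) (Q : Polynomial F), Q ≠ 0 ∧ Hm D q α Q ∧
      Ge P (e * α + 1) (Polynomial.aeval y Q) := by
  classical
  have hint : IsIntegral F y := Algebra.IsIntegral.isIntegral y
  set g := minpoly F y with hg
  have hg0 : g ≠ 0 := minpoly.ne_zero hint
  choose n d hd hnd using fun i : ℕ => hG.gen (g.coeff i)
  set I := Finset.range (g.natDegree + 1) with hI
  set A : ℕ → MvPolynomial (Fin b) k := fun i => n i * ∏ j ∈ I.erase i, d j with hA
  set M : F := aeval X (∏ j ∈ I, d j) with hM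
  have hM0 : M ≠ 0 := hG.ne (Finset.prod_ne_zero_iff.2 fun j _ => hd j)
  have hAM : ∀ i ∈ I, aeval X (A i) = M * g.coeff i := by
    intro i hi
    rw [hM, ← Finset.mul_prod_erase _ _ hi, hnd i]
    simp only [hA, map_mul]
    have := hG.ne (hd i)
    field_simp
  have hsum : ∑ i ∈ I, algebraMap F K (aeval X (A i)) * y ^ i = 0 := by
    have h1 : Polynomial.aeval y g = 0 := minpoly.aeval F y
    rw [Polynomial.aeval_eq_sum_range] at h1
    calc ∑ i ∈ I, algebraMap F K (aeval X (A i)) * y ^ i
        = algebraMap F K M * ∑ i ∈ I, g.coeff i • y ^ i := by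
          rw [Finset.mul_sum]
          refine Finset.sum_congr rfl fun i hi => ?_
          rw [hAM i hi, Algebra.smul_def, map_mul]
          ring
      _ = 0 := by rw [h1, mul_zero]
  have hne : (I.filter fun i => A i ≠ 0).Nonempty := by
    refine ⟨g.natDegree, Finset.mem_filter.2 ⟨Finset.mem_range.2 (Nat.lt_succ_self _), fun h0 => ?_⟩⟩
    have h1 := hAM g.natDegree (Finset.mem_range.2 (Nat.lt_succ_self _))
    rw [h0, map_zero] at h1
    have h2 : g.coeff g.natDegree ≠ 0 := by
      rw [Polynomial.coeff_natDegree]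
      exact Polynomial.leadingCoeff_ne_zero.2 hg0
    exact (mul_ne_zero hM0 h2) h1.symm
  obtain ⟨i0, hi0, hmin⟩ := Finset.exists_min_image _ (fun i => q.ord (aeval X (A i))) hne
  set α := q.ord (aeval X (A i0)) with hα
  have hi0' := Finset.mem_filter.1 hi0
  have hge : ∀ i ∈ I, ∀ c ∈ (A i).support, α ≤ tw w c := by
    intro i hi c hc
    have h0 : A i ≠ 0 := by
      rintro h0
      rw [h0] at hc
      simp at hc
    exact (hmin i (Finset.mem_filter.2 ⟨hi, h0⟩)).trans ((hq (A i) h0).1 c hc)
  set Q : Polynomial F := ∑ i ∈ I, Polynomial.monomial i (aeval X (hp w α (A i))) with hQ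
  have hQc : ∀ i, Q.coeff i = if i ∈ I then aeval X (hp w α (A i)) else 0 := by
    intro i
    rw [hQ, Polynomial.finsetSum_coeff]
    simp only [Polynomial.coeff_monomial]
    rw [Finset.sum_ite_eq']
  have hhp : ∀ A : MvPolynomial (Fin b) k, hp w α A = 0 ∨ q.ord (aeval X (hp w α A)) = α := by
    intro A
    by_cases h0 : hp w α A = 0
    · exact Or.inl h0
    right
    obtain ⟨-, c, hc, h1⟩ := hq _ h0
    rw [h1]
    rw [mem_support_iff, hp_coeff] at hc
    by_contra h2
    rw [if_neg h2] at hc
    exact hc rfl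
  refine ⟨α, Q, ?_, ?_, ?_⟩
  · intro h0
    have h1 := hQc i0
    rw [if_pos hi0'.1, h0, Polynomial.coeff_zero] at h1
    obtain ⟨-, c, hc, h2⟩ := hq _ hi0'.2
    have h3 : coeff c (hp w α (A i0)) = coeff c (A i0) := by
      rw [hp_coeff, if_pos (by rw [hα]; exact h2.symm)]
    have h4 : hp w α (A i0) ≠ 0 := by
      intro h5
      rw [h5, coeff_zero] at h3
      exact (mem_support_iff.1 hc) h3.symm
    exact hG.ne h4 h1.symm
  · intro i
    rw [hQc i]
    split_ifs with hi
    · refine ⟨D_hp D hD α (A i), ?_⟩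
      rcases hhp (A i) with h | h
      · left
        rw [h, map_zero]
      · exact Or.inr h
    · exact ⟨by simp, Or.inl rfl⟩
  · have h1 : Polynomial.aeval y Q = -∑ i ∈ I, algebraMap F K (aeval X (A i - hp w α (A i))) * y ^ i := by
      have h2 : Polynomial.aeval y Q = ∑ i ∈ I, algebraMap F K (aeval X (hp w α (A i))) * y ^ i := by
        rw [hQ, map_sum]
        exact Finset.sum_congr rfl fun i _ => by rw [Polynomial.aeval_monomial]
      rw [h2, eq_neg_iff_add_eq_zero, ← Finset.sum_add_distrib, ← hsum]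
      refine Finset.sum_congr rfl fun i _ => ?_
      rw [map_sub, map_sub]
      ring
    rw [h1]
    refine Ge.neg (Ge.sum _ _ fun i hi => ?_)
    have h2 : Ge q (α + 1) (aeval X (A i - hp w α (A i))) := by
      by_cases h0 : A i - hp w α (A i) = 0
      · left
        rw [h0, map_zero]
      right
      obtain ⟨-, c, hc, h3⟩ := hq _ h0
      rw [h3]
      rw [mem_support_iff, coeff_sub, hp_coeff] at hc
      by_cases h4 : tw w c = α
      · rw [if_pos h4, sub_self] at hc
        exact absurd rfl hc
      · rw [if_neg h4, sub_zero] at hc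
        have := hge i hi c (mem_support_iff.2 hc)
        omega
    have h3 := (ge_over hO h2).mul (hy.pow i)
    refine h3.mono ?_
    have := hO.1
    have h4 : (1 : ℤ) ≤ e := by exact_mod_cast hO.1
    nlinarith

/-- the derivative of a function of order zero vanishes at the place -/
theorem der_unit (hG : Gens (k := k) X) (D : Derivation k K K) {w : Fin b → ℤ}
    (hD : ∀ i, D (algebraMap F K (X i)) = (w i : K) * algebraMap F K (X i))
    {q : Place k F} (hq : IsTor X w q) {P : Place k K} {e : ℕ} (hO : Over P q e) {y : K}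
    (hy : Ge P 0 y) : Ge P 1 (D y) := by
  classical
  have hD' : ∀ i, ∃ ε : k, D (algebraMap F K (X i)) = algebraMap k K ε * algebraMap F K (X i) :=
    fun i => ⟨(w i : k), by rw [hD i, map_intCast]⟩
  have hex : ∃ n : ℕ, ∃ (α : ℤ) (Q : Polynomial F), Q ≠ 0 ∧ Hm D q α Q ∧
      Ge P (e * α + 1) (Polynomial.aeval y Q) ∧ Q.natDegree = n := by
    obtain ⟨α, Q, h1, h2, h3⟩ := exists_hm hG D hD hq hO hy
    exact ⟨_, α, Q, h1, h2, h3, rfl⟩
  obtain ⟨α, Q, hQ0, hQ, hQy, hQn⟩ := Nat.find_spec hex
  have hmin := fun m (hm : m < Nat.find hex) => Nat.find_min hex hm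
  -- the degree is positive
  have hn : Q.natDegree ≠ 0 := by
    intro h0
    obtain ⟨c, hc⟩ := Polynomial.natDegree_eq_zero.1 h0
    have hc0 : c ≠ 0 := by
      rintro rfl
      exact hQ0 (by rw [← hc, Polynomial.C_0])
    have h1 := (hQ 0).2
    rw [← hc, Polynomial.coeff_C_zero] at h1
    rw [← hc, Polynomial.aeval_C] at hQy
    rcases hQy with h2 | h2
    · exact hc0 (by simpa using h2)
    · rw [hO.2, h1.resolve_left hc0] at h2
      omega
  have haF : CharZero F := charZero_of_injective_algebraMap (algebraMap k F).injective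
  have hd0 : Polynomial.derivative Q ≠ 0 := by
    intro h0
    exact hn (Polynomial.derivative_eq_zero.1 h0)
  have hdlt : (Polynomial.derivative Q).natDegree < Nat.find hex := by
    rw [← hQn]
    exact Polynomial.natDegree_derivative_lt hn
  have h1 : ¬ Ge P (e * α + 1) (Polynomial.aeval y (Polynomial.derivative Q)) := fun h =>
    hmin _ hdlt ⟨α, _, hd0, hQ.der, h, rfl⟩
  have h2 := hQ.D_aeval y
  have h3 : Ge P (e * α + 1) (D (Polynomial.aeval y Q)) := der_tor hG D hD' hq hO hQy
  have h4 : Ge P (e * α + 1) ((α : K) * Polynomial.aeval y Q) := by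
    have := (Ge.intCast (P := P) α).mul hQy
    rwa [zero_add] at this
  have h5 : Ge P (e * α + 1) (Polynomial.aeval y (Polynomial.derivative Q) * D y) := by
    have h6 : Polynomial.aeval y (Polynomial.derivative Q) * D y =
        D (Polynomial.aeval y Q) - (α : K) * Polynomial.aeval y Q := by rw [h2]; ring
    rw [h6]
    exact h3.sub h4
  unfold Ge at h1
  push Not at h1
  by_cases h7 : D y = 0
  · exact Or.inl h7
  right
  have h8 := h5.resolve_left (mul_ne_zero h1.1 h7)
  rw [P.ord_mul h1.1 h7] at h8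
  omega

/-- The derivation of a weight acts on the leading term of a function by multiplication by its
order. -/
theorem lower (hG : Gens (k := k) X) (D : Derivation k K K) {w : Fin b → ℤ}
    (hD : ∀ i, D (algebraMap F K (X i)) = (w i : K) * algebraMap F K (X i)) (hw : Prim w)
    {q : Place k F} (hq : IsTor X w q) {P : Place k K} {e : ℕ} (hO : Over P q e) {h : K}
    (hh : h ≠ 0) : Ge P (P.ord h + 1) ((e : K) * D h - (P.ord h : K) * h) := by
  classical
  obtain ⟨c, hc⟩ := hw
  have hX0 : ∀ i, algebraMap F K (X i) ≠ 0 := fun i => by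
    simpa using Pool.Agent.Y500.OG.X_ne hG i
  set u : Fin b → Kˣ := fun i => Units.mk0 _ (hX0 i) with hu
  set m : Kˣ := ∏ i, u i ^ c i with hm
  set η : Kˣ := Units.mk0 h hh with hη
  set y : Kˣ := η ^ e * m ^ (-P.ord h) with hy
  have hldm : (ld D m).toAdd = 1 := by
    rw [hm, map_prod]
    rw [toAdd_prod]
    simp only [map_zpow, toAdd_zpow, ld_apply]
    have h1 : ∀ i, D (u i : K) / (u i : K) = (w i : K) := by
      intro i
      change D (algebraMap F K (X i)) / algebraMap F K (X i) = _
      rw [hD i]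
      field_simp [hX0 i]
    simp only [h1, zsmul_eq_mul]
    have h2 : ((∑ i, w i * c i : ℤ) : K) = 1 := by rw [hc, Int.cast_one]
    rw [← h2]
    push_cast
    exact Finset.sum_congr rfl fun i _ => mul_comm _ _
  have hordm : P.ord (m : K) = e := by
    have h1 : (m : K) = algebraMap F K (∏ i, X i ^ c i) := by
      rw [hm, Units.coe_prod, map_prod]
      refine Finset.prod_congr rfl fun i _ => ?_
      rw [Units.val_zpow_eq_zpow_val, map_zpow₀]
      rfl
    rw [h1, hO.2, Pool.Agent.Y500.OG.ord_prod q _ _ fun i _ =>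
      zpow_ne_zero _ (Pool.Agent.Y500.OG.X_ne hG i)]
    have h2 : ∑ i, q.ord (X i ^ c i) = 1 := by
      rw [← hc]
      refine Finset.sum_congr rfl fun i _ => ?_
      rw [q.ord_zpow, Pool.Agent.Y500.OG.tor_X hq, mul_comm]
    rw [h2, mul_one]
  have hyord : P.ord (y : K) = 0 := by
    rw [hy, Units.val_mul, Units.val_pow_eq_pow_val, Units.val_zpow_eq_zpow_val,
      P.ord_mul (pow_ne_zero _ (Units.ne_zero _)) (zpow_ne_zero _ (Units.ne_zero _)), P.ord_pow,
      P.ord_zpow, hordm]
    change (e : ℤ) * P.ord h + -P.ord h * e = 0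
    ring
  have hldy : (ld D y).toAdd = (e : K) * (D h / h) - (P.ord h : K) := by
    rw [hy, map_mul, map_pow, map_zpow, toAdd_mul, toAdd_pow, toAdd_zpow, hldm, ld_apply]
    change e • (D h / h) + -P.ord h • (1 : K) = _
    rw [nsmul_eq_mul, neg_smul, zsmul_eq_mul, mul_one]
    ring
  have h1 : Ge P 1 (D (y : K)) := der_unit hG D hD hq hO (Or.inr hyord.ge)
  have h2 : Ge P 1 ((ld D y).toAdd) := by
    rw [ld_apply, div_eq_mul_inv]
    have h3 : Ge P 0 ((y : K)⁻¹) := Or.inr (by rw [P.ord_inv, hyord, neg_zero])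
    have := h1.mul h3
    rwa [add_zero] at this
  rw [hldy] at h2
  have h3 := (show Ge P (P.ord h) h from Or.inr le_rfl).mul h2
  have h4 : h * ((e : K) * (D h / h) - (P.ord h : K)) = (e : K) * D h - (P.ord h : K) * h := by
    field_simp
  rwa [h4] at h3

end

end Pool.Agent.R392.NW
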