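import Pool.Agent.R392.NW.Ray
import Pool.Agent.Y141.OG.Sqp

/-!
Products of first order operators, and functions with zeros along the boundary.
-/

set_option autoImplicit false
set_option linter.unusedSectionVars false

open FF MvPolynomial Pool.Agent.W603.LV Pool.Agent.TH122.AB Pool.Agent.Y192.OG

namespace Pool.Agent.R392.NW

section defs

variable {k K : Type} [Field k] [Field K] [Algebra k K] {b : ℕ}

/-- the derivation of a weight -/
noncomputable def Dw (D : Fin b → Derivation k K K) (w : Fin b → ℤ) : Derivation k K K :=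
  ∑ j, (w j : K) • D j

theorem Dw_apply (D : Fin b → Derivation k K K) (w : Fin b → ℤ) (h : K) :
    Dw D w h = ∑ j, (w j : K) * D j h := by
  unfold Dw
  rw [← Derivation.coeFnAddMonoidHom_apply, map_sum, Finset.sum_apply]
  rfl

/-- the first order operator -/
noncomputable def Tp (D : Fin b → Derivation k K K) (M : ℕ) (x : (Fin b → ℤ) × ℤ) (h : K) : K :=
  (M : K) * Dw D x.1 h - (x.2 : K) * h

/-- the product of the operators in a list -/
noncomputable def app (D : Fin b → Derivation k K K) (M : ℕ) (S : List ((Fin b → ℤ) × ℤ))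
    (h : K) : K := S.foldl (fun h x => Tp D M x h) h

theorem app_nil (D : Fin b → Derivation k K K) (M : ℕ) (h : K) : app D M [] h = h := rfl

theorem app_cons (D : Fin b → Derivation k K K) (M : ℕ) (x : (Fin b → ℤ) × ℤ)
    (S : List ((Fin b → ℤ) × ℤ)) (h : K) : app D M (x :: S) h = app D M S (Tp D M x h) := rfl

theorem app_append (D : Fin b → Derivation k K K) (M : ℕ) (S S' : List ((Fin b → ℤ) × ℤ)) (h : K) :
    app D M (S ++ S') h = app D M S' (app D M S h) := List.foldl_append

theorem Tp_zero (D : Fin b → Derivation k K K) (M : ℕ) (x : (Fin b → ℤ) × ℤ) : Tp D M x 0 = 0 := by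
  unfold Tp
  rw [map_zero, mul_zero, mul_zero, sub_zero]

theorem app_zero (D : Fin b → Derivation k K K) (M : ℕ) (S : List ((Fin b → ℤ) × ℤ)) :
    app D M S 0 = 0 := by
  induction S with
  | nil => rfl
  | cons x S ih => rw [app_cons, Tp_zero, ih]

end defs

section

variable {k F K : Type} [Field k] [CharZero k] [Field F] [Field K] [Algebra k F] [Algebra k K]
  [Algebra F K] [IsScalarTower k F K] [FiniteDimensional F K] {b : ℕ} {X : Fin b → F}

/-- the coordinate derivations -/
def Cd (X : Fin b → F) (D : Fin b → Derivation k K K) : Prop :=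
  ∀ i j, D j (algebraMap F K (X i)) = if i = j then algebraMap F K (X i) else 0

theorem Cd.dw {D : Fin b → Derivation k K K} (hD : Cd X D) (w : Fin b → ℤ) (i : Fin b) :
    Dw D w (algebraMap F K (X i)) = (w i : K) * algebraMap F K (X i) := by
  rw [Dw_apply, Finset.sum_eq_single i]
  · rw [hD i i, if_pos rfl]
  · intro j _ hj
    rw [hD i j, if_neg (Ne.symm hj), mul_zero]
  · intro h
    exact absurd (Finset.mem_univ i) h

theorem Cd.dw' {D : Fin b → Derivation k K K} (hD : Cd X D) (w : Fin b → ℤ) (i : Fin b) :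
    ∃ ε : k, Dw D w (algebraMap F K (X i)) = algebraMap k K ε * algebraMap F K (X i) :=
  ⟨(w i : k), by rw [hD.dw, map_intCast]⟩

theorem Cd.d' {D : Fin b → Derivation k K K} (hD : Cd X D) (j i : Fin b) :
    ∃ ε : k, D j (algebraMap F K (X i)) = algebraMap k K ε * algebraMap F K (X i) := by
  rw [hD i j]
  split_ifs
  · exact ⟨1, by rw [map_one, one_mul]⟩
  · exact ⟨0, by rw [map_zero, zero_mul]⟩

variable {D : Fin b → Derivation k K K} {M : ℕ}

theorem tp_tor (hG : Gens (k := k) X) (hD : Cd X D) {w : Fin b → ℤ} {q : Place k F}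
    (hq : IsTor X w q) {P : Place k K} {e : ℕ} (hO : Over P q e) {N : ℤ}
    (x : (Fin b → ℤ) × ℤ) {h : K} (hh : Ge P N h) : Ge P N (Tp D M x h) := by
  have h1 := (Ge.natCast (P := P) M).mul (der_tor hG (Dw D x.1) (hD.dw' x.1) hq hO hh)
  have h2 := (Ge.intCast (P := P) x.2).mul hh
  rw [zero_add] at h1 h2
  exact h1.sub h2

theorem app_tor (hG : Gens (k := k) X) (hD : Cd X D) {w : Fin b → ℤ} {q : Place k F}
    (hq : IsTor X w q) {P : Place k K} {e : ℕ} (hO : Over P q e) {N : ℤ}
    (S : List ((Fin b → ℤ) × ℤ)) : ∀ {h : K}, Ge P N h → Ge P N (app D M S h) := by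
  induction S with
  | nil => exact fun hh => hh
  | cons x S ih => exact fun hh => ih (tp_tor hG hD hq hO x hh)

theorem tp_e1 (hG : Gens (k := k) X) (hD : Cd X D) {p : MvPolynomial (Fin b) k}
    (hp : Irreducible p) {q : Place k F} (hq : IsAdic X p q)
    {P : Place k K} (hO : Over P q 1) (x : (Fin b → ℤ) × ℤ) {h : K} (hh : P.Reg h) :
    P.Reg (Tp D M x h) := by
  have h1 := (Ge.natCast (P := P) M).mul
    (show Ge P 0 _ from der_e1 hG (Dw D x.1) (hD.dw' x.1) hp hq hO hh)
  have h2 := (Ge.intCast (P := P) x.2).mul (show Ge P 0 _ from hh)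
  rw [zero_add] at h1 h2
  exact h1.sub h2

theorem app_e1 (hG : Gens (k := k) X) (hD : Cd X D) {p : MvPolynomial (Fin b) k}
    (hp : Irreducible p) {q : Place k F} (hq : IsAdic X p q)
    {P : Place k K} (hO : Over P q 1) (S : List ((Fin b → ℤ) × ℤ)) :
    ∀ {h : K}, P.Reg h → P.Reg (app D M S h) := by
  induction S with
  | nil => exact fun hh => hh
  | cons x S ih => exact fun hh => ih (tp_e1 hG hD hp hq hO x hh)

theorem tp_adic (hG : Gens (k := k) X) (hD : Cd X D) {p : MvPolynomial (Fin b) k}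
    (hp : Irreducible p) {q : Place k F} (hq : IsAdic X p q)
    {P : Place k K} {e : ℕ} (hO : Over P q e) {N : ℤ} (x : (Fin b → ℤ) × ℤ) {h : K}
    (hh : Ge P N h) : Ge P (N - e) (Tp D M x h) := by
  have h1 := (Ge.natCast (P := P) M).mul (der_adic hG (Dw D x.1) (hD.dw' x.1) hp hq hO hh)
  have h2 := (Ge.intCast (P := P) x.2).mul hh
  rw [zero_add] at h1 h2
  exact h1.sub (h2.mono (by omega))

theorem app_adic (hG : Gens (k := k) X) (hD : Cd X D) {p : MvPolynomial (Fin b) k}
    (hp : Irreducible p) {q : Place k F} (hq : IsAdic X p q)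
    {P : Place k K} {e : ℕ} (hO : Over P q e) (S : List ((Fin b → ℤ) × ℤ)) :
    ∀ {h : K} {N : ℤ}, Ge P N h → Ge P (N - e * S.length) (app D M S h) := by
  induction S with
  | nil =>
    intro h N hh
    refine hh.mono ?_
    simp
  | cons x S ih =>
    intro h N hh
    refine (ih (tp_adic hG hD hp hq hO x hh)).mono (le_of_eq ?_)
    rw [List.length_cons]
    push_cast
    ring

/-- one step at the place of the weight -/
theorem tp_step (hG : Gens (k := k) X) (hD : Cd X D) {w : Fin b → ℤ} (hw : Prim w)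
    {q : Place k F} (hq : IsTor X w q) {P : Place k K} {e : ℕ} (hO : Over P q e) {M' : ℕ}
    (hM : M = e * M') (hM0 : 1 ≤ M') {m : ℤ} {h : K} (hh : h = 0 ∨ m ≤ M' * P.ord h) :
    Tp D M (w, m) h = 0 ∨ m + 1 ≤ M' * P.ord (Tp D M (w, m) h) := by
  by_cases h0 : h = 0
  · left
    rw [h0, Tp_zero]
  have h1 := hh.resolve_left h0
  have hM0' : (1 : ℤ) ≤ M' := by exact_mod_cast hM0
  rcases eq_or_lt_of_le h1 with h2 | h2
  · have h3 : Tp D M (w, m) h = (M' : K) * ((e : K) * Dw D w h - (P.ord h : K) * h) := by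
      unfold Tp
      rw [hM, h2]
      push_cast
      ring
    have h4 := lower hG (Dw D w) (hD.dw w) hw hq hO h0
    have h5 := (Ge.natCast (P := P) M').mul h4
    rw [← h3, zero_add] at h5
    rcases h5 with h5 | h5
    · exact Or.inl h5
    · right
      nlinarith
  · have h3 := tp_tor (M := M) hG hD hq hO (w, m) (show Ge P (P.ord h) h from Or.inr le_rfl)
    rcases h3 with h3 | h3
    · exact Or.inl h3
    · right
      nlinarith

/-- the block of operators of a weight -/
def blk (w : Fin b → ℤ) (m : ℤ) (n : ℕ) : List ((Fin b → ℤ) × ℤ) :=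
  (List.range n).map fun i : ℕ => (w, m + (i : ℤ))

theorem app_blk (hG : Gens (k := k) X) (hD : Cd X D) {w : Fin b → ℤ} (hw : Prim w)
    {q : Place k F} (hq : IsTor X w q) {P : Place k K} {e : ℕ} (hO : Over P q e) {M' : ℕ}
    (hM : M = e * M') (hM0 : 1 ≤ M') {m : ℤ} {h : K} (hh : h = 0 ∨ m ≤ M' * P.ord h) (n : ℕ) :
    app D M (blk w m n) h = 0 ∨ m + n ≤ M' * P.ord (app D M (blk w m n) h) := by
  induction n with
  | zero =>
    simpa [blk, app] using hh
  | succ n ih =>
    have h1 : blk w m (n + 1) = blk w m n ++ [(w, m + n)] := by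
      unfold blk
      rw [List.range_succ, List.map_append]
      rfl
    rw [h1, app_append, app_cons, app_nil]
    have h2 := tp_step hG hD hw hq hO hM hM0 ih
    push_cast
    rw [← add_assoc]
    exact h2

/-- the list of operators attached to finitely many weights -/
noncomputable def lst (S : Finset (Fin b → ℤ)) (C M : ℕ) : List ((Fin b → ℤ) × ℤ) :=
  S.toList.flatMap fun w => blk w (-(C * M : ℕ)) (C * M + M)

theorem mem_lst {S : Finset (Fin b → ℤ)} {C M : ℕ} {x : (Fin b → ℤ) × ℤ} (hx : x ∈ lst S C M) :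
    x.1 ∈ S := by
  unfold lst at hx
  obtain ⟨w, hw, hx⟩ := List.mem_flatMap.1 hx
  unfold blk at hx
  obtain ⟨i, -, rfl⟩ := List.mem_map.1 hx
  exact Finset.mem_toList.1 hw

theorem app_lst (hG : Gens (k := k) X) (hD : Cd X D) {S : Finset (Fin b → ℤ)} {C M : ℕ}
    {w : Fin b → ℤ} (hw : Prim w) (hwS : w ∈ S) {q : Place k F} (hq : IsTor X w q)
    {P : Place k K} {e : ℕ} (hO : Over P q e) (heM : e ∣ M) (hM0 : 1 ≤ M) {h : K}
    (hh : Ge P (-(C * e)) h) : Ge P e (app D M (lst S C M) h) := by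
  obtain ⟨M', hM'⟩ := heM
  have hM'0 : 1 ≤ M' := by
    rcases Nat.eq_zero_or_pos M' with h0 | h0
    · rw [h0, mul_zero] at hM'
      omega
    · exact h0
  obtain ⟨L1, L2, hL⟩ := List.append_of_mem (Finset.mem_toList.2 hwS)
  unfold lst
  rw [hL, List.flatMap_append, List.flatMap_cons, app_append, app_append]
  refine app_tor hG hD hq hO _ ?_
  have h1 : Ge P (-(C * e)) (app D M (L1.flatMap fun w => blk w (-(C * M : ℕ)) (C * M + M)) h) :=
    app_tor hG hD hq hO _ hh
  set h' := app D M (L1.flatMap fun w => blk w (-(C * M : ℕ)) (C * M + M)) h with hh'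
  have h2 : h' = 0 ∨ (-(C * M : ℕ) : ℤ) ≤ M' * P.ord h' := by
    rcases h1 with h1 | h1
    · exact Or.inl h1
    · right
      rw [hM']
      push_cast
      nlinarith
  have h3 := app_blk hG hD hw hq hO hM' hM'0 h2 (C * M + M)
  rcases h3 with h3 | h3
  · exact Or.inl h3
  · right
    push_cast at h3 ⊢
    have h4 : (M : ℤ) ≤ M' * P.ord (app D M (blk w (-(C * M : ℕ)) (C * M + M)) h') := by
      push_cast
      linarith
    rw [hM'] at h4
    push_cast at h4
    have h5 : (0 : ℤ) < M' := by exact_mod_cast hM'0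
    rw [hM']
    push_cast
    by_contra hcon
    push Not at hcon
    nlinarith

theorem app_good (A : MvPolynomial (Fin b) k) (q : Place k F)
    (hA : ∀ h : K, (∀ (P : Place k K) (e : ℕ), Over P q e → P.Reg h) →
        ∀ j, ∀ (P : Place k K) (e : ℕ), Over P q e → P.Reg (D j h))
    (S : List ((Fin b → ℤ) × ℤ)) : ∀ {h : K},
      (∀ (P : Place k K) (e : ℕ), Over P q e → P.Reg h) →
      ∀ (P : Place k K) (e : ℕ), Over P q e → P.Reg (app D M S h) := by
  induction S with
  | nil => exact fun hh => hh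
  | cons x S ih =>
    intro h hh
    refine ih fun P e hO => ?_
    change P.Reg (Tp D M x h)
    unfold Tp
    rw [Dw_apply]
    have h1 : Ge P 0 (∑ j, (x.1 j : K) * D j h) := Ge.sum _ _ fun j _ => by
      have := (Ge.intCast (P := P) (x.1 j)).mul (show Ge P 0 _ from hA h hh j P e hO)
      rwa [zero_add] at this
    have h2 := (Ge.natCast (P := P) M).mul h1
    have h3 := (Ge.intCast (P := P) x.2).mul (show Ge P 0 _ from hh P e hO)
    rw [zero_add] at h2 h3
    exact h2.sub h3

/-- The functions with zeros along the boundary. -/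
theorem ops (hG : Gens (k := k) X) (hD : Cd X D) (w0 : K)
    (hw0 : ∀ p : MvPolynomial (Fin b) k, Irreducible p → (∀ i, ¬ (MvPolynomial.X i ∣ p)) →
      ∀ q : Place k F, IsAdic X p q → ∀ (P : Place k K) (e : ℕ), Over P q e → P.Reg w0) :
    ∃ (S : List ((Fin b → ℤ) × ℤ)) (M B κ : ℕ) (f : MvPolynomial (Fin b) k), 1 ≤ M ∧ 1 ≤ B ∧
      1 ≤ κ ∧ (∀ x ∈ S, Prim x.1) ∧ f ≠ 0 ∧ Squarefree f ∧ (∀ i, ¬ (MvPolynomial.X i ∣ f)) ∧
      (∀ p : MvPolynomial (Fin b) k, Irreducible p → (∀ i, ¬ (MvPolynomial.X i ∣ p)) →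
        ∀ q : Place k F, IsAdic X p q → ∀ (P : Place k K) (e : ℕ), Over P q e →
          P.Reg (app D M S w0 * algebraMap F K (aeval X f) ^ κ) ∧
          (e = 1 → P.Reg (app D M S w0))) ∧
      (∀ w : Fin b → ℤ, Prim w → ∀ q : Place k F, IsTor X w q →
        ∀ (P : Place k K) (e : ℕ), Over P q e → ∃ s : ℕ, (∀ i, |w i| ≤ (B : ℤ) * s) ∧
          Ge P (e * s) (app D M S w0)) := by
  classical
  obtain ⟨A, hA0, hA⟩ := good hG D (fun j i => hD.d' j i)
  obtain ⟨f, Mf, hf0, hsq, hX, hfA, hAf⟩ := Pool.Agent.Y141.OG.t_sqp k b A hA0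
  obtain ⟨R, hR, hR'⟩ := rays f.support (MvPolynomial.support_nonempty.2 hf0)
    (fun w hw => Pool.Agent.Y500.OG.prim_of_ne w hw)
  -- the bounds for the poles
  have htor : ∀ w ∈ R, ∃ q : Place k F, IsTor X w q := fun w hw =>
    Pool.Agent.Y32.OG.t_tor k F b X hG w (hR w hw)
  have hbd : ∀ w ∈ R, ∃ C : ℕ, ∀ q : Place k F, IsTor X w q → ∀ (P : Place k K) (e : ℕ),
      Over P q e → Ge P (-(C * e)) w0 := by
    intro w hw
    obtain ⟨q, hq⟩ := htor w hw
    obtain ⟨C, hC⟩ := ord_bound (K := K) q w0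
    refine ⟨C, fun q' hq' P e hO => hC P e ?_⟩
    have hqq : q' = q := by
      apply Place.eq_of_le
      intro g hg0 hg
      obtain ⟨n, d, hd, hnd⟩ := hG.gen g
      have hn : n ≠ 0 := by
        rintro rfl
        exact hg0 (by rw [hnd, map_zero, zero_div])
      have h1 : ∀ a : MvPolynomial (Fin b) k, a ≠ 0 → q'.ord (aeval X a) = q.ord (aeval X a) := by
        intro a ha
        obtain ⟨h2, c, hc, h3⟩ := hq' a ha
        obtain ⟨h2', c', hc', h3'⟩ := hq a ha
        have h4 := h2 c' hc'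
        have h5 := h2' c hc
        omega
      rw [hnd, q'.ord_div (hG.ne hn) (hG.ne hd), h1 n hn, h1 d hd] at hg
      rw [hnd, q.ord_div (hG.ne hn) (hG.ne hd)]
      exact hg
    rwa [← hqq]
  choose! C0 hC0 using hbd
  set C := ∑ w ∈ R, C0 w with hC
  set M := (Module.finrank F K).factorial with hM
  have hM1 : 1 ≤ M := Nat.factorial_pos _
  set S := lst R C M with hS
  set q0 := app D M S w0 with hq0
  have hray : ∀ ν ∈ R, ∀ q : Place k F, IsTor X ν q → ∀ (P : Place k K) (e : ℕ), Over P q e →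
      Ge P e q0 := by
    intro ν hν q hq P e hO
    refine app_lst hG hD (hR ν hν) hν hq hO (Nat.dvd_factorial hO.1 (over_le hO)) hM1 ?_
    refine (hC0 ν hν q hq P e hO).mono ?_
    have h1 : C0 ν ≤ C := Finset.single_le_sum (f := C0) (fun _ _ => Nat.zero_le _) hν
    have h2 : (C0 ν : ℤ) * e ≤ C * e :=
      mul_le_mul_of_nonneg_right (by exact_mod_cast h1) (Nat.cast_nonneg _)
    linarith
  have hadic : ∀ p : MvPolynomial (Fin b) k, Irreducible p → (∀ i, ¬ (MvPolynomial.X i ∣ p)) →
        ∀ q : Place k F, IsAdic X p q → ∀ (P : Place k K) (e : ℕ), Over P q e →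
          P.Reg (q0 * algebraMap F K (aeval X f) ^ (S.length + 1)) ∧ (e = 1 → P.Reg q0) := by
    intro p hp hpX q hq P e hO
    have hpoly : ∀ a : MvPolynomial (Fin b) k, Ge P 0 (algebraMap F K (aeval X a)) := by
      intro a
      by_cases ha : a = 0
      · left
        rw [ha, map_zero, map_zero]
      · have := ge_over hO (show Ge q 0 (aeval X a) from Or.inr (hq.2 a ha).1)
        rwa [mul_zero] at this
    refine ⟨?_, ?_⟩
    · by_cases hpA : p ∣ A
      · have h1 : p ∣ f * ∏ i, MvPolynomial.X i := hp.prime.dvd_of_dvd_pow (hpA.trans hAf)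
        have h2 : p ∣ f := by
          rcases hp.prime.dvd_or_dvd h1 with h2 | h2
          · exact h2
          · exfalso
            obtain ⟨j, -, hj⟩ := (hp.prime.dvd_finsetProd_iff _).1 h2
            exact hpX j ((hp.associated_of_dvd MvPolynomial.X_prime.irreducible hj).symm.dvd)
        obtain ⟨t, ht⟩ := h2
        have h3 := app_adic (M := M) hG hD hp hq hO S (show Ge P 0 w0 from hw0 p hp hpX q hq P e hO)
        have h4 : Ge P e (algebraMap F K (aeval X f)) := by
          rw [ht, map_mul, map_mul]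
          have h5 := ge_over hO (show Ge q 1 (aeval X p) from Or.inr hq.1.ge)
          have h6 := h5.mul (hpoly t)
          rwa [mul_one, add_zero] at h6
        have h7 := h3.mul (h4.pow (S.length + 1))
        refine h7.mono ?_
        push_cast
        have : (0 : ℤ) ≤ e := Nat.cast_nonneg e
        nlinarith
      · have h1 := app_good (M := M) A q (hA p hp hpA q hq) S (hw0 p hp hpX q hq) P e hO
        have h2 := (show Ge P 0 q0 from h1).mul ((hpoly f).pow (S.length + 1))
        rwa [mul_zero, add_zero] at h2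
    · rintro rfl
      exact app_e1 hG hD hp hq hO S (hw0 p hp hpX q hq P 1 hO)
  set B : ℕ := (∑ ν ∈ R, ∑ i, (ν i).natAbs) + 1 with hB
  refine ⟨S, M, B, S.length + 1, f, hM1, Nat.le_add_left _ _, Nat.le_add_left _ _,
    fun x hx => hR _ (mem_lst hx), hf0, hsq, hX, hadic, ?_⟩
  intro w hw q hq P e hO
  obtain ⟨v, hv, n, hwn, hn⟩ := hR' w
  refine ⟨∑ ν ∈ R, n ν, ?_, ?_⟩
  · intro i
    rw [hwn, Finset.sum_apply]
    refine (Finset.abs_sum_le_sum_abs _ _).trans ?_
    push_cast
    rw [Finset.mul_sum]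
    refine Finset.sum_le_sum fun ν hν => ?_
    rw [Pi.smul_apply, nsmul_eq_mul, abs_mul, Nat.abs_cast, mul_comm]
    refine mul_le_mul_of_nonneg_right ?_ (Nat.cast_nonneg _)
    have h1 : (ν i).natAbs ≤ ∑ i, (ν i).natAbs :=
      Finset.single_le_sum (f := fun i => (ν i).natAbs) (fun _ _ => Nat.zero_le _)
        (Finset.mem_univ i)
    have h2 : ∑ i, (ν i).natAbs ≤ ∑ ν ∈ R, ∑ i, (ν i).natAbs :=
      Finset.single_le_sum (f := fun ν : Fin b → ℤ => ∑ i, (ν i).natAbs)
        (fun _ _ => Nat.zero_le _) hν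
    have h3 : (ν i).natAbs ≤ B := by omega
    rw [Int.abs_eq_natAbs]
    exact_mod_cast h3
  · have h1 := cone hG f hf0 (S.length + 1) q0
      (fun p hp hpX q hq P e hO => (hadic p hp hpX q hq P e hO).1) R hR hray w v hv n hwn hn
      q hq P e hO
    push_cast
    exact h1

end

end Pool.Agent.R392.NW
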