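import Pool.Agent.Y547.OG.Der
import Pool.Agent.Y46.OG.DerT
import Pool.Agent.Y500.OG.Coef

/-!
Places over places of a rational function field and derivations of logarithmic type.
-/

set_option autoImplicit false
set_option linter.unusedSectionVars false

open FF MvPolynomial Pool.Agent.W603.LV Pool.Agent.TH122.AB Pool.Agent.Y192.OG

namespace Pool.Agent.R392.NW

section root

variable {k K : Type} [Field k] [Field K] [Algebra k K]

/-- the orders of the roots of a monic polynomial -/
theorem root_ge (P : Place k K) {z : K} {D : ℕ} {a : ℕ → K} {s : ℤ}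
    (h : z ^ D + ∑ l ∈ Finset.Icc 1 D, a l * z ^ (D - l) = 0)
    (ha : ∀ l ∈ Finset.Icc 1 D, Ge P (l * s) (a l)) : Ge P s z := by
  by_contra hcon
  unfold Ge at hcon
  push Not at hcon
  obtain ⟨hz, hlt⟩ := hcon
  have h1 : Ge P (D * P.ord z + 1) (∑ l ∈ Finset.Icc 1 D, a l * z ^ (D - l)) := by
    refine Ge.sum _ _ fun l hl => ?_
    have hl' := Finset.mem_Icc.1 hl
    have h2 := (ha l hl).mul ((show Ge P (P.ord z) z from Or.inr le_rfl).pow (D - l))
    refine h2.mono ?_
    have h3 : ((D - l : ℕ) : ℤ) = D - l := by omega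
    have h4 : (1 : ℤ) ≤ l := by exact_mod_cast hl'.1
    rw [h3]
    nlinarith
  have h5 : Ge P (D * P.ord z + 1) (z ^ D) := by
    have h6 : z ^ D = -∑ l ∈ Finset.Icc 1 D, a l * z ^ (D - l) := eq_neg_of_add_eq_zero_left h
    rw [h6]
    exact h1.neg
  rcases h5 with h5 | h5
  · exact pow_ne_zero _ hz h5
  · rw [P.ord_pow] at h5
    omega

/-- a sum of functions with distinct orders is not zero -/
theorem sum_ne (P : Place k K) {ι : Type} [DecidableEq ι] (s : Finset ι) (f : ι → K) (hs : s.Nonempty)
    (hf : ∀ i ∈ s, f i ≠ 0) (hinj : ∀ i ∈ s, ∀ j ∈ s, P.ord (f i) = P.ord (f j) → i = j) :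
    ∑ i ∈ s, f i ≠ 0 := by
  obtain ⟨i, hi, hmin⟩ := Finset.exists_min_image s (fun i => P.ord (f i)) hs
  rw [← Finset.add_sum_erase s f hi]
  intro h0
  have h1 : Ge P (P.ord (f i) + 1) (∑ j ∈ s.erase i, f j) := by
    refine Ge.sum _ _ fun j hj => Or.inr ?_
    have hj' := Finset.mem_of_mem_erase hj
    have h2 := hmin j hj'
    have h3 : P.ord (f i) ≠ P.ord (f j) := fun h => Finset.ne_of_mem_erase hj (hinj i hi j hj' h).symm
    omega
  have h4 : Ge P (P.ord (f i) + 1) (f i) := by
    have h5 := h1.neg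
    rwa [← eq_neg_of_add_eq_zero_left h0] at h5
  rcases h4 with h4 | h4
  · exact hf i hi h4
  · omega

end root

section

variable {k F K : Type} [Field k] [CharZero k] [Field F] [Field K] [Algebra k F] [Algebra k K]
  [Algebra F K] [IsScalarTower k F K] [FiniteDimensional F K]

omit [CharZero k] [FiniteDimensional F K] in
theorem ge_over {q : Place k F} {P : Place k K} {e : ℕ} (hO : Over P q e) {N : ℤ} {g : F}
    (hg : Ge q N g) : Ge P (e * N) (algebraMap F K g) := by
  rcases hg with rfl | hg
  · left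
    rw [map_zero]
  · right
    rw [hO.2]
    exact mul_le_mul_of_nonneg_left hg (Nat.cast_nonneg _)

omit [CharZero k] in
theorem ord_bound (q : Place k F) (z : K) :
    ∃ C : ℕ, ∀ (P : Place k K) (e : ℕ), Over P q e → Ge P (-(C * e)) z := by
  have hint : IsIntegral F z := Algebra.IsIntegral.isIntegral z
  set D := (minpoly F z).natDegree with hD
  set C : ℕ := ∑ l ∈ Finset.Icc 1 D, (q.ord ((minpoly F z).coeff (D - l))).natAbs with hC
  refine ⟨C, fun P e hO => root_ge P (Pool.Agent.Y500.OG.rel_minpoly z hint) fun l hl => ?_⟩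
  have h1 : (q.ord ((minpoly F z).coeff (D - l))).natAbs ≤ C :=
    Finset.single_le_sum (f := fun l => (q.ord ((minpoly F z).coeff (D - l))).natAbs)
      (fun _ _ => Nat.zero_le _) hl
  have h2 : Ge q (-(C : ℤ)) ((minpoly F z).coeff (D - l)) := Or.inr (by omega)
  refine (ge_over hO h2).mono ?_
  have h3 : (1 : ℤ) ≤ l := by exact_mod_cast (Finset.mem_Icc.1 hl).1
  have h4 : (0 : ℤ) ≤ (C : ℤ) * e := by positivity
  nlinarith

omit [CharZero k] in
theorem over_le {q : Place k F} {P : Place k K} {e : ℕ} (hO : Over P q e) :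
    e ≤ Module.finrank F K := by
  classical
  obtain ⟨t, ht0, ht⟩ := P.surj
  have hli : LinearIndependent F (fun i : Fin e => t ^ (i : ℕ)) := by
    rw [linearIndependent_iff']
    intro s g hg i hi
    by_contra hne
    set s' := s.filter fun i => g i ≠ 0 with hs'
    have h1 : ∑ i ∈ s', g i • t ^ (i : ℕ) = 0 := by
      rw [← hg]
      apply Finset.sum_subset (Finset.filter_subset _ _)
      intro j hj hj'
      have h2 : g j = 0 := by
        by_contra h3
        exact hj' (Finset.mem_filter.2 ⟨hj, h3⟩)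
      rw [h2, zero_smul]
    have hmem : ∀ j ∈ s', g j ≠ 0 := fun j hj => (Finset.mem_filter.1 hj).2
    have hord : ∀ j ∈ s', P.ord (g j • t ^ (j : ℕ)) = e * q.ord (g j) + j := by
      intro j hj
      rw [Algebra.smul_def, P.ord_mul (by simpa using hmem j hj) (pow_ne_zero _ ht0), hO.2,
        P.ord_pow, ht, mul_one]
    refine sum_ne P s' _ ⟨i, Finset.mem_filter.2 ⟨hi, hne⟩⟩ ?_ ?_ h1
    · intro j hj
      rw [Algebra.smul_def]
      exact mul_ne_zero (by simpa using hmem j hj) (pow_ne_zero _ ht0)
    · intro j hj j' hj' h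
      rw [hord j hj, hord j' hj'] at h
      have h3 : ((j : ℕ) : ℤ) % e = ((j' : ℕ) : ℤ) % e := by
        have h4 := congrArg (fun x => x % (e : ℤ)) h
        simpa using h4
      rw [Int.emod_eq_of_lt (by positivity) (by exact_mod_cast j.2),
        Int.emod_eq_of_lt (by positivity) (by exact_mod_cast j'.2)] at h3
      exact Fin.ext (by exact_mod_cast h3)
  have := hli.fintype_card_le_finrank
  simpa using this

theorem reg_trace (q : Place k F) (z : K) (hz : ∀ (P : Place k K) (e : ℕ), Over P q e → P.Reg z) :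
    q.Reg (Algebra.trace F K z) := by
  have h1 := Pool.Agent.Y500.OG.t_mp k F K q z hz
  rw [trace_eq_finrank_mul_minpoly_nextCoeff]
  have h2 : Ge q 0 (-(minpoly F z).nextCoeff) := by
    apply Ge.neg
    rw [Polynomial.nextCoeff]
    split_ifs
    · exact Ge.zero
    · exact h1 _
  have h3 := (Ge.natCast (P := q) (Module.finrank (IntermediateField.adjoin F {z}) K)).mul h2
  rw [add_zero] at h3
  exact h3

/-- a denominator for finitely many functions -/
theorem poles {b : ℕ} {X : Fin b → F} (hG : Gens (k := k) X) (Z : Finset K) :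
    ∃ A : MvPolynomial (Fin b) k, A ≠ 0 ∧ ∀ p : MvPolynomial (Fin b) k, ¬ p ∣ A →
      ∀ q : Place k F, IsAdic X p q → ∀ (P : Place k K) (e : ℕ), Over P q e →
        ∀ z ∈ Z, P.Reg z := by
  classical
  choose n d hd hnd using hG.gen
  set A : MvPolynomial (Fin b) k := ∏ z ∈ Z, ∏ l ∈ Finset.Icc 1 (minpoly F z).natDegree,
    d ((minpoly F z).coeff ((minpoly F z).natDegree - l)) with hA
  refine ⟨A, Finset.prod_ne_zero_iff.2 fun z _ => Finset.prod_ne_zero_iff.2 fun l _ => hd _, ?_⟩
  intro p hp q hq P e hO z hz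
  have hint : IsIntegral F z := Algebra.IsIntegral.isIntegral z
  refine root_ge P (s := 0) (Pool.Agent.Y500.OG.rel_minpoly z hint) fun l hl => ?_
  rw [mul_zero]
  have h1 : Ge q 0 ((minpoly F z).coeff ((minpoly F z).natDegree - l)) := by
    set c := (minpoly F z).coeff ((minpoly F z).natDegree - l) with hc
    by_cases hc0 : c = 0
    · exact Or.inl hc0
    have hdA : d c ∣ A := (Finset.dvd_prod_of_mem _ hl).trans (Finset.dvd_prod_of_mem
      (fun z => ∏ l ∈ Finset.Icc 1 (minpoly F z).natDegree,
        d ((minpoly F z).coeff ((minpoly F z).natDegree - l))) hz)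
    have h2 : q.ord (aeval X (d c)) = 0 := (hq.2 _ (hd c)).2.2 fun h => hp (h.trans hdA)
    have hn0 : n c ≠ 0 := by
      intro h0
      apply hc0
      rw [hnd c, h0, map_zero, zero_div]
    right
    rw [hnd c, q.ord_div (hG.ne hn0) (hG.ne (hd c)), h2, sub_zero]
    exact (hq.2 _ hn0).1
  have h3 := ge_over hO h1
  rwa [mul_zero] at h3

end

/-- the logarithmic derivative -/
def ld {k K : Type} [Field k] [Field K] [Algebra k K] (D : Derivation k K K) :
    Kˣ →* Multiplicative K where
  toFun u := Multiplicative.ofAdd (D (u : K) / u)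
  map_one' := by simp
  map_mul' u v := by
    rw [← ofAdd_add]
    congr 1
    rw [Units.val_mul, D.leibniz, smul_eq_mul, smul_eq_mul]
    have hu := u.ne_zero
    have hv := v.ne_zero
    field_simp
    ring

theorem ld_apply {k K : Type} [Field k] [Field K] [Algebra k K] (D : Derivation k K K) (u : Kˣ) :
    (ld D u).toAdd = D (u : K) / u := rfl

section der

variable {k F K : Type} [Field k] [CharZero k] [Field F] [Field K] [Algebra k F] [Algebra k K]
  [Algebra F K] [IsScalarTower k F K] [FiniteDimensional F K] {b : ℕ} {X : Fin b → F}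

theorem der_e1 (hG : Gens (k := k) X) (D : Derivation k K K)
    (hD : ∀ i, ∃ ε : k, D (algebraMap F K (X i)) = algebraMap k K ε * algebraMap F K (X i))
    {p : MvPolynomial (Fin b) k} (hp : Irreducible p) {q : Place k F} (hq : IsAdic X p q)
    {P : Place k K} (hO : Over P q 1) {h : K} (hh : P.Reg h) : P.Reg (D h) :=
  (Pool.Agent.Y547.OG.t_der k F K q P 1 hO (D.restrictScalars ℤ)).2 rfl
    (fun g hg => Pool.Agent.Y46.OG.t_deradic k F K b X hG p hp q hq P 1 hO (D.restrictScalars ℤ)
      (fun c => ⟨0, by rw [map_zero]; exact D.map_algebraMap c⟩) hD g hg) h hh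

theorem der_tor (hG : Gens (k := k) X) (D : Derivation k K K)
    (hD : ∀ i, ∃ ε : k, D (algebraMap F K (X i)) = algebraMap k K ε * algebraMap F K (X i))
    {w : Fin b → ℤ} {q : Place k F} (hq : IsTor X w q)
    {P : Place k K} {e : ℕ} (hO : Over P q e) {N : ℤ} {h : K} (hh : Ge P N h) :
    Ge P N (D h) := by
  by_cases h0 : h = 0
  · left
    rw [h0, map_zero]
  have h1 := (Pool.Agent.Y547.OG.t_der k F K q P e hO (D.restrictScalars ℤ)).1
    (fun g => Pool.Agent.Y46.OG.t_dertor k F K b X hG w q hq P e hO (D.restrictScalars ℤ)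
      (fun c => ⟨0, by rw [map_zero]; exact D.map_algebraMap c⟩) hD g) h
  have h2 : Ge P 0 (D h / h) := h1
  have h3 := h2.mul hh
  rw [zero_add, div_mul_cancel₀ _ h0] at h3
  exact h3

theorem der_adic (hG : Gens (k := k) X) (D : Derivation k K K)
    (hD : ∀ i, ∃ ε : k, D (algebraMap F K (X i)) = algebraMap k K ε * algebraMap F K (X i))
    {p : MvPolynomial (Fin b) k} (hp : Irreducible p) {q : Place k F} (hq : IsAdic X p q)
    {P : Place k K} {e : ℕ} (hO : Over P q e) {N : ℤ} {h : K} (hh : Ge P N h) :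
    Ge P (N - e) (D h) := by
  by_cases h0 : h = 0
  · left
    rw [h0, map_zero]
  set pF : F := aeval X p with hpF
  have hpF0 : pF ≠ 0 := hG.ne hp.ne_zero
  set pK : K := algebraMap F K pF with hpK
  have hpK0 : pK ≠ 0 := by simpa [hpK] using hpF0
  have hreg : ∀ g : F, q.Reg g → Ge P 0 (D (algebraMap F K g)) := fun g hg =>
    Pool.Agent.Y46.OG.t_deradic k F K b X hG p hp q hq P e hO (D.restrictScalars ℤ)
      (fun c => ⟨0, by rw [map_zero]; exact D.map_algebraMap c⟩) hD g hg
  have hp1 : q.ord pF = 1 := hq.1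
  have hkey : ∀ g : F, P.Reg (((pK • D).restrictScalars ℤ) (algebraMap F K g) / algebraMap F K g) := by
    intro g
    by_cases hg0 : g = 0
    · left
      rw [hg0, map_zero, map_zero, zero_div]
    set a := q.ord g with ha
    set g' : F := g * pF ^ (-a) with hg'
    have hg'0 : g' ≠ 0 := mul_ne_zero hg0 (zpow_ne_zero _ hpF0)
    have hg'ord : q.ord g' = 0 := by
      rw [hg', q.ord_mul hg0 (zpow_ne_zero _ hpF0), q.ord_zpow, hp1]
      ring
    set u : Kˣ := Units.mk0 (algebraMap F K g) (by simpa using hg0) with hu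
    set v : Kˣ := Units.mk0 (algebraMap F K g') (by simpa using hg'0) with hv
    set π : Kˣ := Units.mk0 pK hpK0 with hπ
    have huv : u = v * π ^ a := by
      apply Units.ext
      rw [Units.val_mul, Units.val_zpow_eq_zpow_val]
      change algebraMap F K g = algebraMap F K g' * pK ^ a
      rw [hg', map_mul, map_zpow₀, mul_assoc, ← zpow_add₀ hpK0]
      simp
    have h1 := congrArg (fun x => (ld D x).toAdd) huv
    simp only [map_mul, map_zpow, toAdd_mul, toAdd_zpow, ld_apply] at h1
    have h2 : D (algebraMap F K g) / algebraMap F K g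
        = D (algebraMap F K g') / algebraMap F K g' + a • (D pK / pK) := h1
    have h3 : pK * (D (algebraMap F K g) / algebraMap F K g)
        = pK * (D (algebraMap F K g') * (algebraMap F K g')⁻¹) + (a : K) * D pK := by
      rw [h2, zsmul_eq_mul]
      field_simp
    change P.Reg ((pK * D (algebraMap F K g)) / algebraMap F K g)
    rw [mul_div_assoc, h3]
    have e1 : Ge P 0 pK := by
      have := ge_over hO (show Ge q 0 pF from Or.inr (by omega))
      rwa [mul_zero] at this
    have e2 : Ge P 0 ((algebraMap F K g')⁻¹) := by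
      right
      rw [P.ord_inv, hO.2, hg'ord]
      simp
    have e3 := hreg g' (Or.inr hg'ord.ge)
    have e4 := hreg pF (Or.inr (by omega))
    have e5 : Ge P 0 (pK * (D (algebraMap F K g') * (algebraMap F K g')⁻¹)) := by
      have := e1.mul (e3.mul e2)
      simpa using this
    have e6 : Ge P 0 ((a : K) * D pK) := by
      have := (Ge.intCast (P := P) a).mul e4
      simpa using this
    exact e5.add e6
  have h1 := (Pool.Agent.Y547.OG.t_der k F K q P e hO ((pK • D).restrictScalars ℤ)).1 hkey h
  have h2 : Ge P 0 (pK * D h / h) := h1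
  have h3 := h2.mul hh
  rw [zero_add, div_mul_cancel₀ _ h0] at h3
  refine Ge.of_mul' hpK0 (m := e) ?_ (by simpa using h3)
  rw [hpK, hO.2, hp1, mul_one]

/-- outside of finitely many places, the derivation preserves the functions which are regular over
a place -/
theorem good (hG : Gens (k := k) X) {n : ℕ} (D : Fin n → Derivation k K K)
    (hD : ∀ j i, ∃ ε : k, D j (algebraMap F K (X i)) = algebraMap k K ε * algebraMap F K (X i)) :
    ∃ A : MvPolynomial (Fin b) k, A ≠ 0 ∧ ∀ p : MvPolynomial (Fin b) k, Irreducible p → ¬ p ∣ A →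
      ∀ q : Place k F, IsAdic X p q → ∀ h : K, (∀ (P : Place k K) (e : ℕ), Over P q e → P.Reg h) →
        ∀ j, ∀ (P : Place k K) (e : ℕ), Over P q e → P.Reg (D j h) := by
  classical
  have : CharZero F := charZero_of_injective_algebraMap (algebraMap k F).injective
  have : Algebra.IsSeparable F K := inferInstance
  set B := Module.finBasis F K with hB
  set B' := B.traceDual with hB'
  obtain ⟨A, hA, hA'⟩ := poles (K := K) hG
    ((Finset.univ.image fun i => B i) ∪ ((Finset.univ.image fun i => B' i) ∪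
      (Finset.univ.image fun x : Fin n × _ => D x.1 (B' x.2))))
  refine ⟨A, hA, fun p hp hpA q hq h hh j P e hO => ?_⟩
  have h1 : ∀ (P : Place k K) (e : ℕ), Over P q e → (∀ i, P.Reg (B i)) ∧ (∀ i, P.Reg (B' i)) ∧
      ∀ i, P.Reg (D j (B' i)) := by
    intro P e hO
    have h2 := hA' p hpA q hq P e hO
    refine ⟨fun i => h2 _ ?_, fun i => h2 _ ?_, fun i => h2 _ ?_⟩
    · exact Finset.mem_union_left _ (Finset.mem_image_of_mem _ (Finset.mem_univ i))
    · exact Finset.mem_union_right _ (Finset.mem_union_left _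
        (Finset.mem_image_of_mem _ (Finset.mem_univ i)))
    · exact Finset.mem_union_right _ (Finset.mem_union_right _
        (Finset.mem_image.2 ⟨(j, i), Finset.mem_univ _, rfl⟩))
  have h3 : ∀ i, q.Reg (B'.repr h i) := by
    intro i
    rw [hB', Module.Basis.traceDual_repr_apply, Algebra.traceForm_apply]
    exact reg_trace q _ fun P e hO => P.reg_mul (hh P e hO) ((h1 P e hO).1 i)
  have h4 : h = ∑ i, algebraMap F K (B'.repr h i) * B' i := by
    conv_lhs => rw [← B'.sum_repr h]
    exact Finset.sum_congr rfl fun i _ => Algebra.smul_def _ _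
  have h5 : D j h = ∑ i, (algebraMap F K (B'.repr h i) * D j (B' i) +
      B' i * D j (algebraMap F K (B'.repr h i))) := by
    conv_lhs => rw [h4, map_sum]
    exact Finset.sum_congr rfl fun i _ => by
      rw [(D j).leibniz, smul_eq_mul, smul_eq_mul]
  rw [h5]
  refine Ge.sum (P := P) (N := 0) _ _ fun i _ => ?_
  have e1 : Ge P 0 (algebraMap F K (B'.repr h i)) := hO.reg.2 (h3 i)
  have e2 : Ge P 0 (D j (algebraMap F K (B'.repr h i))) :=
    Pool.Agent.Y46.OG.t_deradic k F K b X hG p hp q hq P e hO ((D j).restrictScalars ℤ)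
      (fun c => ⟨0, by rw [map_zero]; exact (D j).map_algebraMap c⟩) (hD j) _ (h3 i)
  have e3 := e1.mul (show Ge P 0 (D j (B' i)) from (h1 P e hO).2.2 i)
  have e4 := (show Ge P 0 (B' i) from (h1 P e hO).2.1 i).mul e2
  rw [add_zero] at e3 e4
  exact e3.add e4

end der

end Pool.Agent.R392.NW
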