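import Pool.Agent.R392.NW.Op
import Pool.Agent.R392.NW.Dat
import Pool.Agent.Y220.OG.Conv

/-!
Finite covers of tori: either a product of first order operators kills a given function, or the
curves in the cover are degenerate.
-/

set_option autoImplicit false
set_option linter.unusedSectionVars false

open FF MvPolynomial Pool.Agent.W603.LV Pool.Agent.TH122.AB Pool.Agent.Y192.OG

namespace Pool.Agent.R392.NW

theorem ep_inj {N : ℕ} {K : Type} [Field K] [Algebra ℂ K] {x : Fin N → Kˣ}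
    (hind : AlgebraicIndependent ℂ (fun i => (x i : K))) {g : Lau N} (hg : ep x g = 0) : g = 0 := by
  classical
  by_contra hne
  obtain ⟨m0, hm0⟩ : ∃ m0, m0 ∈ g.coeff.support := by
    by_contra hcon
    push Not at hcon
    apply hne
    ext m
    have := hcon m
    rw [Finsupp.notMem_support_iff] at this
    rw [this]
    rfl
  set M : ℕ := ∑ m ∈ g.coeff.support, ∑ i, (m i).natAbs with hM
  have hMm : ∀ m ∈ g.coeff.support, ∀ i, 0 ≤ m i + M := by
    intro m hm i
    have h1 : (m i).natAbs ≤ ∑ i, (m i).natAbs :=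
      Finset.single_le_sum (f := fun i => (m i).natAbs) (fun _ _ => Nat.zero_le _)
        (Finset.mem_univ i)
    have h2 : ∑ i, (m i).natAbs ≤ M :=
      Finset.single_le_sum (f := fun m : Fin N → ℤ => ∑ i, (m i).natAbs)
        (fun _ _ => Nat.zero_le _) hm
    omega
  set E : (Fin N → ℤ) → (Fin N →₀ ℕ) := fun m =>
    Finsupp.equivFunOnFinite.symm (fun i => (m i + M).toNat) with hE
  have hEi : ∀ m i, E m i = (m i + M).toNat := fun m i => rfl
  set P : MvPolynomial (Fin N) ℂ := ∑ m ∈ g.coeff.support, monomial (E m) (g.coeff m) with hP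
  have h1 : aeval (fun i => (x i : K)) P = ep x g * (∏ i, (x i : K)) ^ M := by
    have h2 : g = ∑ m ∈ g.coeff.support, AddMonoidAlgebra.single m (g.coeff m) :=
      (AddMonoidAlgebra.sum_coeff_single g).symm
    conv_rhs => rw [h2, map_sum]
    rw [hP, map_sum, Finset.sum_mul]
    refine Finset.sum_congr rfl fun m hm => ?_
    rw [aeval_monomial, Finsupp.prod_fintype _ _ (fun i => pow_zero _), ep_single, Algebra.smul_def,
      mul_assoc]
    congr 1
    rw [← Finset.prod_pow]
    unfold xm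
    rw [Units.coe_prod, ← Finset.prod_mul_distrib]
    refine Finset.prod_congr rfl fun i _ => ?_
    rw [hEi, Units.val_zpow_eq_zpow_val, ← zpow_natCast, ← zpow_natCast,
      ← zpow_add₀ (Units.ne_zero _), Int.toNat_of_nonneg (hMm m hm i)]
  rw [hg, zero_mul] at h1
  have h2 : P = 0 := (injective_iff_map_eq_zero _).1 hind P h1
  have h3 : coeff (E m0) P = g.coeff m0 := by
    rw [hP, coeff_sum, Finset.sum_eq_single m0]
    · rw [coeff_monomial, if_pos rfl]
    · intro m hm hmm
      rw [coeff_monomial, if_neg]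
      intro h
      apply hmm
      funext i
      have h4 := congrArg (fun c => c i) h
      simp only [hEi] at h4
      have h5 := hMm m hm i
      have h6 := hMm m0 hm0 i
      omega
    · intro h
      exact absurd hm0 h
  rw [h2, coeff_zero] at h3
  exact (Finsupp.mem_support_iff.1 hm0) h3.symm

theorem app_congr {k k' K : Type} [Field k] [Field k'] [Field K] [Algebra k K] [Algebra k' K]
    {b : ℕ} (D : Fin b → Derivation k K K) (D' : Fin b → Derivation k' K K)
    (h : ∀ i z, D i z = D' i z) (M : ℕ) (S : List ((Fin b → ℤ) × ℤ)) :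
    ∀ z, app D M S z = app D' M S z := by
  induction S with
  | nil => exact fun z => rfl
  | cons x S ih =>
    intro z
    rw [app_cons, app_cons, ih]
    congr 1
    unfold Tp
    rw [Dw_apply, Dw_apply]
    simp only [h]

/-- Functions on a finite cover of a torus, in terms of the field of rational functions. -/
theorem torusB {N : ℕ} {K : Type} [Field K] [Algebra ℂ K]
    {x : Fin N → Kˣ} {Γ : Submodule ℤ (Fin N → ℤ)} {bt : Fin N → Fin N → ℤ}
    {co : (Fin N → ℤ) →+ (Fin N → ℤ)} {F : IntermediateField (F0 x Γ) K} {X : Fin N → F}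
    (h : Cx x Γ bt co F X) (hXx : ∀ i, algebraMap F K (X i) = (x i : K))
    (hleast : ∀ Γ' : Submodule ℤ (Fin N → ℤ), Sat Γ' →
        (∀ g ∈ RingHom.ker (ep x), ∀ q, comp Γ' q g ∈ RingHom.ker (ep x)) → Γ ≤ Γ')
    (halg : ∀ z : K, IsAlgebraic (IntermediateField.adjoin ℂ (Set.range fun i => (x i : K))) z)
    (D' : Fin N → Derivation (F0 x Γ) K K) (hCd : Cd X D')
    (w0 : K) (hw0 : (ep x : Lau N →+* K).IsIntegralElem w0) :
    ∃ (S : List ((Fin N → ℤ) × ℤ)) (M : ℕ), 1 ≤ M ∧ (∀ y ∈ S, Prim y.1) ∧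
      (app D' M S w0 ≠ 0 → ∃ (R : Subalgebra ℂ K) (j : Lau N →ₐ[ℂ] R) (f G : Lau N) (κ s μ : ℕ)
        (h : Fin s → R), (∀ g, (j g : K) = ep x g) ∧ (j : Lau N →+* R).IsIntegral ∧ j G ≠ 0 ∧
        (∀ v : R → WithTop ℤ, IsV v → v (j f) = 1 → v (j 1) ≠ 1 →
          ∀ i, ((κ : ℤ) : WithTop ℤ) ≤ v (h i)) ∧
        ∀ c : Curve N, E.ACl j f κ h μ c → c.ev G ≠ 0 → ∀ i, ∃ Q : ℂ → ℂ,
          MeromorphicAt (fun w => Q w⁻¹) 0 ∧ ∃ R0 : ℝ, ∀ z, R0 < ‖z‖ →
            c.X i z = Q z * c.X 0 z) := by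
  classical
  have hchar : CharZero (F0 x Γ) := charZero_of_injective_algebraMap (algebraMap ℂ (F0 x Γ)).injective
  -- regularity of the function
  have hreg : ∀ p : MvPolynomial (Fin N) (F0 x Γ), Irreducible p →
      (∀ i, ¬ (MvPolynomial.X i ∣ p)) →
      ∀ q : Place (F0 x Γ) F, IsAdic X p q → ∀ (P : Place (F0 x Γ) K) (e : ℕ), Over P q e →
        P.Reg w0 := by
    intro p hp hpX q hq P e hO
    let _ : Algebra (Lau N) K := (ep x : Lau N →+* K).toAlgebra
    exact P.reg_of_isIntegral (A := Lau N) (fun a => h.reg_ep (Cx.over0 hp hpX hq hO) a) hw0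
  have hfin : FiniteDimensional F K := h.fin
  obtain ⟨S, M, B, κ, f0, hM, hB, hκ, hSp, hf0, hsq, hfX, ha, ht⟩ := ops h.gens hCd w0 hreg
  refine ⟨S, M, hM, hSp, fun hne => ?_⟩
  set q0 := app D' M S w0 with hq0
  -- the functions
  set ψ : Fin (N + 1) → K := Fin.cons (q0 ^ B) (fun i => q0 ^ B * (x i : K)) with hψ
  have hψ0 : ψ 0 = q0 ^ B := rfl
  have hψs : ∀ i : Fin N, ψ i.succ = q0 ^ B * (x i : K) := fun i => rfl
  have hxadj : ∀ i, (x i : K) ∈ IntermediateField.adjoin ℂ (Set.range ψ) := by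
    intro i
    have h1 : (x i : K) = ψ i.succ / ψ 0 := by
      rw [hψ0, hψs]
      have := pow_ne_zero B hne
      field_simp
    rw [h1]
    exact div_mem (IntermediateField.subset_adjoin _ _ ⟨_, rfl⟩)
      (IntermediateField.subset_adjoin _ _ ⟨_, rfl⟩)
  have hψalg : ∀ z : K, IsAlgebraic (IntermediateField.adjoin ℂ (Set.range ψ)) z := by
    intro z
    have hle : IntermediateField.adjoin ℂ (Set.range fun i => (x i : K))
        ≤ IntermediateField.adjoin ℂ (Set.range ψ) := by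
      rw [IntermediateField.adjoin_le_iff]
      rintro _ ⟨i, rfl⟩
      exact hxadj i
    let φ : IntermediateField.adjoin ℂ (Set.range fun i => (x i : K)) →+*
        IntermediateField.adjoin ℂ (Set.range ψ) :=
      { toFun := fun a => ⟨a.1, hle a.2⟩
        map_one' := rfl
        map_zero' := rfl
        map_add' := fun _ _ => rfl
        map_mul' := fun _ _ => rfl }
    exact alg_of φ φ.injective (fun a => rfl) (halg z)
  -- bounds at the places outside of the torus boundary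
  have hr1 : ∀ f1 : MvPolynomial (Fin N) (F0 x Γ), f0 ∣ f1 →
        ∀ p : MvPolynomial (Fin N) (F0 x Γ), Irreducible p → (∀ i, ¬ (MvPolynomial.X i ∣ p)) →
        ∀ q : Place (F0 x Γ) F, IsAdic X p q → ∀ (P : Place (F0 x Γ) K) (e : ℕ), Over P q e →
          ∀ i, P.Reg (ψ i * algebraMap F K (aeval X f1) ^ (κ * B)) := by
    intro f1 hf1 p hp hpX q hq P e hO i
    obtain ⟨t, ht⟩ := hf1
    have e1 : Ge P 0 (q0 * algebraMap F K (aeval X f0) ^ κ) := (ha p hp hpX q hq P e hO).1
    have e2 := (e1.pow B).mul ((show Ge P 0 _ from Cx.reg_poly hq hO t).pow (κ * B))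
    rw [mul_zero, mul_zero, add_zero] at e2
    have e3 : (q0 * algebraMap F K (aeval X f0) ^ κ) ^ B * algebraMap F K (aeval X t) ^ (κ * B)
        = q0 ^ B * algebraMap F K (aeval X f1) ^ (κ * B) := by
      rw [ht, map_mul, map_mul, mul_pow, mul_pow, ← pow_mul]
      ring
    rw [e3] at e2
    refine Fin.cases ?_ (fun i => ?_) i
    · exact e2
    · rw [hψs]
      have e4 : Ge P 0 (x i : K) := by
        rw [← hXx i]
        exact Or.inr (Cx.over0 hp hpX hq hO i).ge
      have e5 := e2.mul e4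
      rw [add_zero] at e5
      have e6 : q0 ^ B * algebraMap F K (aeval X f1) ^ (κ * B) * (x i : K)
        = q0 ^ B * (x i : K) * algebraMap F K (aeval X f1) ^ (κ * B) := by ring
      rw [← e6]
      exact e5
  have hr2 : ∀ p : MvPolynomial (Fin N) (F0 x Γ), Irreducible p →
        (∀ i, ¬ (MvPolynomial.X i ∣ p)) →
        ∀ q : Place (F0 x Γ) F, IsAdic X p q → ∀ (P : Place (F0 x Γ) K) (e : ℕ), Over P q e →
          e = 1 → P.ord (ep x 1) ≠ 1 → ∀ i, P.Reg (ψ i) := by
    intro p hp hpX q hq P e hO he _ i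
    have e1 : Ge P 0 q0 := (ha p hp hpX q hq P e hO).2 he
    have e2 := e1.pow B
    rw [mul_zero] at e2
    refine Fin.cases ?_ (fun i => ?_) i
    · exact e2
    · rw [hψs]
      have e4 : Ge P 0 (x i : K) := by
        rw [← hXx i]
        exact Or.inr (Cx.over0 hp hpX hq hO i).ge
      have e5 := e2.mul e4
      rw [add_zero] at e5
      exact e5
  have hr3 : ∀ w : Fin N → ℤ, Prim w → ∀ q : Place (F0 x Γ) F, IsTor X w q →
        ∀ (P : Place (F0 x Γ) K) (e : ℕ), Over P q e → ∀ i, P.Reg (ψ i) := by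
    intro w hw q hq P e hO i
    obtain ⟨s, hs1, hs2⟩ := ht w hw q hq P e hO
    have e2 := hs2.pow B
    refine Fin.cases ?_ (fun i => ?_) i
    · exact e2.mono (by positivity)
    · rw [hψs]
      have e4 : Ge P (e * w i) (x i : K) := by
        rw [← hXx i]
        right
        rw [hO.2, Pool.Agent.Y500.OG.tor_X hq]
      refine (e2.mul e4).mono ?_
      have h1 := abs_le.1 (hs1 i)
      have h2 : (0 : ℤ) ≤ e := Nat.cast_nonneg e
      nlinarith [h1.1]
  obtain ⟨R, j, f, s, hh, hR, hj, hint, hjf, hGR, hle, hom', H2, H3, hv⟩ := alg2 h h.hom hleast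
    Pool.Agent.Y290.OG.t_lift Pool.Agent.Y809.OG.t_comp
    (Pool.Agent.Y290.OG.t_gr Pool.Agent.Y809.OG.t_split) Pool.Agent.Y220.OG.t_conv
    (Pool.Agent.Y500.OG.t_coef Pool.Agent.Y500.OG.t_mp Pool.Agent.Y32.OG.t_tor)
    (Pool.Agent.Y500.OG.t_den Pool.Agent.Y500.OG.t_mp) Pool.Agent.Y32.OG.t_val
    Pool.Agent.Y141.OG.t_sqp N 1 (by rw [map_one]; exact one_ne_zero) (κ * B) ψ f0
    (Nat.mul_pos hκ hB) hψalg hf0 hsq hfX hr1 hr2 hr3
  obtain ⟨μ, G, hG, hc⟩ := E.curvesE (K := K) (j := j) (f := f) (k := κ * B) (h := hh)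
    Subtype.val_injective hint hjf hGR hle hom' H2 (fun i => by
      have h1 : algebraMap R K (j (AddMonoidAlgebra.single (Pi.single i 1) 1)) = (x i : K) := by
        change (j _ : K) = _
        rw [hj, ep_single_one, xm_single]
      rw [h1]
      exact H3 i)
  exact ⟨R, j, f, G, κ * B, s, μ, hh, hj, hint, hG, hv, hc⟩

theorem alg_sub {K : Type} [Field K] (S T : Subring K) (h : S ≤ T) (z : K)
    (hz : IsAlgebraic S z) : IsAlgebraic T z := by
  obtain ⟨p, hp, hz⟩ := hz
  refine ⟨p.map (Subring.inclusion h),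
    (Polynomial.map_ne_zero_iff (Subring.inclusion_injective h)).2 hp, ?_⟩
  rw [Polynomial.aeval_def, Polynomial.eval₂_map]
  exact hz

theorem alg_adj {K : Type} [Field K] [Algebra ℂ K] (S : Set K) (z : K)
    (h : IsAlgebraic (IntermediateField.adjoin ℂ S) z) : IsAlgebraic (Algebra.adjoin ℂ S) z := by
  open scoped IntermediateField.algebraAdjoinAdjoin in
  exact (IsFractionRing.isAlgebraic_iff (Algebra.adjoin ℂ S)
      (IntermediateField.adjoin ℂ S) K).2 h

theorem adj_le {K : Type} [Field K] [Algebra ℂ K] (k : IntermediateField ℂ K) (S : Set K) :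
    ∀ a ∈ Algebra.adjoin ℂ S, a ∈ Algebra.adjoin k S := by
  intro a ha
  induction ha using Algebra.adjoin_induction with
  | mem a ha => exact Algebra.subset_adjoin ha
  | algebraMap c => exact (Algebra.adjoin k S).algebraMap_mem (algebraMap ℂ k c)
  | add a b _ _ ha hb => exact add_mem ha hb
  | mul a b _ _ ha hb => exact mul_mem ha hb

theorem alg_up {K : Type} [Field K] [Algebra ℂ K] (k : IntermediateField ℂ K) (S : Set K) (z : K)
    (h1 : IsAlgebraic (Algebra.adjoin ℂ S) z) : IsAlgebraic (Algebra.adjoin k S) z := by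
  have h2 : IsAlgebraic (Algebra.adjoin ℂ S).toSubring z := h1
  exact alg_sub (Algebra.adjoin ℂ S).toSubring (Algebra.adjoin k S).toSubring (adj_le k S) z h2

theorem basis_of {K : Type} [Field K] [Algebra ℂ K] {N : ℕ} (k : IntermediateField ℂ K)
    (x : Fin N → K) (hind : AlgebraicIndependent k x)
    (halg : ∀ z : K, IsAlgebraic (IntermediateField.adjoin ℂ (Set.range x)) z) :
    IsTranscendenceBasis k x := by
  rw [hind.isTranscendenceBasis_iff_isAlgebraic]
  exact ⟨fun z => alg_up k _ z (alg_adj _ z (halg z))⟩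

/-- Functions on a finite cover of a torus. -/
theorem torus (K : Type) [Field K] [Algebra ℂ K] [Algebra.EssFiniteType ℂ K] (N : ℕ)
    (x : Fin N → Kˣ) (hind : AlgebraicIndependent ℂ (fun i => (x i : K)))
    (halg : ∀ z : K, IsAlgebraic (IntermediateField.adjoin ℂ (Set.range fun i => (x i : K))) z)
    (w0 : K) (hw0 : (ep x : Lau N →+* K).IsIntegralElem w0) :
    ∃ (D : Fin N → Derivation ℂ K K) (S : List ((Fin N → ℤ) × ℤ)) (M : ℕ),
      (∀ i j, D j (x i : K) = if i = j then (x i : K) else 0) ∧ 1 ≤ M ∧ (∀ y ∈ S, Prim y.1) ∧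
      (app D M S w0 ≠ 0 → ∃ (R : Subalgebra ℂ K) (j : Lau N →ₐ[ℂ] R) (f G : Lau N) (κ s μ : ℕ)
        (h : Fin s → R), (∀ g, (j g : K) = ep x g) ∧ (j : Lau N →+* R).IsIntegral ∧ j G ≠ 0 ∧
        (∀ v : R → WithTop ℤ, IsV v → v (j f) = 1 → v (j 1) ≠ 1 →
          ∀ i, ((κ : ℤ) : WithTop ℤ) ≤ v (h i)) ∧
        ∀ c : Curve N, E.ACl j f κ h μ c → c.ev G ≠ 0 → ∀ i, ∃ Q : ℂ → ℂ,
          MeromorphicAt (fun w => Q w⁻¹) 0 ∧ ∃ R0 : ℝ, ∀ z, R0 < ‖z‖ →
            c.X i z = Q z * c.X 0 z) := by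
  classical
  set Γ : Submodule ℤ (Fin N → ℤ) := ⊥ with hΓ
  set bt : Fin N → Fin N → ℤ := fun j => Pi.single j 1 with hbt
  set co : (Fin N → ℤ) →+ (Fin N → ℤ) := AddMonoidHom.id _ with hco
  have hS : Splt Γ bt co := ⟨fun m => by
    rw [hΓ, Submodule.mem_bot]
    rfl, fun j => rfl⟩
  have hker : ∀ g ∈ RingHom.ker (ep x), g = 0 := fun g hg => ep_inj hind ((RingHom.mem_ker).1 hg)
  have hom : ∀ g ∈ RingHom.ker (ep x), ∀ q, comp Γ q g ∈ RingHom.ker (ep x) := by
    intro g hg q
    rw [hker g hg]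
    have h1 : comp Γ q (0 : Lau N) = 0 := by
      unfold comp
      rw [AddMonoidAlgebra.coeff_zero, Finsupp.filter_zero]
      rfl
    rw [h1]
    exact Ideal.zero_mem _
  obtain ⟨F, X, hX1, hX2, hX3⟩ := fld Pool.Agent.Y809.OG.t_split x Γ hS hom halg
  have h : Cx x Γ bt co F X := ⟨hS, hom, hX1, hX2, splt_xm Pool.Agent.Y809.OG.t_split hS hom, hX3⟩
  have hXx : ∀ i, algebraMap F K (X i) = (x i : K) := by
    intro i
    change (X i : K) = _
    rw [hX1 i, hbt, xm_single]
  have hchar : CharZero (F0 x Γ) := charZero_of_injective_algebraMap (algebraMap ℂ (F0 x Γ)).injective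
  -- the transcendence basis and the derivations
  have hindk : AlgebraicIndependent (F0 x Γ) (fun i => (x i : K)) := by
    have h1 := (Pool.Agent.Y809.OG.t_split N K x Γ N bt co hS hom).1
    have h2 : (fun j => (xm x (bt j) : K)) = fun i => (x i : K) := by
      funext i
      rw [hbt, xm_single]
    rwa [h2] at h1
  have hbasis : IsTranscendenceBasis (F0 x Γ) (fun i => (x i : K)) :=
    basis_of (F0 x Γ) _ hindk halg
  have hder : ∀ j : Fin N, ∃ D : Derivation (F0 x Γ) K K, ∀ i : Fin N,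
      D (x i : K) = if i = j then (x i : K) else 0 := fun j =>
    Pool.Agent.W602.GT.exists_der _ hbasis fun i => if i = j then (x i : K) else 0
  choose D' hD' using hder
  have hCd : Cd X D' := by
    intro i j
    rw [hXx i]
    exact hD' j i
  have hleast : ∀ Γ' : Submodule ℤ (Fin N → ℤ), Sat Γ' →
        (∀ g ∈ RingHom.ker (ep x), ∀ q, comp Γ' q g ∈ RingHom.ker (ep x)) → Γ ≤ Γ' :=
    fun Γ' _ _ => bot_le
  obtain ⟨S, M, hM, hSp, hmain⟩ := torusB h hXx hleast halg D' hCd w0 hw0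
  have hcomm : ∀ (i : Fin N) (z : K), (D' i).restrictScalars ℂ z = D' i z := fun i z => rfl
  refine ⟨fun i => (D' i).restrictScalars ℂ, S, M, fun i j => hD' j i, hM, hSp, fun hne => ?_⟩
  rw [app_congr (fun i => (D' i).restrictScalars ℂ) D' hcomm] at hne
  exact hmain hne

end Pool.Agent.R392.NW
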