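import Pool.Agent.R392.NW.Low
import Pool.Agent.R392.NW.Gor
import Pool.Agent.Y32.OG.Tor

/-!
Orders at all places of weights from the orders at finitely many of them.
-/

set_option autoImplicit false
set_option linter.unusedSectionVars false

open FF MvPolynomial Pool.Agent.W603.LV Pool.Agent.TH122.AB Pool.Agent.Y192.OG

namespace Pool.Agent.R392.NW

section

variable {k F K : Type} [Field k] [CharZero k] [Field F] [Field K] [Algebra k F] [Algebra k K]
  [Algebra F K] [IsScalarTower k F K] [FiniteDimensional F K] {b : ℕ} {X : Fin b → F}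

theorem tw_eq_pw (w : Fin b → ℤ) (c : Fin b →₀ ℕ) : tw w c = pw w c := rfl

/-- the coefficients of the minimal polynomial of a function which vanishes over a place -/
theorem coeff_ge (q : Place k F) (ψ : K) (s : ℤ)
    (hψ : ∀ (P : Place k K) (e : ℕ), Over P q e → Ge P (e * s) ψ) (l : ℕ)
    (hl : l ≤ (minpoly F ψ).natDegree) :
    Ge q (l * s) ((minpoly F ψ).coeff ((minpoly F ψ).natDegree - l)) := by
  have hint : IsIntegral F ψ := Algebra.IsIntegral.isIntegral ψ
  obtain ⟨t, ht0, ht⟩ := q.surj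
  set u : F := t ^ (-s) with hu
  have hu0 : u ≠ 0 := zpow_ne_zero _ ht0
  have huo : q.ord u = -s := by rw [hu, q.ord_zpow, ht, mul_one]
  have h1 : ∀ (P : Place k K) (e : ℕ), Over P q e → P.Reg (algebraMap F K u * ψ) := by
    intro P e hO
    have h2 : Ge P (e * (-s)) (algebraMap F K u) := Or.inr (by rw [hO.2, huo])
    have h3 := h2.mul (hψ P e hO)
    have h4 : (e : ℤ) * -s + e * s = 0 := by ring
    rw [h4] at h3
    exact h3
  have h2 := Pool.Agent.Y500.OG.t_mp k F K q (algebraMap F K u * ψ) h1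
    ((minpoly F ψ).natDegree - l)
  rw [Pool.Agent.Y500.OG.minpoly_mul u hu0 ψ hint, Polynomial.coeff_scaleRoots] at h2
  have h3 : (minpoly F ψ).natDegree - ((minpoly F ψ).natDegree - l) = l := by omega
  rw [h3] at h2
  have h4 : Ge q 0 (u ^ l * (minpoly F ψ).coeff ((minpoly F ψ).natDegree - l)) := by
    rw [mul_comm]
    exact h2
  have h5 := Ge.of_mul (pow_ne_zero l hu0) h4
  rw [q.ord_pow, huo] at h5
  refine h5.mono ?_
  linarith

theorem cone (hG : Gens (k := k) X) (f : MvPolynomial (Fin b) k) (hf : f ≠ 0) (κ : ℕ) (ψ : K)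
    (hadic : ∀ p : MvPolynomial (Fin b) k, Irreducible p → (∀ i, ¬ (MvPolynomial.X i ∣ p)) →
      ∀ q : Place k F, IsAdic X p q → ∀ (P : Place k K) (e : ℕ), Over P q e →
        P.Reg (ψ * algebraMap F K (aeval X f) ^ κ))
    (S : Finset (Fin b → ℤ)) (hS : ∀ ν ∈ S, Prim ν)
    (hray : ∀ ν ∈ S, ∀ q : Place k F, IsTor X ν q → ∀ (P : Place k K) (e : ℕ), Over P q e →
      Ge P e ψ)
    (w : Fin b → ℤ) (v : Fin b →₀ ℕ) (hv : v ∈ f.support) (n : (Fin b → ℤ) → ℕ)
    (hw : w = ∑ ν ∈ S, n ν • ν) (hn : ∀ ν ∈ S, n ν ≠ 0 → ∀ t ∈ f.support, pw ν v ≤ pw ν t)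
    (q : Place k F) (hq : IsTor X w q) (P : Place k K) (e : ℕ) (hO : Over P q e) :
    Ge P (e * ∑ ν ∈ S, (n ν : ℤ)) ψ := by
  classical
  have hint : IsIntegral F ψ := Algebra.IsIntegral.isIntegral ψ
  have hfX : aeval X f ≠ 0 := hG.ne hf
  set s : F := aeval X f ^ κ with hs
  have hs0 : s ≠ 0 := pow_ne_zero _ hfX
  set D := (minpoly F ψ).natDegree with hD
  set c : ℕ → F := fun l => (minpoly F ψ).coeff (D - l) with hc
  -- regularity of the coefficients outside the coordinate hyperplanes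
  have hreg : ∀ l ∈ Finset.Icc 1 D, ∀ p : MvPolynomial (Fin b) k, Irreducible p →
      (∀ i, ¬ (MvPolynomial.X i ∣ p)) → ∀ q : Place k F, IsAdic X p q → q.Reg (s ^ l * c l) := by
    intro l hl p hp hpi q hq
    rw [Finset.mem_Icc] at hl
    have h1 : ∀ (P : Place k K) (e : ℕ), Over P q e → P.Reg (algebraMap F K s * ψ) := by
      intro P e hPe
      have h2 := hadic p hp hpi q hq P e hPe
      rw [← map_pow, mul_comm] at h2
      exact h2
    have h2 := Pool.Agent.Y500.OG.t_mp k F K q (algebraMap F K s * ψ) h1 (D - l)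
    rw [Pool.Agent.Y500.OG.minpoly_mul s hs0 ψ hint, Polynomial.coeff_scaleRoots, ← hD] at h2
    have h3 : D - (D - l) = l := by omega
    rw [h3, mul_comm] at h2
    exact h2
  have hM : ∀ l ∈ Finset.Icc 1 D, ∃ M₀ : ℕ, ∀ M : ℕ, M₀ ≤ M →
      ∃ a : MvPolynomial (Fin b) k, s ^ l * c l * (∏ i, X i) ^ M = aeval X a :=
    fun l hl => Pool.Agent.Y500.OG.poly_of_reg' hG _ (hreg l hl)
  refine root_ge P (Pool.Agent.Y500.OG.rel_minpoly ψ hint) fun l hl => ?_
  obtain ⟨M, hM'⟩ := hM l hl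
  obtain ⟨a, ha⟩ := hM' M le_rfl
  have hlD := (Finset.mem_Icc.1 hl).2
  -- the weights of the exponents of the coefficient
  by_cases hcl : c l = 0
  · left
    change algebraMap F K (c l) = 0
    rw [hcl, map_zero]
  have ha0 : a ≠ 0 := by
    rintro rfl
    rw [map_zero] at ha
    exact (mul_ne_zero (mul_ne_zero (pow_ne_zero _ hs0) hcl)
      (Pool.Agent.Y500.OG.prodX_ne hG M)) ha
  have hkey : ∀ (w' : Fin b → ℤ) (q' : Place k F), IsTor X w' q' →
      q'.ord (aeval X a) = (κ * l : ℕ) * q'.ord (aeval X f) + q'.ord (c l) + M * ∑ i, w' i := by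
    intro w' q' hq'
    rw [← ha, q'.ord_mul (mul_ne_zero (pow_ne_zero _ hs0) hcl) (Pool.Agent.Y500.OG.prodX_ne hG M),
        q'.ord_mul (pow_ne_zero _ hs0) hcl, Pool.Agent.Y500.OG.ord_prodX hG, hs, ← pow_mul,
        q'.ord_pow]
    have h3 : ∑ i, q'.ord (X i) = ∑ i, w' i :=
      Finset.sum_congr rfl fun i _ => Pool.Agent.Y500.OG.tor_X hq' i
    rw [h3]
  have hray' : ∀ ν ∈ S, n ν ≠ 0 → ∀ m ∈ a.support,
      (κ * l : ℕ) * pw ν v + l + M * ∑ i, ν i ≤ pw ν m := by
    intro ν hν hnν m hm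
    obtain ⟨q', hq'⟩ := Pool.Agent.Y32.OG.t_tor k F b X hG ν (hS ν hν)
    have h1 := coeff_ge q' ψ 1 (fun P e hO => by
      rw [mul_one]
      exact hray ν hν q' hq' P e hO) l hlD
    rw [mul_one] at h1
    have h2 : (l : ℤ) ≤ q'.ord (c l) := h1.resolve_left hcl
    have h3 := hkey ν q' hq'
    have h4 := (hq' a ha0).1 m hm
    obtain ⟨-, t, ht, h5⟩ := hq' f hf
    have h6 := hn ν hν hnν t ht
    rw [tw_eq_pw] at h4 h5
    rw [h3, h5] at h4
    have h7 : ((κ * l : ℕ) : ℤ) * pw ν v ≤ ((κ * l : ℕ) : ℤ) * pw ν t :=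
      mul_le_mul_of_nonneg_left h6 (Nat.cast_nonneg _)
    linarith
  have hmain : (l : ℤ) * ∑ ν ∈ S, (n ν : ℤ) ≤ q.ord (c l) := by
    obtain ⟨-, m, hm, h1⟩ := hq a ha0
    have h2 := hkey w q hq
    have h3 := (hq f hf).1 v hv
    rw [tw_eq_pw] at h1 h3
    rw [h1] at h2
    have h4 : (κ * l : ℕ) * pw w v + l * ∑ ν ∈ S, (n ν : ℤ) + M * ∑ i, w i ≤ pw w m := by
      have h5 : ∑ i, w i = ∑ ν ∈ S, (n ν : ℤ) * ∑ i, ν i := by
        rw [hw]
        simp only [Finset.sum_apply, nsmul_eq_mul]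
        rw [Finset.sum_comm]
        exact Finset.sum_congr rfl fun ν _ => by
          rw [Finset.mul_sum]
          exact Finset.sum_congr rfl fun i _ => rfl
      rw [h5, hw, pw_sum, pw_sum, Finset.mul_sum, Finset.mul_sum, Finset.mul_sum,
        ← Finset.sum_add_distrib, ← Finset.sum_add_distrib]
      refine Finset.sum_le_sum fun ν hν => ?_
      by_cases hnν : n ν = 0
      · rw [hnν]
        simp
      · have h6 := hray' ν hν hnν m hm
        have h7 := mul_le_mul_of_nonneg_left h6 (Nat.cast_nonneg (α := ℤ) (n ν))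
        calc _ = (n ν : ℤ) * ((κ * l : ℕ) * pw ν v + l + M * ∑ i, ν i) := by ring
          _ ≤ _ := h7
    have h8 : ((κ * l : ℕ) : ℤ) * q.ord (aeval X f) ≤ ((κ * l : ℕ) : ℤ) * pw w v :=
      mul_le_mul_of_nonneg_left h3 (Nat.cast_nonneg _)
    linarith
  have h9 := ge_over hO (show Ge q (l * ∑ ν ∈ S, (n ν : ℤ)) (c l) from Or.inr hmain)
  refine h9.mono (le_of_eq ?_)
  ring

end

end Pool.Agent.R392.NW
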