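import Pool.Agent.R392.NW.Ind
import Pool.Agent.R392.NW.Fk

/-!
The inductive step.
-/

set_option autoImplicit false
set_option linter.unusedSectionVars false

open Pool.Agent.Y192.OG

namespace Pool.Agent.R392.NW

section tools

variable {N : ℕ} {K : Type} [Field K] [Algebra ℂ K]

/-- the operators preserve the functions with trace zero -/
theorem Tp_trace (F : IntermediateField ℂ Mer) [Algebra F K]
    [FiniteDimensional F K] (ι : K →ₐ[ℂ] Mer) (hι : ∀ a : F, ι (algebraMap F K a) = a)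
    (x : Fin N → Kˣ) (ξ : Fin N → Mer) (hx : ∀ i, ι (x i : K) = ξ i)
    (hF : F = IntermediateField.adjoin ℂ (Set.range ξ)) (D : Fin N → Derivation ℂ K K)
    (hD : ∀ i j, D j (x i : K) = if i = j then (x i : K) else 0) (M : ℕ)
    (y : (Fin N → ℤ) × ℤ) (z : K) (hz : Algebra.trace F K z = 0) :
    Algebra.trace F K (Tp D M y z) = 0 := by
  have hDw : ∀ i, Dw D y.1 (x i : K) = (y.1 i : K) * x i := by
    intro i
    rw [Dw_apply, Finset.sum_eq_single i]
    · rw [hD i i, if_pos rfl]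
    · intro j _ hj
      rw [hD i j, if_neg (Ne.symm hj), mul_zero]
    · intro h
      exact absurd (Finset.mem_univ i) h
  have hmem := der_adj x (Dw D y.1) (fun i => by
    rw [hDw]
    have h : (x i : K) ∈ IntermediateField.adjoin ℂ (Set.range fun i => (x i : K)) :=
      IntermediateField.subset_adjoin _ _ ⟨i, rfl⟩
    exact mul_mem (intCast_mem _ _) h)
  have hδ : ∀ g : F, ∃ g' : F, Dw D y.1 (algebraMap F K g) = algebraMap F K g' := by
    intro g
    obtain ⟨a, ha⟩ := mem_alg' F ι hι (fun i => (x i : K)) ξ hx hF _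
      (hmem _ (alg_mem' F ι hι (fun i => (x i : K)) ξ hx hF g))
    exact ⟨a, ha.symm⟩
  choose δ hδ using hδ
  have h1 := trace_der (F := F) (K := K)
    ({ toFun := fun z => Dw D y.1 z, map_zero' := map_zero _, map_add' := map_add _ } : K →+ K)
    (fun a b => by
      change Dw D y.1 (a * b) = a * Dw D y.1 b + b * Dw D y.1 a
      rw [(Dw D y.1).leibniz, smul_eq_mul, smul_eq_mul]) δ hδ z
  have h2 : algebraMap F K (Algebra.trace F K (Dw D y.1 z)) = 0 := by
    refine h1.trans ?_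
    rw [hz, map_zero, map_zero]
  have h3 : Algebra.trace F K (Dw D y.1 z) = 0 := (map_eq_zero _).1 h2
  unfold Tp
  have h4 : (M : K) * Dw D y.1 z = (M : F) • Dw D y.1 z := by
    rw [Algebra.smul_def, map_natCast]
  have h5 : (y.2 : K) * z = (y.2 : F) • z := by
    rw [Algebra.smul_def, map_intCast]
  rw [h4, h5, map_sub, map_smul, map_smul, h3, hz, smul_zero, smul_zero, sub_zero]

end tools

/-- the inductive hypothesis -/
def Clm (s : ℕ) : Prop :=
  ∀ (u : Fin s → Hol), AlgebraicIndependent ℂ (fun i => ex (u i)) →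
    ∀ y : Mer, IsAlgebraic (EF u) y → ∃ m, 1 ≤ m ∧ y ∈ EF (sc m u)

/-- a function which is an eigenvector of the derivation of a primitive weight -/
theorem eigen {N : ℕ} (IH : ∀ s < N, Clm s) (u : Fin N → Hol)
    (K : Type) [Field K] [Algebra ℂ K] (ι : K →ₐ[ℂ] Mer) (x : Fin N → Kˣ)
    (hx : ∀ i, ι (x i : K) = ex (u i))
    (hbasis : IsTranscendenceBasis ℂ (fun i => (x i : K)))
    (halg : ∀ z : K, IsAlgebraic (IntermediateField.adjoin ℂ (Set.range fun i => (x i : K))) z)
    (D : Derivation ℂ K K) (ν : Fin N → ℤ) (hD : ∀ i, D (x i : K) = (ν i : K) * x i)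
    (β : Fin N → ℤ) (hβ : ∑ i, ν i * β i = 1) (M : ℕ) (hM : 1 ≤ M) (m : ℤ) (v : K) (hv : v ≠ 0)
    (hDv : (M : K) * D v = (m : K) * v) : ∃ m' : ℕ, 1 ≤ m' ∧ ι v ∈ EF (sc m' u) := by
  have hιxm : ∀ n : Fin N → ℤ, ι (xm x n : K) = ex (∑ i, n i • u i) := by
    intro n
    rw [ex_comb]
    unfold xm
    rw [Units.coe_prod, Units.coe_prod, map_prod]
    refine Finset.prod_congr rfl fun i _ => ?_
    rw [Units.val_zpow_eq_zpow_val, Units.val_zpow_eq_zpow_val, map_zpow₀, hx]
    rfl
  -- the function which is killed by the derivation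
  set vU : Kˣ := Units.mk0 v hv with hvU
  set yU : Kˣ := vU ^ M * (xm x β) ^ (-m) with hyU
  have hldβ : (ld D (xm x β)).toAdd = 1 := by
    rw [ld_apply, D_xm D x ν hD, hβ, Int.cast_one, one_mul, div_self (Units.ne_zero _)]
  have hldv : (M : K) * (D v / v) = (m : K) := by
    rw [← mul_div_assoc, hDv, mul_div_assoc, div_self hv, mul_one]
  have hldy : (ld D yU).toAdd = 0 := by
    rw [hyU, map_mul, map_pow, map_zpow, toAdd_mul, toAdd_pow, toAdd_zpow, hldβ, ld_apply]
    change M • (D v / v) + -m • (1 : K) = 0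
    rw [nsmul_eq_mul, hldv, neg_smul, zsmul_eq_mul, mul_one, add_neg_cancel]
  have hDy : D (yU : K) = 0 := by
    rw [ld_apply, div_eq_zero_iff] at hldy
    exact hldy.resolve_right (Units.ne_zero _)
  obtain ⟨s, γ, hs, hγ, hyalg⟩ := exch x hbasis halg D ν hD β hβ (yU : K) hDy
  -- the exponents
  set u' : Fin s → Hol := fun i => ∑ j, γ i j • u j with hu'
  have hιγ : ∀ i, ι (xm x (γ i) : K) = ex (u' i) := fun i => hιxm (γ i)
  have hind' : AlgebraicIndependent ℂ (fun i => ex (u' i)) := by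
    have h1 := (AlgHom.algebraicIndependent_iff ι (ι : K →+* Mer).injective).2 hγ
    have h2 : (ι ∘ fun i => (xm x (γ i) : K)) = fun i => ex (u' i) := funext hιγ
    rwa [h2] at h1
  have hle : Algebra.adjoin ℂ (Set.range fun i => (xm x (γ i) : K)) ≤
      (EF u').toSubalgebra.comap ι := by
    rw [Algebra.adjoin_le_iff]
    rintro _ ⟨i, rfl⟩
    change ι (xm x (γ i) : K) ∈ EF u'
    rw [hιγ]
    exact mem_EF u' i
  have hyalg' : IsAlgebraic (EF u') (ι (yU : K)) :=
    alg_map (A := Algebra.adjoin ℂ (Set.range fun i => (xm x (γ i) : K))) (K := K) (L := Mer)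
      Subtype.val_injective (ι : K →+* Mer) (EF u').toSubalgebra.toSubring
      (fun a => hle a.2) hyalg
  set c : ℂ := (m : ℂ) * (M : ℂ)⁻¹ with hc
  have hM0 : (M : ℂ) ≠ 0 := by exact_mod_cast (by omega : M ≠ 0)
  set b : Hol := ∑ i, β i • u i with hb
  set y1 : Mer := ι v * ex (-(c • b)) with hy1
  have hy1M : y1 ^ M = ι (yU : K) := by
    rw [hy1, mul_pow, ← ex_nsmul, hyU, Units.val_mul, Units.val_pow_eq_pow_val, map_mul, map_pow]
    congr 1
    rw [← Pool.Agent.Y809.OG.xm_zsmul, hιxm]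
    congr 1
    rw [hb, smul_neg, ← Nat.cast_smul_eq_nsmul ℂ, smul_smul, hc]
    have h1 : (M : ℂ) * ((m : ℂ) * (M : ℂ)⁻¹) = (m : ℂ) := by
      field_simp
    rw [h1, Finset.smul_sum, ← Finset.sum_neg_distrib]
    refine Finset.sum_congr rfl fun i _ => ?_
    rw [Pi.smul_apply, smul_eq_mul, mul_smul, neg_smul, Int.cast_smul_eq_zsmul]
  have hy1alg : IsAlgebraic (EF u') y1 := by
    refine IsAlgebraic.of_pow (n := M) (by omega) ?_
    rw [hy1M]
    exact hyalg'
  obtain ⟨m', hm', hmem⟩ := IH s hs u' hind' y1 hy1alg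
  refine ⟨m' * M, Nat.mul_pos hm' hM, ?_⟩
  -- the conclusion
  have h1 : y1 ∈ EF (sc (m' * M) u) := by
    have h2 : EF (sc m' u') ≤ EF (sc m' u) := by
      unfold EF
      rw [IntermediateField.adjoin_le_iff]
      rintro _ ⟨i, rfl⟩
      change ex (sc m' u' i) ∈ EF (sc m' u)
      have h3 : sc m' u' i = ∑ j, γ i j • sc m' u j := by
        unfold sc
        rw [hu', Finset.smul_sum]
        refine Finset.sum_congr rfl fun j _ => ?_
        rw [smul_comm]
      rw [h3]
      exact comb_mem_EF _ _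
    have h3 := EF_le M hM (sc m' u)
    rw [sc_sc] at h3
    exact h3 (h2 hmem)
  have h2 : ex (c • b) ∈ EF (sc (m' * M) u) := by
    have h3 := EF_le m' hm' (sc M u)
    rw [sc_sc, mul_comm] at h3
    apply h3
    have h4 : c • b = ∑ i, (m * β i) • sc M u i := by
      rw [hb, Finset.smul_sum]
      refine Finset.sum_congr rfl fun i _ => ?_
      unfold sc
      rw [hc, mul_smul, mul_smul, smul_comm (β i) ((M : ℂ)⁻¹) (u i), Int.cast_smul_eq_zsmul]
    rw [h4]
    exact comb_mem_EF _ _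
  have h3 : ι v = y1 * ex (c • b) := by
    rw [hy1, mul_assoc, ← ex_add, neg_add_cancel, ex_zero, mul_one]
  rw [h3]
  exact mul_mem h1 h2

theorem step {N : ℕ} (hN : 0 < N) (IH : ∀ s < N, Clm s) (u : Fin N → Hol)
    (hind : AlgebraicIndependent ℂ (fun i => ex (u i))) (F : IntermediateField ℂ Mer)
    (hF : F = IntermediateField.adjoin ℂ (Set.range fun i => ex (u i)))
    (K : Type) [Field K] [Algebra ℂ K] [Algebra F K]
    [FiniteDimensional F K] [Algebra.EssFiniteType ℂ K] (ι : K →ₐ[ℂ] Mer)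
    (hι : ∀ a : F, ι (algebraMap F K a) = a)
    (hdrop : ∀ m, 1 ≤ m → ∀ v : K, ι v ∈ EF (sc m u) → ι v ∈ F) (t : K) (ht : ι t ∉ F) :
    False := by
  have hchar : CharZero F := charZero_of_injective_algebraMap (algebraMap ℂ F).injective
  have hmemF : ∀ i, ex (u i) ∈ F := by
    intro i
    rw [hF]
    exact IntermediateField.subset_adjoin _ _ ⟨i, rfl⟩
  set x : Fin N → Kˣ := fun i => Units.mk0 (algebraMap F K ⟨ex (u i), hmemF i⟩) (by
    rw [Ne, map_eq_zero]
    intro h
    exact ex_ne (u i) (congrArg Subtype.val h)) with hxdef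
  have hx : ∀ i, ι (x i : K) = ex (u i) := fun i => hι ⟨ex (u i), hmemF i⟩
  have halg := halg' F ι hι (fun i => (x i : K)) (fun i => ex (u i)) hx hF
  have hindK : AlgebraicIndependent ℂ (fun i => (x i : K)) := by
    refine (AlgHom.algebraicIndependent_iff ι (ι : K →+* Mer).injective).1 ?_
    have h2 : (ι ∘ fun i => (x i : K)) = fun i => ex (u i) := funext hx
    rw [h2]
    exact hind
  have hbasis : IsTranscendenceBasis ℂ (fun i => (x i : K)) := by
    rw [hindK.isTranscendenceBasis_iff_isAlgebraic]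
    exact ⟨fun z => alg_adj _ z (halg z)⟩
  obtain ⟨w0, hw0, htr, hint⟩ := exists_w0 F ι hι x (fun i => ex (u i)) hx hF t ht
  obtain ⟨D, S, M, hD, hM, hS, happ⟩ := key K hN ι u x hx hindK halg w0 hint
  obtain ⟨⟨ν, m⟩, hy, v, hv, hvtr, hTp⟩ := list_kill D M (fun z => Algebra.trace F K z = 0)
    (fun y z hz => Tp_trace F ι hι x (fun i => ex (u i)) hx hF D hD M y z hz) S w0 hw0 htr happ
  obtain ⟨β, hβ⟩ := hS _ hy
  have hDw : ∀ i, Dw D ν (x i : K) = (ν i : K) * x i := by
    intro i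
    rw [Dw_apply, Finset.sum_eq_single i]
    · rw [hD i i, if_pos rfl]
    · intro j _ hj
      rw [hD i j, if_neg (Ne.symm hj), mul_zero]
    · intro h
      exact absurd (Finset.mem_univ i) h
  obtain ⟨m', hm', hmem⟩ := eigen IH u K ι x hx hbasis halg (Dw D ν) ν hDw β hβ M hM m v hv
    (sub_eq_zero.1 hTp)
  have h1 := hdrop m' hm' v hmem
  have h2 : v = algebraMap F K ⟨ι v, h1⟩ := by
    apply (ι : K →+* Mer).injective
    change ι v = ι (algebraMap F K ⟨ι v, h1⟩)
    rw [hι]
  have h3 : Algebra.trace F K v = 0 := hvtr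
  rw [h2, Algebra.trace_algebraMap, nsmul_eq_mul] at h3
  rcases mul_eq_zero.1 h3 with h4 | h4
  · have h5 : (Module.finrank F K : F) ≠ 0 := by
      exact_mod_cast Module.finrank_pos.ne'
    exact h5 h4
  · apply hv
    rw [h2, h4, map_zero]

end Pool.Agent.R392.NW
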